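import Pool.Agent.Helper29.TW.Base
import Pool.Agent.Helper29.TD.TyCard

/-!
# Block TW-18: the number of states is bounded by a tower of constant height

`finite_Stt`: `finite_Ty`.  `Tow.comp`: `f k ≤ E d (k + 2)`, `g k ≤ E e (k + 2)`, so `f (g k) ≤ E d (g k + 2)` and `g k + 2 ≤ 2 ^ (g k + 1) + ... `: for
instance `x + 2 ≤ 2 ^ (x + 1) ≤ 2 ^ (2 ^ x)`, so `g k + 2 ≤ E (e + 2) (k + 2)`, then `E_add`.
`card_Stt`: `Nat.card` of the product is the product `2 ^ K * Nat.card (Ty S ar q K) * (5 * k + 1) * 2 ^ (2 ^ K * (2 ^ K * ((k + 1) * ((5 * k + 1) *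
(5 * k + 1)))))` with `K = 6 * (k + 1)` (`Nat.card_prod`, `Nat.card_eq_fintype_card`, the cardinality of `Set α` is `2 ^ card α`; `Finite`
instances); then `Tow.mul`, `Tow.two_pow`, `Tow.add`, `Tow.const`, `Tow.id`, and `card_Ty` with `Tow.comp`.
-/

set_option autoImplicit false

namespace Pool.Agent.Helper29.TW

open Pool.Agent.Helper20.Spectra Pool.Agent.Helper29.TD

variable {S : Type} {ar : S → ℕ}

instance finite_Stt [Finite S] (q K k : ℕ) : Finite (Stt S ar q K k) := by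
  have := finite_Ty (S := S) (ar := ar) q K
  unfold Stt
  infer_instance

lemma tow_comp {f g : ℕ → ℕ} (hf : Tow f) (hg : Tow g) : Tow (fun k => f (g k)) := by
  obtain ⟨d, hd⟩ := hf
  obtain ⟨e, he⟩ := hg
  refine ⟨d + (e + 2), fun k => (hd (g k)).trans ?_⟩
  rw [← E_add]
  refine E_mono d ?_
  have h1 : g k ≤ E e (k + 2) := he k
  have h2 : E (e + 2) (k + 2) = 2 ^ (2 ^ E e (k + 2)) := rfl
  have h3 : E e (k + 2) < 2 ^ E e (k + 2) := Nat.lt_two_pow_self
  have h4 : 2 ^ E e (k + 2) < 2 ^ (2 ^ E e (k + 2)) := Nat.lt_two_pow_self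
  rw [h2]
  omega

private lemma card_set18 (α : Type) [Finite α] : Nat.card (Set α) = 2 ^ Nat.card α := by
  have h1 : Nat.card (Set α) = Nat.card (α → Prop) := rfl
  have h2 : Nat.card Prop = 2 := by
    rw [Nat.card_eq_fintype_card]
    rfl
  rw [h1, Nat.card_fun, h2]

private lemma card_finset18 (K : ℕ) : Nat.card (Finset (Fin K)) = 2 ^ K := by
  rw [Nat.card_eq_fintype_card, Fintype.card_finset, Fintype.card_fin]

theorem card_Stt [Finite S] (q : ℕ) :
    Tow (fun k => Nat.card (Stt S ar q (6 * (k + 1)) k)) := by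
  have hK : Tow (fun k => 6 * (k + 1)) := Tow.mul (Tow.const 6) (Tow.add Tow.id (Tow.const 1))
  have h1 : Tow (fun k => k + 1) := Tow.add Tow.id (Tow.const 1)
  have h5 : Tow (fun k => 5 * k + 1) := Tow.add (Tow.mul (Tow.const 5) Tow.id) (Tow.const 1)
  have hT : Tow (fun k => Nat.card (Ty S ar q (6 * (k + 1)))) := tow_comp (card_Ty S ar q) hK
  have h : (fun k => Nat.card (Stt S ar q (6 * (k + 1)) k)) = fun k =>
      2 ^ (6 * (k + 1)) * (Nat.card (Ty S ar q (6 * (k + 1))) * ((5 * k + 1) *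
        2 ^ (2 ^ (6 * (k + 1)) * (2 ^ (6 * (k + 1)) * ((k + 1) * ((5 * k + 1) * (5 * k + 1))))))) := by
    funext k
    rw [Nat.card_prod, Nat.card_prod, Nat.card_prod, card_finset18, Nat.card_fin, card_set18, Nat.card_prod,
      Nat.card_prod, Nat.card_prod, Nat.card_prod, card_set18, Nat.card_fin, Nat.card_fin, Nat.card_fin]
  rw [h]
  exact Tow.mul hK.two_pow (Tow.mul hT (Tow.mul h5 (Tow.two_pow (Tow.mul hK.two_pow (Tow.mul hK.two_pow
    (Tow.mul h1 (Tow.mul h5 h5)))))))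

end Pool.Agent.Helper29.TW
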