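import Pool.Agent.Helper29.TW.Base

/-!
# Block TW-17: pumping derivations

Compare `Pool/Agent/Helper20/OP/Der.lean` (a similar statement, proved there).
`u` has a loop if `∃ l ≥ 1, ∀ m, Der u m → Der u (m + l)`.  Key lemma, by induction on the derivation of `Der t n`: for every
`Q : Finset T` such that for all `s ∈ Q` there is `c ≥ 1` with `∀ m, Der t m → Der s (m + c)`: either `n < 2 ^ (Fintype.card T - Q.card)`, or there
are `u` with a loop and `m`, `c` with `n = m + c`, `Der u m`, `∀ m, Der u m → Der t (m + c)`.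
If `t ∈ Q`, take `u = t`, `c = 0`.  Let `t ∉ Q`.  `base`: `0 < 2 ^ _`.  `unary t t'`: the induction hypothesis for `insert t' Q`
(`Der t m → Der t' (m + 1) → Der s (m + 1 + c)`): `n < 2 ^ (card - Q.card - 1)` gives `n + 1 < 2 ^ (card - Q.card)`.  `join t₁ t₂ t`, `n₁ + n₂`: if
`n₂ = 0` use the induction hypothesis for `t₁` with the same `Q` (`Der t₁ m → Der t (m + 0)`), similarly if `n₁ = 0`; if
`1 ≤ n₁, n₂` use both induction hypotheses with `insert t Q`.
`Q = ∅`: for `n ≥ 2 ^ card T` there is a loop.  Let `p` be the product over all `u` of a loop length `c_u ≥ 1` of `u` (one if there is none):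
`Der u m → Der u (m + p)` for every `u` with a loop.
-/

set_option autoImplicit false

namespace Pool.Agent.Helper29.TW

private lemma Der.key65 {T : Type} [Fintype T] [DecidableEq T] {B : T → Prop} {U : T → T → Prop}
    {J : T → T → T → Prop} {t : T} {n : ℕ} (h : Der B U J t n) : ∀ S : Finset T,
    (∀ s ∈ S, ∃ c : ℕ, 1 ≤ c ∧ ∀ m, Der B U J t m → Der B U J s (m + c)) →
    n < 2 ^ (Fintype.card T - S.card) ∨ ∃ (u : T) (m c : ℕ), n = m + c ∧ Der B U J u m ∧
      (∃ l : ℕ, 1 ≤ l ∧ ∀ m, Der B U J u m → Der B U J u (m + l)) ∧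
      ∀ m, Der B U J u m → Der B U J t (m + c) := by
  induction h with
  | base t ht => exact fun S _ => Or.inl (by positivity)
  | unary t t' n hU h ih =>
    intro S hS
    by_cases htS : t' ∈ S
    · exact Or.inr ⟨t', n + 1, 0, rfl, Der.unary t t' n hU h, hS t' htS, fun m hm => hm⟩
    · have c₁ : ∀ m, Der B U J t m → Der B U J t' (m + 1) := fun m hm => Der.unary t t' m hU hm
      have hle : (insert t' S).card ≤ Fintype.card T := Finset.card_le_univ _
      rw [Finset.card_insert_of_notMem htS] at hle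
      have g := ih (insert t' S) (by
        intro s hs
        rcases Finset.mem_insert.mp hs with rfl | hs
        · exact ⟨1, le_rfl, c₁⟩
        · obtain ⟨c, hc, hc'⟩ := hS s hs
          exact ⟨1 + c, by omega, fun m hm => by
            rw [← Nat.add_assoc]
            exact hc' _ (c₁ m hm)⟩)
      rw [Finset.card_insert_of_notMem htS] at g
      rcases g with g | ⟨u, m, c, e, hu, hl, hc⟩
      · left
        have e : Fintype.card T - S.card = Fintype.card T - (S.card + 1) + 1 := by omega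
        rw [e, pow_succ]
        omega
      · exact Or.inr ⟨u, m, c + 1, by omega, hu, hl, fun m' hm' => by
          rw [← Nat.add_assoc]
          exact c₁ _ (hc m' hm')⟩
  | join t₁ t₂ t n₁ n₂ hJ h₁ h₂ ih₁ ih₂ =>
    intro S hS
    have c₁ : ∀ m, Der B U J t₁ m → Der B U J t (m + n₂) := fun m hm =>
      Der.join t₁ t₂ t m n₂ hJ hm h₂
    have c₂ : ∀ m, Der B U J t₂ m → Der B U J t (m + n₁) := fun m hm => by
      rw [Nat.add_comm]
      exact Der.join t₁ t₂ t n₁ m hJ h₁ hm
    rcases Nat.eq_zero_or_pos n₂ with h0 | hn₂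
    · rw [h0] at c₁
      have g := ih₁ S fun s hs => by
        obtain ⟨c, hc, hc'⟩ := hS s hs
        exact ⟨c, hc, fun m hm => hc' m (c₁ m hm)⟩
      rcases g with g | ⟨u, m, c, e, hu, hl, hc⟩
      · left
        omega
      · exact Or.inr ⟨u, m, c, by omega, hu, hl, fun m' hm' => c₁ _ (hc m' hm')⟩
    rcases Nat.eq_zero_or_pos n₁ with h0 | hn₁
    · rw [h0] at c₂
      have g := ih₂ S fun s hs => by
        obtain ⟨c, hc, hc'⟩ := hS s hs
        exact ⟨c, hc, fun m hm => hc' m (c₂ m hm)⟩
      rcases g with g | ⟨u, m, c, e, hu, hl, hc⟩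
      · left
        omega
      · exact Or.inr ⟨u, m, c, by omega, hu, hl, fun m' hm' => c₂ _ (hc m' hm')⟩
    by_cases htS : t ∈ S
    · exact Or.inr ⟨t, n₁ + n₂, 0, rfl, Der.join t₁ t₂ t n₁ n₂ hJ h₁ h₂, hS t htS, fun m hm => hm⟩
    · have hle : (insert t S).card ≤ Fintype.card T := Finset.card_le_univ _
      rw [Finset.card_insert_of_notMem htS] at hle
      have g₁ := ih₁ (insert t S) (by
        intro s hs
        rcases Finset.mem_insert.mp hs with rfl | hs
        · exact ⟨n₂, hn₂, c₁⟩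
        · obtain ⟨c, hc, hc'⟩ := hS s hs
          exact ⟨n₂ + c, by omega, fun m hm => by
            rw [← Nat.add_assoc]
            exact hc' _ (c₁ m hm)⟩)
      have g₂ := ih₂ (insert t S) (by
        intro s hs
        rcases Finset.mem_insert.mp hs with rfl | hs
        · exact ⟨n₁, hn₁, c₂⟩
        · obtain ⟨c, hc, hc'⟩ := hS s hs
          exact ⟨n₁ + c, by omega, fun m hm => by
            rw [← Nat.add_assoc]
            exact hc' _ (c₂ m hm)⟩)
      rw [Finset.card_insert_of_notMem htS] at g₁ g₂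
      rcases g₁ with g₁ | ⟨u, m, c, e, hu, hl, hc⟩
      · rcases g₂ with g₂ | ⟨u, m, c, e, hu, hl, hc⟩
        · left
          have e : Fintype.card T - S.card = Fintype.card T - (S.card + 1) + 1 := by omega
          rw [e, pow_succ]
          omega
        · exact Or.inr ⟨u, m, c + n₁, by omega, hu, hl, fun m' hm' => by
            rw [← Nat.add_assoc]
            exact c₂ _ (hc m' hm')⟩
      · exact Or.inr ⟨u, m, c + n₂, by omega, hu, hl, fun m' hm' => by
          rw [← Nat.add_assoc]
          exact c₁ _ (hc m' hm')⟩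

theorem Der.pump {T : Type} [Finite T] (B : T → Prop) (U : T → T → Prop) (J : T → T → T → Prop) :
    ∃ p N : ℕ, 1 ≤ p ∧ ∀ t n, N ≤ n → Der B U J t n → Der B U J t (n + p) := by
  classical
  haveI := Fintype.ofFinite T
  have hc : ∀ t : T, ∃ c : ℕ, 1 ≤ c ∧ ((∃ l : ℕ, 1 ≤ l ∧ ∀ m, Der B U J t m → Der B U J t (m + l)) →
      ∀ m, Der B U J t m → Der B U J t (m + c)) := by
    intro t
    by_cases h : ∃ l : ℕ, 1 ≤ l ∧ ∀ m, Der B U J t m → Der B U J t (m + l)
    · obtain ⟨l, hl, hl'⟩ := h
      exact ⟨l, hl, fun _ => hl'⟩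
    · exact ⟨1, le_rfl, fun h' => absurd h' h⟩
  choose c hc hc' using hc
  have hp : ∀ t, (∃ l : ℕ, 1 ≤ l ∧ ∀ m, Der B U J t m → Der B U J t (m + l)) →
      ∀ m, Der B U J t m → Der B U J t (m + ∏ t, c t) := by
    intro t ht m hm
    obtain ⟨k, hk⟩ : c t ∣ ∏ t, c t := Finset.dvd_prod_of_mem c (Finset.mem_univ t)
    rw [hk]
    clear hk
    induction k with
    | zero => simpa using hm
    | succ k ih =>
      rw [Nat.mul_succ, ← Nat.add_assoc]
      exact hc' t ht _ ih
  refine ⟨∏ t, c t, 2 ^ (Fintype.card T), Finset.one_le_prod' fun t _ => hc t, ?_⟩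
  intro t n hn h
  rcases h.key65 ∅ (fun s hs => absurd hs (Finset.notMem_empty s)) with h1 | ⟨u, m, d, e, hu, hl, hd⟩
  · rw [Finset.card_empty, Nat.sub_zero] at h1
    omega
  · have h2 := hd _ (hp u hl m hu)
    have e2 : n + ∏ t, c t = m + ∏ t, c t + d := by omega
    rw [e2]
    exact h2

end Pool.Agent.Helper29.TW
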