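import Pool.Agent.Helper29.TW.Base

/-!
# Block TW-16: small derivations

Let `R i` be the set of the `t` with `Der t n` for some `n < 2 ^ i`; it increases with `i`.  If `R i = R (i + 1)` then every derivable `t` is
in `R i`: induction on the derivation (`base`: `0 < 2 ^ i`; `unary`: `n < 2 ^ i` gives `n + 1 < 2 ^ (i + 1)`; `join`: `n₁, n₂ < 2 ^ i` give
`n₁ + n₂ < 2 ^ (i + 1)`; so the result is in `R (i + 1) = R i`).  Such an `i ≤ Nat.card T` exists: otherwise `i ≤ (R i).ncard` for all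
`i ≤ Nat.card T + 1` by induction.  Then `2 ^ i ≤ 2 ^ Nat.card T`.
-/

set_option autoImplicit false

namespace Pool.Agent.Helper29.TW

/-- the derivable elements with less than `2 ^ i` unary steps -/
private def rr_h44 {T : Type} (B : T → Prop) (U : T → T → Prop) (J : T → T → T → Prop) (i : ℕ) :
    Set T := {t | ∃ n, n < 2 ^ i ∧ Der B U J t n}

private theorem rr_mono_h44 {T : Type} {B : T → Prop} {U : T → T → Prop} {J : T → T → T → Prop}
    (i : ℕ) : rr_h44 B U J i ⊆ rr_h44 B U J (i + 1) := by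
  rintro t ⟨n, hn, hd⟩
  exact ⟨n, hn.trans (Nat.pow_lt_pow_right (by norm_num) (Nat.lt_succ_self i)), hd⟩

private theorem rr_stab_h44 {T : Type} {B : T → Prop} {U : T → T → Prop} {J : T → T → T → Prop}
    {i : ℕ} (hi : rr_h44 B U J (i + 1) ⊆ rr_h44 B U J i) {t : T} {n : ℕ} (h : Der B U J t n) :
    t ∈ rr_h44 B U J i := by
  induction h with
  | base t ht => exact ⟨0, by positivity, Der.base t ht⟩
  | unary t t' n hU _ ih =>
    obtain ⟨m, hm, hd⟩ := ih
    apply hi
    refine ⟨m + 1, ?_, Der.unary t t' m hU hd⟩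
    rw [pow_succ]
    omega
  | join t₁ t₂ t n₁ n₂ hJ _ _ ih₁ ih₂ =>
    obtain ⟨m₁, hm₁, hd₁⟩ := ih₁
    obtain ⟨m₂, hm₂, hd₂⟩ := ih₂
    apply hi
    refine ⟨m₁ + m₂, ?_, Der.join t₁ t₂ t m₁ m₂ hJ hd₁ hd₂⟩
    rw [pow_succ]
    omega

theorem Der.small {T : Type} [Finite T] {B : T → Prop} {U : T → T → Prop} {J : T → T → T → Prop}
    {t : T} {n : ℕ} (h : Der B U J t n) : ∃ m, m < 2 ^ Nat.card T ∧ Der B U J t m := by
  have h1 : ∃ i, i ≤ Nat.card T ∧ rr_h44 B U J (i + 1) ⊆ rr_h44 B U J i := by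
    by_contra hcon
    push Not at hcon
    have h2 : ∀ i, i ≤ Nat.card T + 1 → i ≤ (rr_h44 B U J i).ncard := by
      intro i
      induction i with
      | zero => intro _; exact Nat.zero_le _
      | succ i ih =>
        intro hi
        have h3 := ih (by omega)
        have h4 : rr_h44 B U J i ⊂ rr_h44 B U J (i + 1) :=
          ⟨rr_mono_h44 i, hcon i (by omega)⟩
        have h5 := Set.ncard_lt_ncard h4 (Set.toFinite _)
        omega
    have h6 := h2 _ le_rfl
    have h7 := Set.ncard_le_card (rr_h44 B U J (Nat.card T + 1))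
    omega
  obtain ⟨i, hi, hs⟩ := h1
  obtain ⟨m, hm, hd⟩ := rr_stab_h44 hs h
  exact ⟨m, lt_of_lt_of_le hm (Nat.pow_le_pow_right (by norm_num) hi), hd⟩

end Pool.Agent.Helper29.TW
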