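import Pool.Agent.Helper29.TW.ShortA
import Pool.Agent.Helper29.TD.Comp

/-!
# Block TW-20: structures with short paths have decompositions

Let all paths have at most `w` vertices.  Claim (`n` is the number of elements outside the path, induction on `n`): let
`p 0, ..., p (l - 1)` be a path with the set `P` of vertices, `u ∉ P`, `l = 0` or `Adj (p (l - 1)) u`, `X` the `Finset` of the elements of
`comp I P u`; then `Dec I w (X ∪ P) P`.
Proof.  `P' := insert u P` is the set of a path with `l + 1` vertices, so `l + 1 ≤ w`.  By `comp_insert`, `X` is `{u}` and the union of the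
`comp I P' v`, `v ∉ P'`, `Adj u v`.  For these `v` the induction hypothesis gives `Dec I w (X_v ∪ P') P'`.  Let `F` be the finite set of the
different sets `X_v` (as `Finset`s).  `Dec.family` (`Y := id`) with root `P'`: different components are disjoint; a tuple in the union: if it
has an element in some `X_v` then all its elements are in `X_v` or in `P'` (`comp_sep` or `comp_closed`: elements of a tuple are equal or
adjacent).  So `Dec I w (X ∪ P) P'` (`F.biUnion id ∪ P' = X ∪ P`, since `u ∈ X`).  `Dec.move` to `P`: `P.card = l ≤ w`; `(X ∪ P) ∩ P ⊆ P'`; the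
condition on the tuples is trivial as `X ∪ P ∪ P = X ∪ P`.
Finally: for `l = 0`: `Dec I w X_u ∅` for all `u`; `Dec.family` with `C = ∅` and the set of all components gives `Dec I w univ ∅`.
-/

set_option autoImplicit false

namespace Pool.Agent.Helper29.TW

open Pool.Agent.Helper20.Spectra Pool.Agent.Helper29.TD

variable {S : Type} {ar : S → ℕ} {M : Type} [DecidableEq M] [Fintype M] {I : Interp S ar M}

/-- the elements of a piece -/
private noncomputable def pc67 (I : Interp S ar M) (P : Finset M) (u : M) : Finset M :=
  (comp I (P : Set M) u).toFinite.toFinset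

omit [DecidableEq M] in
private lemma mem_pc67 (P : Finset M) (u y : M) :
    y ∈ pc67 I P u ↔ y ∈ comp I (P : Set M) u := by
  rw [pc67, Set.Finite.mem_toFinset]

private lemma glue67 {w : ℕ} (P : Finset M) (hP : P.card ≤ w) (F0 : Finset M)
    (hF0 : ∀ v ∈ F0, v ∉ P) (hd : ∀ v ∈ F0, Dec I w (pc67 I P v ∪ P) P) :
    Dec I w ((F0.image (pc67 I P)).biUnion id ∪ P) P := by
  have hF1 : ∀ v ∈ F0, v ∉ (P : Set M) := fun v hv h => hF0 v hv (Finset.mem_coe.1 h)
  apply Dec.family id P (F0.image (pc67 I P)) hP
  · intro A hA B hB hAB
    obtain ⟨v1, h1, rfl⟩ := Finset.mem_image.1 hA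
    obtain ⟨v2, h2, rfl⟩ := Finset.mem_image.1 hB
    intro z hz
    exfalso
    apply hAB
    obtain ⟨hz1, hz2⟩ := Finset.mem_inter.1 hz
    rw [id, mem_pc67] at hz1 hz2
    ext y
    rw [mem_pc67, mem_pc67, ← comp_eq (hF1 v1 h1) hz1, comp_eq (hF1 v2 h2) hz2]
  · intro s v hv hall
    by_cases hc : ∀ i, v i ∈ P
    · exact Or.inl hc
    · right
      rw [not_forall] at hc
      obtain ⟨i0, hi0⟩ := hc
      rcases Finset.mem_union.1 (hall i0) with h1 | h1
      · obtain ⟨A, hA, hA2⟩ := Finset.mem_biUnion.1 h1
        refine ⟨A, hA, fun i => ?_⟩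
        obtain ⟨v1, h1', rfl⟩ := Finset.mem_image.1 hA
        rw [id, mem_pc67] at hA2
        rw [Finset.mem_union]
        by_cases h3 : v i ∈ P
        · exact Or.inr h3
        · left
          rw [id, mem_pc67]
          by_cases h4 : v i0 = v i
          · rw [← h4]
            exact hA2
          · exact comp_closed hA2 ⟨h4, s, v, hv, ⟨i0, rfl⟩, ⟨i, rfl⟩⟩
              (fun h => h3 (Finset.mem_coe.1 h))
      · exact absurd h1 hi0
  · intro A hA
    obtain ⟨v1, h1, rfl⟩ := Finset.mem_image.1 hA
    exact hd v1 h1

private lemma claim67 {w : ℕ} (h : PathLe I w) (n : ℕ) : ∀ (l : ℕ) (p : Fin l → M), IsPath I p →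
    Fintype.card M ≤ n + l → ∀ u, u ∉ Finset.univ.image p →
    (∀ i : Fin l, i.1 + 1 = l → Adj I (p i) u) →
    Dec I w (pc67 I (Finset.univ.image p) u ∪ Finset.univ.image p) (Finset.univ.image p) := by
  induction n with
  | zero =>
    intro l p hp hc u hu _
    exfalso
    have hs : Finset.univ.image p = Finset.univ := by
      apply Finset.eq_univ_of_card
      rw [Finset.card_image_of_injective _ hp.1, Finset.card_univ, Fintype.card_fin]
      have := Fintype.card_le_of_injective p hp.1
      rw [Fintype.card_fin] at this
      omega
    rw [hs] at hu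
    exact hu (Finset.mem_univ u)
  | succ n ih =>
    intro l p hp hc u hu hadj
    have hu' : ∀ i, p i ≠ u := fun i h1 => hu (h1 ▸ Finset.mem_image_of_mem p (Finset.mem_univ i))
    have hp' : IsPath I (Fin.snoc (α := fun _ => M) p u) := by
      constructor
      · intro i j
        refine Fin.lastCases ?_ (fun i => ?_) i
        · refine Fin.lastCases ?_ (fun j => ?_) j
          · intro _
            rfl
          · intro hij
            rw [Fin.snoc_last, Fin.snoc_castSucc] at hij
            exact absurd hij.symm (hu' j)
        · refine Fin.lastCases ?_ (fun j => ?_) j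
          · intro hij
            rw [Fin.snoc_last, Fin.snoc_castSucc] at hij
            exact absurd hij (hu' i)
          · intro hij
            rw [Fin.snoc_castSucc, Fin.snoc_castSucc] at hij
            rw [hp.1 hij]
      · intro i j
        refine Fin.lastCases ?_ (fun i => ?_) i
        · refine Fin.lastCases ?_ (fun j => ?_) j
          · intro hij
            rw [Fin.val_last] at hij
            omega
          · intro hij
            rw [Fin.val_last, Fin.val_castSucc] at hij
            have := j.2
            omega
        · refine Fin.lastCases ?_ (fun j => ?_) j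
          · intro hij
            rw [Fin.val_last, Fin.val_castSucc] at hij
            rw [Fin.snoc_last, Fin.snoc_castSucc]
            exact hadj i hij
          · intro hij
            rw [Fin.val_castSucc, Fin.val_castSucc] at hij
            rw [Fin.snoc_castSucc, Fin.snoc_castSucc]
            exact hp.2 i j hij
    have himg : Finset.univ.image (Fin.snoc (α := fun _ => M) p u) =
        insert u (Finset.univ.image p) := by
      ext y
      rw [Finset.mem_insert, Finset.mem_image, Finset.mem_image]
      constructor
      · rintro ⟨i, _, hi⟩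
        revert hi
        refine Fin.lastCases ?_ (fun i => ?_) i
        · intro hi
          rw [Fin.snoc_last] at hi
          exact Or.inl hi.symm
        · intro hi
          rw [Fin.snoc_castSucc] at hi
          exact Or.inr ⟨i, Finset.mem_univ _, hi⟩
      · rintro (hi | ⟨i, _, hi⟩)
        · exact ⟨Fin.last l, Finset.mem_univ _, by rw [Fin.snoc_last]; exact hi.symm⟩
        · exact ⟨Fin.castSucc i, Finset.mem_univ _, by rw [Fin.snoc_castSucc]; exact hi⟩
    have hl : l + 1 ≤ w := h (l + 1) _ hp'
    have hcard' : (insert u (Finset.univ.image p)).card ≤ w := by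
      rw [← himg]
      exact Finset.card_image_le.trans (by rw [Finset.card_univ, Fintype.card_fin]; exact hl)
    have hcard : (Finset.univ.image p).card ≤ w :=
      Finset.card_image_le.trans (by rw [Finset.card_univ, Fintype.card_fin]; omega)
    have hmF : ∀ v, v ∈ ({v : M | Adj I u v ∧ v ∉ ((Finset.univ.image p : Finset M) : Set M)} :
        Set M).toFinite.toFinset ↔
        Adj I u v ∧ v ∉ ((Finset.univ.image p : Finset M) : Set M) := by
      intro v
      rw [Set.Finite.mem_toFinset, Set.mem_ofPred_eq]
    have hnF : ∀ v, Adj I u v ∧ v ∉ ((Finset.univ.image p : Finset M) : Set M) →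
        v ∉ insert u (Finset.univ.image p) := by
      intro v hv hv2
      rcases Finset.mem_insert.1 hv2 with h1 | h1
      · exact hv.1.1 h1.symm
      · exact hv.2 (Finset.mem_coe.2 h1)
    have hglue := glue67 (I := I) (w := w) (insert u (Finset.univ.image p)) hcard'
      ({v : M | Adj I u v ∧ v ∉ ((Finset.univ.image p : Finset M) : Set M)} :
        Set M).toFinite.toFinset (fun v hv => hnF v ((hmF v).1 hv)) (fun v hv => by
      have hv2 := (hmF v).1 hv
      have := ih (l + 1) _ hp' (by omega) v (by rw [himg]; exact hnF v hv2) (fun i => by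
        refine Fin.lastCases ?_ (fun i => ?_) i
        · intro _
          rw [Fin.snoc_last]
          exact hv2.1
        · intro hi
          rw [Fin.val_castSucc] at hi
          have := i.2
          omega)
      rwa [himg] at this)
    have hmove := Dec.move _ _ (Finset.univ.image p) hcard (by
      intro y hy
      exact Finset.mem_insert_of_mem (Finset.mem_inter.1 hy).2) (by
      intro s v _ hall
      left
      intro i
      rcases Finset.mem_union.1 (hall i) with h1 | h1
      · exact h1
      · exact Finset.mem_union_right _ (Finset.mem_insert_of_mem h1)) hglue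
    have huP : u ∉ ((Finset.univ.image p : Finset M) : Set M) := fun h1 => hu (Finset.mem_coe.1 h1)
    have e : (({v : M | Adj I u v ∧ v ∉ ((Finset.univ.image p : Finset M) : Set M)} :
        Set M).toFinite.toFinset.image (pc67 I (insert u (Finset.univ.image p)))).biUnion id ∪
        insert u (Finset.univ.image p) ∪ Finset.univ.image p =
        pc67 I (Finset.univ.image p) u ∪ Finset.univ.image p := by
      ext y
      rw [Finset.mem_union, Finset.mem_union, Finset.mem_union, Finset.mem_biUnion, mem_pc67,
        comp_insert huP, Set.mem_insert_iff, Finset.mem_insert]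
      constructor
      · rintro ((⟨A, hA, hy⟩ | hy | hy) | hy)
        · obtain ⟨v, hv, rfl⟩ := Finset.mem_image.1 hA
          rw [id, mem_pc67, Finset.coe_insert] at hy
          left
          right
          exact Set.mem_biUnion (show v ∈ {v : M | Adj I u v ∧ v ∉ ((Finset.univ.image p : Finset M) :
            Set M)} from (hmF v).1 hv) hy
        · exact Or.inl (Or.inl hy)
        · exact Or.inr hy
        · exact Or.inr hy
      · rintro ((hy | hy) | hy)
        · exact Or.inl (Or.inr (Or.inl hy))
        · rw [Set.mem_iUnion₂] at hy
          obtain ⟨v, hv, hy⟩ := hy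
          refine Or.inl (Or.inl ⟨_, Finset.mem_image_of_mem _ ((hmF v).2 hv), ?_⟩)
          rw [id, mem_pc67, Finset.coe_insert]
          exact hy
        · exact Or.inr hy
    rw [e] at hmove
    exact hmove

theorem dec_of_pathLe {w : ℕ} (h : PathLe I w) : ∃ C : Finset M, Dec I w Finset.univ C := by
  refine ⟨∅, ?_⟩
  have h0 : ∀ u : M, Dec I w (pc67 I ∅ u ∪ ∅) ∅ := by
    intro u
    have h1 := claim67 (I := I) h (Fintype.card M) 0 (fun i => i.elim0)
      ⟨fun i => i.elim0, fun i => i.elim0⟩ (by omega) u
      (by rw [Finset.mem_image]; rintro ⟨i, _⟩; exact i.elim0) (fun i => i.elim0)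
    have h2 : Finset.univ.image (fun i : Fin 0 => (i.elim0 : M)) = ∅ := by
      apply Finset.eq_empty_of_forall_notMem
      intro y hy
      obtain ⟨i, _⟩ := Finset.mem_image.1 hy
      exact i.elim0
    rw [h2] at h1
    exact h1
  have h1 := glue67 (I := I) (w := w) ∅ (by rw [Finset.card_empty]; omega) Finset.univ
    (fun v _ => Finset.notMem_empty v) (fun v _ => h0 v)
  have h2 : ((Finset.univ : Finset M).image (pc67 I ∅)).biUnion id ∪ ∅ = Finset.univ := by
    apply Finset.eq_univ_of_forall
    intro y
    rw [Finset.union_empty, Finset.mem_biUnion]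
    exact ⟨_, Finset.mem_image_of_mem _ (Finset.mem_univ y), by rw [id, mem_pc67]; exact comp_self⟩
  rw [h2] at h1
  exact h1

end Pool.Agent.Helper29.TW
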