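import Pool.Agent.Helper29.TW.Tame
import Pool.Agent.Helper29.TW.ShortB
import Pool.Agent.Helper29.TD.Main

/-!
# The threshold for the tree-width
-/

set_option autoImplicit false

namespace Pool.Agent.Helper29.TW

open FirstOrder FirstOrder.Language Pool.Agent.Helper20.Spectra Pool.Agent.Helper20.OP
  Pool.Agent.Helper29.TD Filter

/-- short spectra are narrow -/
theorem narrow_of_short {w : ℕ → ℕ} {A : Set ℕ} (h : ShortSpectrum w A) : NarrowSpectrum w A := by
  classical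
  obtain ⟨S, hS, ar, φ, h1, h2⟩ := h
  refine ⟨S, hS, ar, φ, fun n I hn hI => ?_, h2⟩
  obtain ⟨C, hC⟩ := dec_of_pathLe (h1 n I hn hI)
  exact TreeDec.mono (by omega) hC.treeDec

/-- a narrow spectrum is a spectrum -/
lemma NarrowSpectrum.isSpectrum {w : ℕ → ℕ} {A : Set ℕ} (h : NarrowSpectrum w A) :
    IsSpectrum A := by
  obtain ⟨S, hS, ar, φ, -, h2⟩ := h
  have h3 : ShortSpectrum (fun n => n) A := by
    refine ⟨S, hS, ar, φ, fun n I _ _ l p hp => ?_, h2⟩
    simpa using Fintype.card_le_of_injective p hp.1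
  exact h3.isSpectrum

theorem threshold (w : ℕ → ℕ) :
    ((∃ d, ∀ᶠ n in atTop, n ≤ E d (w n)) →
      ((∀ A : Set ℕ, NarrowSpectrum w A → IsRudimentary A) ↔
        ∀ A : Set ℕ, IsSpectrum A ↔ (IsRudimentary A ∧ 0 ∉ A))) ∧
    ((∀ d, ∀ᶠ n in atTop, E d (w n) ≤ n) →
      ∀ A : Set ℕ, NarrowSpectrum w A → UltPeriodic A ∧ ∃ L, NarrowSpectrum (fun _ => L) A) := by
  refine ⟨fun h => ⟨fun hr => ?_, fun hr A hA => ?_⟩, fun h A hA => tame w h A hA⟩
  · exact (TD.wild w h).1 (fun A hA => hr A (narrow_of_short hA))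
  · exact ((hr A).1 hA.isSpectrum).1

end Pool.Agent.Helper29.TW
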