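import Pool.Agent.Helper29.TW.LowA

/-!
# Block TW-4: a structure of small tree-width has no highly connected set

Let `W` be linked, `D` a tree decomposition with bags of at most `k` elements.  (`M` is finite, use `Set.ncard` with `Set.toFinite`.)
The root satisfies `2 * k ≤ (below D root ∩ W).ncard = 5 * k`.  Choose a node `t` with `2 * k ≤ (below D t ∩ W).ncard` and maximal
`D.dep t` (`D.fin`).  For every child `c` of `t` (`c ≠ root`, `par c = t`): `(below D c ∩ W).ncard < 2 * k` (as `dep c > dep t`).  For a set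
`Q` of children of `t` put `A Q := {x | x ∈ bag t ∨ ∃ c ∈ Q, x ∈ below D c}`.  For the set of all children `A Q = below D t` (`below_mem`).
Let `Q` be a `Finset` of children with `2 * k ≤ (A Q ∩ W).ncard` of minimal cardinality.  `Q ≠ ∅` as `(bag t).card ≤ k < 2 * k`.  Let
`c ∈ Q`; `(A (Q.erase c) ∩ W).ncard < 2 * k` and `A Q ⊆ A (Q.erase c) ∪ below D c`, so `(A Q ∩ W).ncard ≤ 4 * k - 2`.
Put `A := A Q`, `B := {x | x ∈ bag t ∨ ∀ c ∈ Q, x ∉ below D c}`.  `A ∩ B = bag t`.  `Spn I A B`: a tuple is contained in some bag `t''`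
(`D.tup`); if `t''` is below some `c ∈ Q` the tuple is in `below D c ⊆ A`; otherwise it is in `B`: if `v i ∈ below D c`, `c ∈ Q`, then
`v i ∈ bag (par c) = bag t` by `below_out`.  Finally `(B ∩ W).ncard + (A ∩ W).ncard = W.ncard + (A ∩ B ∩ W).ncard ≤ 5 * k + k`, so
`(B ∩ W).ncard ≤ 4 * k`.  Contradiction to `Linked`.
-/

set_option autoImplicit false

namespace Pool.Agent.Helper29.TW

open Pool.Agent.Helper20.Spectra Pool.Agent.Helper29.TD

variable {S : Type} {ar : S → ℕ} {M : Type} {I : Interp S ar M} {k : ℕ}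

theorem low [Finite M] (hk : 1 ≤ k) (D : TreeDec I k) (W : Set M) : ¬ Linked I k W := by
  rintro ⟨hW, hL⟩
  classical
  haveI := D.fin
  have hroot : 2 * k ≤ (below D D.root ∩ W).ncard := by
    have : below D D.root ∩ W = W := Set.inter_eq_right.2 (fun x _ => below_root D x)
    rw [this, hW]; omega
  obtain ⟨t, ht, hmax⟩ := Set.exists_max_image {t : D.T | 2 * k ≤ (below D t ∩ W).ncard} D.dep
    (Set.toFinite _) ⟨D.root, hroot⟩
  have hchild : ∀ c, c ≠ D.root → D.par c = t → (below D c ∩ W).ncard < 2 * k := by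
    intro c hc hpc
    by_contra h
    push Not at h
    have h1 := hmax c h
    have h2 := D.dep_par c hc
    rw [hpc] at h2
    omega
  let A : Finset D.T → Set M := fun Q => {x | x ∈ D.bag t ∨ ∃ c ∈ Q, x ∈ below D c}
  haveI : Fintype D.T := Fintype.ofFinite _
  let Q0 : Finset D.T := Finset.univ.filter (fun c => c ≠ D.root ∧ D.par c = t)
  have hA0 : A Q0 = below D t := by
    ext x
    simp only [A, Q0, Set.mem_setOf_eq, Finset.mem_filter, Finset.mem_univ, true_and]
    rw [below_mem]
    simp only [and_assoc]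
  obtain ⟨Q, ⟨hQsub, hQ⟩, hmin⟩ := Set.exists_min_image
    {Q : Finset D.T | Q ⊆ Q0 ∧ 2 * k ≤ (A Q ∩ W).ncard} Finset.card (Set.toFinite _)
    ⟨Q0, Finset.Subset.refl _, by rw [hA0]; exact ht⟩
  have hQne : Q.Nonempty := by
    rw [Finset.nonempty_iff_ne_empty]
    rintro rfl
    have : A ∅ ∩ W ⊆ (D.bag t : Set M) := by
      rintro x ⟨h | ⟨c, hc, _⟩, _⟩
      · exact h
      · simp at hc
    have h1 := Set.ncard_le_ncard this (Set.toFinite _)
    rw [Set.ncard_coe_finset] at h1
    have h2 := D.card_bag t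
    omega
  obtain ⟨c, hc⟩ := hQne
  have hQe : (A (Q.erase c) ∩ W).ncard < 2 * k := by
    by_contra h
    push Not at h
    have h1 := hmin (Q.erase c) ⟨(Finset.erase_subset _ _).trans hQsub, h⟩
    have h2 := Finset.card_erase_lt_of_mem hc
    omega
  have hQ' := hchild c ((Finset.mem_filter.1 (hQsub hc)).2.1) ((Finset.mem_filter.1 (hQsub hc)).2.2)
  have hAle : (A Q ∩ W).ncard ≤ 4 * k - 2 := by
    have hsub : A Q ∩ W ⊆ (A (Q.erase c) ∩ W) ∪ (below D c ∩ W) := by
      rintro x ⟨hx | ⟨c', hc', hx⟩, hw⟩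
      · exact Or.inl ⟨Or.inl hx, hw⟩
      · by_cases h : c' = c
        · exact Or.inr ⟨h ▸ hx, hw⟩
        · exact Or.inl ⟨Or.inr ⟨c', Finset.mem_erase.2 ⟨h, hc'⟩, hx⟩, hw⟩
    have h1 := Set.ncard_le_ncard hsub (Set.toFinite _)
    have h2 := Set.ncard_union_le (A (Q.erase c) ∩ W) (below D c ∩ W)
    omega
  let B : Set M := {x | x ∈ D.bag t ∨ ∀ c ∈ Q, x ∉ below D c}
  have hAB : A Q ∩ B = (D.bag t : Set M) := by
    ext x
    constructor
    · rintro ⟨h | ⟨c', hc', hx⟩, h' | h'⟩
      · exact h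
      · exact h
      · exact h'
      · exact absurd hx (h' c' hc')
    · intro h
      exact ⟨Or.inl h, Or.inl h⟩
  have hspn : Spn I (A Q) B := by
    constructor
    · intro x
      by_cases h : ∃ c ∈ Q, x ∈ below D c
      · exact Or.inl (Or.inr h)
      · push Not at h
        exact Or.inr (Or.inr h)
    · intro s v hv
      obtain ⟨t', ht'⟩ := D.tup s v hv
      by_cases h : ∃ c ∈ Q, Below D c t'
      · obtain ⟨c', hc', hb⟩ := h
        left
        intro i
        exact Or.inr ⟨c', hc', t', hb, ht' i⟩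
      · push Not at h
        right
        intro i
        by_cases h2 : ∃ c ∈ Q, v i ∈ below D c
        · obtain ⟨c', hc', hx⟩ := h2
          left
          have h3 := below_out D hx (h c' hc') (ht' i)
          have h4 := (Finset.mem_filter.1 (hQsub hc')).2.2
          rwa [h4] at h3
        · push Not at h2
          exact Or.inr h2
  have hcardAB : (A Q ∩ B).ncard ≤ k := by
    rw [hAB, Set.ncard_coe_finset]; exact D.card_bag t
  have hsum : (A Q ∩ W).ncard + (B ∩ W).ncard = W.ncard + (A Q ∩ B ∩ W).ncard := by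
    have h1 := Set.ncard_union_add_ncard_inter (A Q ∩ W) (B ∩ W) (Set.toFinite _) (Set.toFinite _)
    have e1 : (A Q ∩ W) ∪ (B ∩ W) = W := by
      ext x
      constructor
      · rintro (h | h)
        · exact h.2
        · exact h.2
      · intro h
        rcases hspn.1 x with h' | h'
        · exact Or.inl ⟨h', h⟩
        · exact Or.inr ⟨h', h⟩
    have e2 : (A Q ∩ W) ∩ (B ∩ W) = A Q ∩ B ∩ W := by
      ext x; simp only [Set.mem_inter_iff]; tauto
    rw [e1, e2] at h1
    omega
  have hABW : (A Q ∩ B ∩ W).ncard ≤ k :=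
    (Set.ncard_le_ncard Set.inter_subset_left (Set.toFinite _)).trans hcardAB
  rcases hL (A Q) B hspn hcardAB with h | h
  · omega
  · omega

end Pool.Agent.Helper29.TW
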