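import Pool.Agent.Helper29.TW.Rep

/-!
# Block TW-7: gluing

`V := V₁ ⊕ V₂`, `J := jn J₁ J₂`, `code x := if x ∈ X then Sum.map id Sum.inl (code₁ x) else Sum.map id Sum.inr (code₂ x)`;
`(C₁ ∪ C₂).image ℓ = C₁.image ℓ ∪ C₂.image ℓ`.  For `x ∈ X ∩ Y` (so `x ∈ C₁ ∩ C₂`) both expressions are `inl (ℓ x)`; so
`code x = Sum.map id Sum.inr (code₂ x)` for all `x ∈ Y`.  If `x ∈ X`, `x ∉ C₁ ∪ C₂` then `code x = inr (inl y)`, if `x ∈ Y`, `x ∉ C₁ ∪ C₂` then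
`code x = inr (inr y)`.  For `y : V₁` take `x ∈ X`, `x ∉ C₁` with `code₁ x = inr y`; `x ∉ C₂`, otherwise `x ∈ C₂ ⊆ Y`, so `x ∈ X ∩ Y ⊆ C₁`.
Injectivity: for `x ∈ X`, `x' ∈ Y` with `code x = code x'`: both are `inl`, so `x ∈ C₁`, `x' ∈ C₂` and `ℓ x = ℓ x'`, so `x = x'`.
Relations: `J s u` says that `u` is the code of a tuple in `X` or of a tuple in `Y`; a tuple of `I` in `X ∪ Y` is in `X` or in `Y`.
-/

set_option autoImplicit false

namespace Pool.Agent.Helper29.TW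

open Pool.Agent.Helper20.Spectra Pool.Agent.Helper29.TD

variable {S : Type} {ar : S → ℕ} {M : Type} [DecidableEq M] {K : ℕ}
  {I : Interp S ar M} {X Y C₁ C₂ : Finset M} {ℓ : M → Fin K}

theorem Rep.join (h1 : C₁ ⊆ X) (h2 : C₂ ⊆ Y) (h12 : X ∩ Y ⊆ C₁ ∩ C₂)
    (hℓ : Set.InjOn ℓ (C₁ ∪ C₂ : Finset M))
    (ht : ∀ (s : S) (v : Fin (ar s) → M), I s v → (∀ i, v i ∈ X ∪ Y) →
      (∀ i, v i ∈ X) ∨ ∀ i, v i ∈ Y) (hX : Rep I X C₁ ℓ) (hY : Rep I Y C₂ ℓ) :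
    Rep I (X ∪ Y) (C₁ ∪ C₂) ℓ := by
  obtain ⟨V₁, J₁, c₁, g₁, a₁, b₁, s₁, i₁, r₁⟩ := hX
  obtain ⟨V₂, J₂, c₂, g₂, a₂, b₂, s₂, i₂, r₂⟩ := hY
  set code : M → Fin K ⊕ (V₁ ⊕ V₂) := fun x =>
    if x ∈ X then Sum.map id Sum.inl (c₁ x) else Sum.map id Sum.inr (c₂ x) with hcode
  have hcX : ∀ x ∈ X, code x = Sum.map id Sum.inl (c₁ x) := fun x hx => by simp [hcode, hx]
  have hcY : ∀ x ∈ Y, code x = Sum.map id Sum.inr (c₂ x) := by
    intro x hx
    by_cases hxX : x ∈ X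
    · have h3 := h12 (Finset.mem_inter.2 ⟨hxX, hx⟩)
      rw [Finset.mem_inter] at h3
      rw [hcX x hxX, a₁ x h3.1, a₂ x h3.2]; rfl
    · simp [hcode, hxX]
  have hXY : ∀ x ∈ X, ∀ x' ∈ Y, code x = code x' → x = x' := by
    intro x hx x' hx' he
    rw [hcX x hx, hcY x' hx'] at he
    by_cases hxC : x ∈ C₁
    · rw [a₁ x hxC] at he
      by_cases hxC' : x' ∈ C₂
      · rw [a₂ x' hxC'] at he
        have he' : ℓ x = ℓ x' := Sum.inl.inj he
        exact hℓ (Finset.mem_coe.2 (Finset.mem_union_left _ hxC))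
          (Finset.mem_coe.2 (Finset.mem_union_right _ hxC')) he'
      · obtain ⟨y, hy⟩ := b₂ x' hx' hxC'
        rw [hy] at he
        exact absurd he (by simp)
    · obtain ⟨y, hy⟩ := b₁ x hx hxC
      rw [hy] at he
      by_cases hxC' : x' ∈ C₂
      · rw [a₂ x' hxC'] at he
        exact absurd he (by simp)
      · obtain ⟨y', hy'⟩ := b₂ x' hx' hxC'
        rw [hy'] at he
        exact absurd he (by simp)
  have hj1 : Function.Injective (Sum.map id Sum.inl : Fin K ⊕ V₁ → Fin K ⊕ (V₁ ⊕ V₂)) :=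
    Function.injective_id.sumMap Sum.inl_injective
  have hj2 : Function.Injective (Sum.map id Sum.inr : Fin K ⊕ V₂ → Fin K ⊕ (V₁ ⊕ V₂)) :=
    Function.injective_id.sumMap Sum.inr_injective
  refine ⟨V₁ ⊕ V₂, jn J₁ J₂, code, ?_, ?_, ?_, ?_, ?_, ?_⟩
  · rw [Finset.image_union]; exact Gen.join _ _ _ _ _ _ g₁ g₂
  · intro x hx
    rcases Finset.mem_union.1 hx with hx | hx
    · rw [hcX x (h1 hx), a₁ x hx]; rfl
    · rw [hcY x (h2 hx), a₂ x hx]; rfl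
  · intro x hx hxC
    rw [Finset.mem_union, not_or] at hxC
    rcases Finset.mem_union.1 hx with hx | hx
    · obtain ⟨y, hy⟩ := b₁ x hx hxC.1
      exact ⟨Sum.inl y, by rw [hcX x hx, hy]; rfl⟩
    · obtain ⟨y, hy⟩ := b₂ x hx hxC.2
      exact ⟨Sum.inr y, by rw [hcY x hx, hy]; rfl⟩
  · rintro (y | y)
    · obtain ⟨x, hx, hxC, hxy⟩ := s₁ y
      refine ⟨x, Finset.mem_union_left _ hx, ?_, by rw [hcX x hx, hxy]; rfl⟩
      rw [Finset.mem_union, not_or]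
      exact ⟨hxC, fun h => hxC (Finset.mem_inter.1 (h12 (Finset.mem_inter.2 ⟨hx, h2 h⟩))).1⟩
    · obtain ⟨x, hx, hxC, hxy⟩ := s₂ y
      refine ⟨x, Finset.mem_union_right _ hx, ?_, by rw [hcY x hx, hxy]; rfl⟩
      rw [Finset.mem_union, not_or]
      exact ⟨fun h => hxC (Finset.mem_inter.1 (h12 (Finset.mem_inter.2 ⟨h1 h, hx⟩))).2, hxC⟩
  · intro x hx x' hx' he
    rw [Finset.mem_coe, Finset.mem_union] at hx hx'
    rcases hx with hx | hx <;> rcases hx' with hx' | hx'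
    · rw [hcX x hx, hcX x' hx'] at he
      exact i₁ (Finset.mem_coe.2 hx) (Finset.mem_coe.2 hx') (hj1 he)
    · exact hXY x hx x' hx' he
    · exact (hXY x' hx' x hx he.symm).symm
    · rw [hcY x hx, hcY x' hx'] at he
      exact i₂ (Finset.mem_coe.2 hx) (Finset.mem_coe.2 hx') (hj2 he)
  · intro s u
    constructor
    · rintro (⟨u', hu', rfl⟩ | ⟨u', hu', rfl⟩)
      · obtain ⟨v, hv, hvX, rfl⟩ := (r₁ s u').1 hu'
        exact ⟨v, hv, fun i => Finset.mem_union_left _ (hvX i),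
          funext fun i => (hcX (v i) (hvX i)).symm⟩
      · obtain ⟨v, hv, hvY, rfl⟩ := (r₂ s u').1 hu'
        exact ⟨v, hv, fun i => Finset.mem_union_right _ (hvY i),
          funext fun i => (hcY (v i) (hvY i)).symm⟩
    · rintro ⟨v, hv, hvXY, rfl⟩
      rcases ht s v hv hvXY with h | h
      · exact Or.inl ⟨fun i => c₁ (v i), (r₁ s _).2 ⟨v, hv, h, rfl⟩,
          funext fun i => hcX (v i) (h i)⟩
      · exact Or.inr ⟨fun i => c₂ (v i), (r₂ s _).2 ⟨v, hv, h, rfl⟩,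
          funext fun i => hcY (v i) (h i)⟩

end Pool.Agent.Helper29.TW
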