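import Pool.Agent.Helper29.TW.RepForget
import Pool.Agent.Helper29.TW.RepJoin

/-!
# Block TW-8: every decomposition is represented by a generated structure

`Dec.sub`: induction.  `Dec.rep`: induction on `Dec`, for all `ℓ`.  `leaf`: `Rep.leaf`.  `join`: `Rep.join` with `C₁ = C₂ = C` (`C ∪ C = C`).
`move`: `D := C ∩ C'`; by `exists_lab` (the cardinality of `C` is at most `K`, `Dec.card_le`) there is `ℓ₁` injective on `C` with `ℓ₁ = ℓ` on
`D`; `Rep I X C ℓ₁` by induction; `Rep.forget_set` with `C \ C'` gives `Rep I X D ℓ₁` (`C \ (C \ C') = C ∩ C'`), so `Rep I X D ℓ` (`Rep.congr`);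
`Rep.join` with `Y = C₂ = C'` (`Rep.leaf`) and `C₁ = D`: `X ∩ C' ⊆ C` gives `X ∩ C' ⊆ D ∩ C'`; `D ∪ C' = C'`.
`gen_of_dec`: `ℓ` injective on `C` (`exists_lab` with `D = ∅`, any `ℓ`, `K ≥ 1`), `Dec.rep`, `Rep.forget_set` with `D = C`: `Rep I univ ∅ ℓ`.  Then
`code x = inr (e x)` with a bijection `e`.
-/

set_option autoImplicit false

namespace Pool.Agent.Helper29.TW

open Pool.Agent.Helper20.Spectra Pool.Agent.Helper29.TD

variable {S : Type} {ar : S → ℕ} {M : Type} [DecidableEq M] {K : ℕ}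
  {I : Interp S ar M} {X C : Finset M}

theorem Dec.sub (h : Dec I K X C) : C ⊆ X := by
  induction h with
  | leaf C _ => exact Finset.Subset.refl C
  | join X Y C _ _ _ _ ih1 _ => exact ih1.trans Finset.subset_union_left
  | move X C C' _ _ _ _ _ => exact Finset.subset_union_right

theorem Dec.card_le (h : Dec I K X C) : C.card ≤ K := by
  induction h with
  | leaf C hC => exact hC
  | join X Y C _ _ _ _ ih1 _ => exact ih1
  | move X C C' hC _ _ _ _ => exact hC

theorem Dec.rep (h : Dec I K X C) : ∀ ℓ : M → Fin K, Set.InjOn ℓ C → Rep I X C ℓ := by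
  induction h with
  | leaf C _ =>
    intro ℓ hℓ
    exact Rep.leaf hℓ
  | join X Y C hXY ht hX hY ihX ihY =>
    intro ℓ hℓ
    have h1 := Rep.join (C₁ := C) (C₂ := C) hX.sub hY.sub
      (by rw [Finset.inter_self]; exact hXY) (by rw [Finset.union_self]; exact hℓ) ht
      (ihX ℓ hℓ) (ihY ℓ hℓ)
    rwa [Finset.union_self] at h1
  | move X C C' hC' hXC ht hX ihX =>
    intro ℓ hℓ
    have hℓD : Set.InjOn ℓ (C ∩ C' : Finset M) := by
      refine hℓ.mono ?_
      rw [Finset.coe_subset]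
      exact Finset.inter_subset_right
    obtain ⟨ℓ₁, h1, h2⟩ := exists_lab (D := C ∩ C') Finset.inter_subset_left hX.card_le ℓ hℓD
    have h3 := Rep.forget_set hX.sub h1 (ihX ℓ₁ h1) (C \ C')
    rw [Finset.sdiff_sdiff_self_left] at h3
    have h4 : Rep I X (C ∩ C') ℓ := h3.congr h2
    have hU : (C ∩ C') ∪ C' = C' := Finset.union_eq_right.2 Finset.inter_subset_right
    have h5 := Rep.join (X := X) (Y := C') (C₁ := C ∩ C') (C₂ := C')
      (Finset.inter_subset_left.trans hX.sub) (Finset.Subset.refl _)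
      (by
        intro x hx
        have h6 := hXC hx
        rw [Finset.mem_inter] at hx
        rw [Finset.mem_inter, Finset.mem_inter]
        exact ⟨⟨h6, hx.2⟩, hx.2⟩)
      (by rw [hU]; exact hℓ) ht h4 (Rep.leaf hℓ)
    rwa [hU] at h5

theorem gen_of_dec [Fintype M] (hK : 1 ≤ K) (h : Dec I K Finset.univ C) :
    ∃ (V : Type) (J : Interp S ar (Fin K ⊕ V)) (e : M ≃ V), Gen S ar K ∅ V J ∧
      ∀ (s : S) (u : Fin (ar s) → Fin K ⊕ V), J s u ↔
        ∃ v : Fin (ar s) → M, I s v ∧ u = fun i => Sum.inr (e (v i)) := by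
  obtain ⟨ℓ, hℓ, _⟩ := exists_lab (D := (∅ : Finset M)) (Finset.empty_subset C) h.card_le
    (fun _ => (⟨0, by omega⟩ : Fin K)) (by rw [Finset.coe_empty]; exact Set.injOn_empty _)
  have h1 := Rep.forget_set h.sub hℓ (h.rep ℓ hℓ) C
  rw [Finset.sdiff_self] at h1
  obtain ⟨V, J, code, hg, _, hc, hs, hi, hr⟩ := h1
  rw [Finset.image_empty] at hg
  choose f hf using fun x => hc x (Finset.mem_univ x) (Finset.notMem_empty x)
  have hb : Function.Bijective f := by
    constructor
    · intro x y hxy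
      refine hi (Finset.mem_coe.2 (Finset.mem_univ x)) (Finset.mem_coe.2 (Finset.mem_univ y)) ?_
      rw [hf x, hf y, hxy]
    · intro y
      obtain ⟨x, _, _, hx⟩ := hs y
      rw [hf x] at hx
      exact ⟨x, Sum.inr.inj hx⟩
  refine ⟨V, J, Equiv.ofBijective f hb, hg, fun s u => ?_⟩
  rw [hr s u]
  constructor
  · rintro ⟨v, hv, _, hu⟩
    refine ⟨v, hv, ?_⟩
    rw [hu]
    funext i
    exact hf (v i)
  · rintro ⟨v, hv, hu⟩
    refine ⟨v, hv, fun i => Finset.mem_univ _, ?_⟩
    rw [hu]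
    funext i
    exact (hf (v i)).symm

end Pool.Agent.Helper29.TW
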