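import Pool.Agent.Helper29.TW.Base
import Pool.Agent.Helper29.TD.BFSat
import Pool.Agent.Helper29.TD.Types

/-!
# Block TW-21: types determine the truth of sentences on the inner elements

`BF.sat φ` gives `q`.  `ty q J = ty q J'` is by `tp_eq_iff` the game with the pairs `prs inl inl`; `BF.anti` with `∅`.  So
`Sat (restr J (range inr)) φ ↔ Sat (restr J' (range inr)) φ`; `Sat.iso` with `V ≃ range (Sum.inr : V → Fin K ⊕ V)` (`Equiv.ofInjective`) gives
`Sat (inn J) φ ↔ Sat (restr J (range inr)) φ`.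
`sat_of_img`: `inn J s u ↔ I s (e.symm ∘ u)`, so `inn J` is the interpretation in `Sat.iso I e φ`.
-/

set_option autoImplicit false

namespace Pool.Agent.Helper29.TW

open FirstOrder FirstOrder.Language Pool.Agent.Helper20.Spectra Pool.Agent.Helper29.TD

variable {S : Type} {ar : S → ℕ}

private theorem inn_iso {K : ℕ} {V : Type} (J : Interp S ar (Fin K ⊕ V)) (φ : (RelLang S ar).Sentence) :
    Sat (inn J) φ ↔ Sat (restr J (Set.range Sum.inr)) φ := by
  rw [Sat.iso (inn J) (Equiv.ofInjective (Sum.inr : V → Fin K ⊕ V) Sum.inr_injective) φ]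
  have h : (fun s v => inn J s (fun i =>
      (Equiv.ofInjective (Sum.inr : V → Fin K ⊕ V) Sum.inr_injective).symm (v i)) :
      Interp S ar (Set.range (Sum.inr : V → Fin K ⊕ V))) = restr J (Set.range Sum.inr) := by
    funext s v
    change J s (fun i => Sum.inr ((Equiv.ofInjective (Sum.inr : V → Fin K ⊕ V)
      Sum.inr_injective).symm (v i))) = J s (fun i => (v i : Fin K ⊕ V))
    congr 1
    funext i
    exact Equiv.apply_ofInjective_symm Sum.inr_injective (v i)
  rw [h]

theorem sat_ty (φ : (RelLang S ar).Sentence) : ∃ q : ℕ, ∀ (K : ℕ) (V V' : Type)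
    (J : Interp S ar (Fin K ⊕ V)) (J' : Interp S ar (Fin K ⊕ V')), ty q J = ty q J' →
      (Sat (inn J) φ ↔ Sat (inn J') φ) := by
  obtain ⟨q, hq⟩ := BF.sat (S := S) (ar := ar) φ
  refine ⟨q, fun K V V' J J' h => ?_⟩
  rw [inn_iso, inn_iso]
  refine hq _ _ J J' _ _ (BF.anti (Set.empty_subset _) ((tp_eq_iff q _ _).1 h))

theorem sat_inn (φ : (RelLang S ar).Sentence) {K : ℕ} {M V : Type} {I : Interp S ar M}
    {J : Interp S ar (Fin K ⊕ V)} (e : M ≃ V)
    (h : ∀ (s : S) (u : Fin (ar s) → Fin K ⊕ V), J s u ↔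
      ∃ v : Fin (ar s) → M, I s v ∧ u = fun i => Sum.inr (e (v i))) :
    Sat I φ ↔ Sat (inn J) φ := by
  rw [Sat.iso I e φ]
  have h1 : (fun s v => I s (fun i => e.symm (v i)) : Interp S ar V) = inn J := by
    funext s v
    apply propext
    change I s (fun i => e.symm (v i)) ↔ J s (fun i => Sum.inr (v i))
    rw [h]
    constructor
    · intro h2
      exact ⟨_, h2, by funext i; rw [e.apply_symm_apply]⟩
    · rintro ⟨w, hw, h3⟩
      have h4 : (fun i => e.symm (v i)) = w := by
        funext i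
        have h5 := congrFun h3 i
        have h6 : v i = e (w i) := Sum.inr_injective h5
        rw [h6, e.symm_apply_apply]
      rw [h4]
      exact hw
  rw [h1]

end Pool.Agent.Helper29.TW
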