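import Pool.Agent.Helper29.TW.Base

/-!
# Block TW-1: a tree decomposition from a step by step decomposition

`RelDec I K X C`: the substructure on `X` has a tree decomposition with root bag `C`.  Note: if `x` is in the root bag then
`top x = root` (by the last but one condition with `t = root`).
* `RelDec.leaf`: `T := Unit`.
* `RelDec.join`: `T := T₁ ⊕ T₂`, `root := inl root₁`, `par (inl t) := inl (par₁ t)`, `par (inr t) := if t = root₂ then inl root₁ else
  inr (par₂ t)`, `dep (inl t) := dep₁ t`, `dep (inr t) := dep₂ t + dep₁ root₁ + 1`, `top x := if x ∈ X then inl (top₁ x) else inr (top₂ x)`.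
  For `x ∈ X` and `inr t` with `x ∈ bag₂ t ⊆ Y`: `x ∈ C`, so `top₂ x = root₂`; if `t = root₂` the parent is `inl root₁`, whose bag is `C`;
  otherwise `x ∈ bag₂ (par₂ t)`.  For `x ∈ Y`, `x ∉ X`: `x` is in no bag of `T₁` (`bag₁ t ⊆ X`).
* `RelDec.move`: `T := Option T₁`, `root := none`, `bag none := C'`, `par (some t) := if t = root₁ then none else some (par₁ t)`,
  `dep none := 0`, `dep (some t) := dep₁ t + 1`, `top x := if x ∈ C' then none else some (top₁ x)`.  For `x ∈ C'` and `some t` with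
  `x ∈ bag₁ t ⊆ X`: `x ∈ C`, so `top₁ x = root₁`; if `t = root₁` the parent is `none`; otherwise `x ∈ bag₁ (par₁ t)`.
* `Dec.treeDec`: induction on `Dec` gives `RelDec I K X C` for all `X`, `C`.
-/

set_option autoImplicit false

namespace Pool.Agent.Helper29.TW

open Pool.Agent.Helper20.Spectra Pool.Agent.Helper29.TD

variable {S : Type} {ar : S → ℕ} {M : Type} [DecidableEq M] {I : Interp S ar M} {K : ℕ}

/-- the substructure on `X` has a tree decomposition with root bag `C` -/
def RelDec (I : Interp S ar M) (K : ℕ) (X C : Finset M) : Prop :=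
  ∃ (T : Type) (_ : Finite T) (root : T) (par : T → T) (dep : T → ℕ) (bag : T → Finset M)
    (top : M → T), (∀ t, t ≠ root → dep (par t) < dep t) ∧ bag root = C ∧
    (∀ t, (bag t).card ≤ K ∧ bag t ⊆ X) ∧
    (∀ x ∈ X, x ∈ bag (top x) ∧ ∀ t, x ∈ bag t → t ≠ top x → t ≠ root ∧ x ∈ bag (par t)) ∧
    ∀ (s : S) (v : Fin (ar s) → M), I s v → (∀ i, v i ∈ X) → ∃ t, ∀ i, v i ∈ bag t

theorem RelDec.leaf {C : Finset M} (h : C.card ≤ K) : RelDec I K C C := by
  refine ⟨Unit, inferInstance, (), id, fun _ => 0, fun _ => C, fun _ => (), ?_, rfl, ?_, ?_, ?_⟩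
  · intro t ht
    exact absurd rfl ht
  · intro t
    exact ⟨h, Finset.Subset.refl C⟩
  · intro x hx
    exact ⟨hx, fun t _ ht => absurd rfl ht⟩
  · intro s v _ hv
    exact ⟨(), hv⟩

theorem RelDec.join {X Y C : Finset M} (h : X ∩ Y ⊆ C)
    (ht : ∀ (s : S) (v : Fin (ar s) → M), I s v → (∀ i, v i ∈ X ∪ Y) →
      (∀ i, v i ∈ X) ∨ ∀ i, v i ∈ Y) (h₁ : RelDec I K X C) (h₂ : RelDec I K Y C) :
    RelDec I K (X ∪ Y) C := by
  classical
  obtain ⟨T₁, hT₁, r₁, p₁, d₁, b₁, t₁, a1, a2, a3, a4, a5⟩ := h₁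
  obtain ⟨T₂, hT₂, r₂, p₂, d₂, b₂, t₂, c1, c2, c3, c4, c5⟩ := h₂
  refine ⟨T₁ ⊕ T₂, inferInstance, Sum.inl r₁,
    Sum.elim (fun t => Sum.inl (p₁ t)) (fun t => if t = r₂ then Sum.inl r₁ else Sum.inr (p₂ t)),
    Sum.elim d₁ (fun t => d₂ t + d₁ r₁ + 1), Sum.elim b₁ b₂,
    fun x => if x ∈ X then Sum.inl (t₁ x) else Sum.inr (t₂ x), ?_, ?_, ?_, ?_, ?_⟩
  · rintro (t | t) hne
    · exact a1 t fun h => hne (congrArg _ h)
    · by_cases hr : t = r₂
      · simp only [Sum.elim_inr, if_pos hr, Sum.elim_inl]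
        omega
      · have := c1 t hr
        simp only [Sum.elim_inr, if_neg hr]
        omega
  · exact a2
  · rintro (t | t)
    · exact ⟨(a3 t).1, (a3 t).2.trans Finset.subset_union_left⟩
    · exact ⟨(c3 t).1, (c3 t).2.trans Finset.subset_union_right⟩
  · intro x hx
    by_cases hxX : x ∈ X
    · simp only [if_pos hxX]
      refine ⟨(a4 x hxX).1, ?_⟩
      rintro (t | t) hxt hne
      · have h1 := (a4 x hxX).2 t hxt fun h => hne (congrArg _ h)
        exact ⟨fun h => h1.1 (Sum.inl.inj h), h1.2⟩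
      · have hxY : x ∈ Y := (c3 t).2 hxt
        have hxC : x ∈ C := h (Finset.mem_inter.2 ⟨hxX, hxY⟩)
        refine ⟨fun h => Sum.inr_ne_inl h, ?_⟩
        by_cases hr : t = r₂
        · simp only [Sum.elim_inr, if_pos hr, Sum.elim_inl]
          rw [a2]
          exact hxC
        · simp only [Sum.elim_inr, if_neg hr]
          have htop : t₂ x = r₂ := by
            by_contra hcon
            exact ((c4 x hxY).2 r₂ (by rw [c2]; exact hxC) fun h => hcon h.symm).1 rfl
          exact ((c4 x hxY).2 t hxt (by rw [htop]; exact hr)).2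
    · have hxY : x ∈ Y := (Finset.mem_union.1 hx).resolve_left hxX
      simp only [if_neg hxX]
      refine ⟨(c4 x hxY).1, ?_⟩
      rintro (t | t) hxt hne
      · exact absurd ((a3 t).2 hxt) hxX
      · have h1 := (c4 x hxY).2 t hxt fun h => hne (congrArg _ h)
        refine ⟨fun h => Sum.inr_ne_inl h, ?_⟩
        simp only [Sum.elim_inr, if_neg h1.1]
        exact h1.2
  · intro s v hv hv'
    rcases ht s v hv hv' with h1 | h1
    · obtain ⟨t, h2⟩ := a5 s v hv h1
      exact ⟨Sum.inl t, h2⟩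
    · obtain ⟨t, h2⟩ := c5 s v hv h1
      exact ⟨Sum.inr t, h2⟩

theorem RelDec.move {X C C' : Finset M} (hK : C'.card ≤ K) (h : X ∩ C' ⊆ C)
    (ht : ∀ (s : S) (v : Fin (ar s) → M), I s v → (∀ i, v i ∈ X ∪ C') →
      (∀ i, v i ∈ X) ∨ ∀ i, v i ∈ C') (h₁ : RelDec I K X C) : RelDec I K (X ∪ C') C' := by
  classical
  obtain ⟨T₁, hT₁, r₁, p₁, d₁, b₁, t₁, a1, a2, a3, a4, a5⟩ := h₁
  refine ⟨Option T₁, inferInstance, none,
    fun t => Option.elim t none (fun t => if t = r₁ then none else some (p₁ t)),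
    fun t => Option.elim t 0 (fun t => d₁ t + 1), fun t => Option.elim t C' b₁,
    fun x => if x ∈ C' then none else some (t₁ x), ?_, rfl, ?_, ?_, ?_⟩
  · rintro (_ | t) hne
    · exact absurd rfl hne
    · by_cases hr : t = r₁
      · simp only [Option.elim_some, if_pos hr, Option.elim_none]
        omega
      · have := a1 t hr
        simp only [Option.elim_some, if_neg hr]
        omega
  · rintro (_ | t)
    · exact ⟨hK, Finset.subset_union_right⟩
    · exact ⟨(a3 t).1, (a3 t).2.trans Finset.subset_union_left⟩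
  · intro x hx
    by_cases hxC : x ∈ C'
    · simp only [if_pos hxC]
      refine ⟨hxC, ?_⟩
      rintro (_ | t) hxt hne
      · exact absurd rfl hne
      · have hxX : x ∈ X := (a3 t).2 hxt
        have hxC1 : x ∈ C := h (Finset.mem_inter.2 ⟨hxX, hxC⟩)
        refine ⟨fun h => Option.some_ne_none t h, ?_⟩
        by_cases hr : t = r₁
        · simp only [Option.elim_some, if_pos hr, Option.elim_none]
          exact hxC
        · simp only [Option.elim_some, if_neg hr]
          have htop : t₁ x = r₁ := by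
            by_contra hcon
            exact ((a4 x hxX).2 r₁ (by rw [a2]; exact hxC1) fun h => hcon h.symm).1 rfl
          exact ((a4 x hxX).2 t hxt (by rw [htop]; exact hr)).2
    · have hxX : x ∈ X := (Finset.mem_union.1 hx).resolve_right hxC
      simp only [if_neg hxC]
      refine ⟨(a4 x hxX).1, ?_⟩
      rintro (_ | t) hxt hne
      · exact absurd hxt hxC
      · have h1 := (a4 x hxX).2 t hxt fun h => hne (congrArg _ h)
        refine ⟨fun h => Option.some_ne_none t h, ?_⟩
        simp only [Option.elim_some, if_neg h1.1]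
        exact h1.2
  · intro s v hv hv'
    rcases ht s v hv hv' with h1 | h1
    · obtain ⟨t, h2⟩ := a5 s v hv h1
      exact ⟨some t, h2⟩
    · exact ⟨none, h1⟩

private theorem Dec.relDec46 {X C : Finset M} (h : Dec I K X C) : RelDec I K X C := by
  induction h with
  | leaf C h => exact RelDec.leaf h
  | join X Y C h ht _ _ ih₁ ih₂ => exact RelDec.join h ht ih₁ ih₂
  | move X C C' hK h ht _ ih => exact RelDec.move hK h ht ih

theorem Dec.treeDec [Fintype M] {C : Finset M} (h : Dec I K Finset.univ C) :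
    Nonempty (TreeDec I K) := by
  obtain ⟨T₁, hT₁, r₁, p₁, d₁, b₁, t₁, a1, a2, a3, a4, a5⟩ := Dec.relDec46 h
  exact ⟨⟨T₁, hT₁, r₁, p₁, d₁, a1, b₁, fun t => (a3 t).1, t₁, fun x => (a4 x (Finset.mem_univ x)).1,
    fun x => (a4 x (Finset.mem_univ x)).2, fun s v hv => a5 s v hv fun i => Finset.mem_univ _⟩⟩

end Pool.Agent.Helper29.TW
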