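import Pool.Agent.Helper29.TW.Base

/-!
# Block TW-2: a structure without highly connected set has a decomposition

Claim: for all `n`, all `X : Finset M` with `X.card ≤ n` and all `R ⊆ X` with `R.card ≤ 5 * k` there is `C ⊇ R` with
`Dec I (6 * k) X C`.  Induction on `n`.  If `X.card ≤ 5 * k`: `Dec.leaf X`.  Otherwise choose `W` with `R ⊆ W ⊆ X`, `W.card = 5 * k`
(`Finset.exists_subsuperset_card_eq`).  By `h W` there are `A`, `B` with `Spn I A B`, `(A ∩ B).ncard ≤ k`, `(A ∩ W).ncard ≤ 4 * k`,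
`(B ∩ W).ncard ≤ 4 * k` (write them as `Finset`s: `A.toFinset` classically).  Put `A' := X.filter (· ∈ A)`, `B'` similarly, `D := A' ∩ B'`
(at most `k` elements), `C := W ∪ D` (at most `6 * k`).  `W ⊄ A'` as `4 * k < 5 * k`, so `A'.card < X.card`, and the induction
hypothesis for `A'` and `(A' ∩ W) ∪ D` (at most `5 * k` elements) gives `C₁`, similarly `C₂` for `B'`.
`Dec.move` for `A'`, `C₁`, `C`: `A' ∩ C ⊆ (A' ∩ W) ∪ D ⊆ C₁`; a tuple in `A' ∪ C ⊆ X` is in `A` (then in `A'`) or in `B`; in the second case each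
`v i` is in `C`, or in `A'` and in `B`, so in `D ⊆ C`.  The same for `B'`.  Then `Dec.join` for `A' ∪ C`, `B' ∪ C` with root `C`:
`(A' ∪ C) ∩ (B' ∪ C) ⊆ C`; a tuple in `X` is in `A'` or `B'`.  The union is `X`.
Finally `X := univ`, `R := ∅`.
-/

set_option autoImplicit false

namespace Pool.Agent.Helper29.TW

open Pool.Agent.Helper20.Spectra Pool.Agent.Helper29.TD

variable {S : Type} {ar : S → ℕ} {M : Type}

private theorem up_half32 [DecidableEq M] {I : Interp S ar M} {k : ℕ} {X W A' B' C₁ : Finset M}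
    {A B : Set M} (hS : ∀ (s : S) (v : Fin (ar s) → M), I s v → (∀ i, v i ∈ A) ∨ ∀ i, v i ∈ B)
    (hA' : ∀ x, x ∈ A' ↔ x ∈ X ∧ x ∈ A) (hB' : ∀ x, x ∈ B' ↔ x ∈ X ∧ x ∈ B) (hWX : W ⊆ X)
    (hC : (W ∪ (A' ∩ B')).card ≤ 6 * k) (hC₁ : (A' ∩ W) ∪ (A' ∩ B') ⊆ C₁)
    (hD : Dec I (6 * k) A' C₁) :
    Dec I (6 * k) (A' ∪ (W ∪ (A' ∩ B'))) (W ∪ (A' ∩ B')) := by
  have hCX : W ∪ (A' ∩ B') ⊆ X := by
    intro x hx
    rw [Finset.mem_union, Finset.mem_inter] at hx
    rcases hx with hx | hx
    · exact hWX hx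
    · exact ((hA' x).mp hx.1).1
  refine Dec.move A' C₁ _ hC ?_ ?_ hD
  · intro x hx
    rw [Finset.mem_inter, Finset.mem_union] at hx
    apply hC₁
    rw [Finset.mem_union, Finset.mem_inter]
    rcases hx with ⟨h1, h2 | h2⟩
    · exact Or.inl ⟨h1, h2⟩
    · exact Or.inr h2
  · intro s v hv hvi
    rcases hS s v hv with h1 | h1
    · left
      intro i
      rcases Finset.mem_union.mp (hvi i) with h2 | h2
      · exact h2
      · exact (hA' _).mpr ⟨hCX h2, h1 i⟩
    · right
      intro i
      rcases Finset.mem_union.mp (hvi i) with h2 | h2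
      · exact Finset.mem_union_right _ (Finset.mem_inter.mpr ⟨h2,
          (hB' _).mpr ⟨((hA' _).mp h2).1, h1 i⟩⟩)
      · exact h2

private theorem up_claim32 [Fintype M] [DecidableEq M] (I : Interp S ar M) (k : ℕ) (hk : 1 ≤ k)
    (h : ∀ W : Set M, ¬ Linked I k W) (n : ℕ) : ∀ X R : Finset M, X.card = n → R ⊆ X →
      R.card ≤ 5 * k → ∃ C : Finset M, R ⊆ C ∧ Dec I (6 * k) X C := by
  classical
  induction n using Nat.strong_induction_on with
  | _ n ih =>
    intro X R hXn hRX hR
    by_cases hX : X.card ≤ 5 * k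
    · exact ⟨X, hRX, Dec.leaf X (by omega)⟩
    · obtain ⟨W, hRW, hWX, hWc⟩ := Finset.exists_subsuperset_card_eq hRX hR (by omega)
      have hW := h (W : Set M)
      unfold Linked at hW
      rw [Set.ncard_coe_finset] at hW
      push Not at hW
      obtain ⟨A, B, hAB, hc, ha, hb⟩ := hW hWc
      obtain ⟨A', hA'd⟩ : ∃ A' : Finset M, A' = X.filter (· ∈ A) := ⟨_, rfl⟩
      obtain ⟨B', hB'd⟩ : ∃ B' : Finset M, B' = X.filter (· ∈ B) := ⟨_, rfl⟩
      have hA' : ∀ x, x ∈ A' ↔ x ∈ X ∧ x ∈ A := fun x => by rw [hA'd, Finset.mem_filter]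
      have hB' : ∀ x, x ∈ B' ↔ x ∈ X ∧ x ∈ B := fun x => by rw [hB'd, Finset.mem_filter]
      have hDc : (A' ∩ B').card ≤ k := by
        rw [← Set.ncard_coe_finset]
        refine (Set.ncard_le_ncard ?_ (Set.toFinite _)).trans hc
        intro x hx
        rw [Finset.mem_coe, Finset.mem_inter] at hx
        exact ⟨((hA' x).mp hx.1).2, ((hB' x).mp hx.2).2⟩
      have hAW : (A' ∩ W).card ≤ 4 * k := by
        rw [← Set.ncard_coe_finset]
        refine (Set.ncard_le_ncard ?_ (Set.toFinite _)).trans ha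
        intro x hx
        rw [Finset.mem_coe, Finset.mem_inter] at hx
        exact ⟨((hA' x).mp hx.1).2, hx.2⟩
      have hBW : (B' ∩ W).card ≤ 4 * k := by
        rw [← Set.ncard_coe_finset]
        refine (Set.ncard_le_ncard ?_ (Set.toFinite _)).trans hb
        intro x hx
        rw [Finset.mem_coe, Finset.mem_inter] at hx
        exact ⟨((hB' x).mp hx.1).2, hx.2⟩
      have hAX : A' ⊆ X := fun x hx => ((hA' x).mp hx).1
      have hBX : B' ⊆ X := fun x hx => ((hB' x).mp hx).1
      have hAlt : A'.card < X.card := by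
        apply Finset.card_lt_card
        refine ⟨hAX, fun hXA => ?_⟩
        have h1 : A' ∩ W = W := Finset.inter_eq_right.mpr (hWX.trans hXA)
        rw [h1] at hAW
        omega
      have hBlt : B'.card < X.card := by
        apply Finset.card_lt_card
        refine ⟨hBX, fun hXB => ?_⟩
        have h1 : B' ∩ W = W := Finset.inter_eq_right.mpr (hWX.trans hXB)
        rw [h1] at hBW
        omega
      have hC : (W ∪ (A' ∩ B')).card ≤ 6 * k := by
        have := Finset.card_union_le W (A' ∩ B')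
        omega
      have hC' : (W ∪ (B' ∩ A')).card ≤ 6 * k := by rwa [Finset.inter_comm B' A']
      obtain ⟨C₁, hC₁, hD₁⟩ := ih A'.card (by omega) A' ((A' ∩ W) ∪ (A' ∩ B')) rfl
        (Finset.union_subset Finset.inter_subset_left Finset.inter_subset_left) (by
          have := Finset.card_union_le (A' ∩ W) (A' ∩ B')
          omega)
      obtain ⟨C₂, hC₂, hD₂⟩ := ih B'.card (by omega) B' ((B' ∩ W) ∪ (B' ∩ A')) rfl
        (Finset.union_subset Finset.inter_subset_left Finset.inter_subset_left) (by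
          have := Finset.card_union_le (B' ∩ W) (B' ∩ A')
          rw [Finset.inter_comm B' A'] at this ⊢
          omega)
      have h1 := up_half32 hAB.2 hA' hB' hWX hC hC₁ hD₁
      have h2 := up_half32 (fun s v hv => (hAB.2 s v hv).symm) hB' hA' hWX hC' hC₂ hD₂
      rw [Finset.inter_comm B' A'] at h2
      refine ⟨W ∪ (A' ∩ B'), hRW.trans Finset.subset_union_left, ?_⟩
      have hXu : (A' ∪ (W ∪ (A' ∩ B'))) ∪ (B' ∪ (W ∪ (A' ∩ B'))) = X := by
        apply Finset.Subset.antisymm
        · intro x hx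
          simp only [Finset.mem_union, Finset.mem_inter] at hx
          rcases hx with (h3 | h3 | h3) | (h3 | h3 | h3)
          · exact hAX h3
          · exact hWX h3
          · exact hAX h3.1
          · exact hBX h3
          · exact hWX h3
          · exact hAX h3.1
        · intro x hx
          rcases hAB.1 x with h3 | h3
          · exact Finset.mem_union_left _ (Finset.mem_union_left _ ((hA' x).mpr ⟨hx, h3⟩))
          · exact Finset.mem_union_right _ (Finset.mem_union_left _ ((hB' x).mpr ⟨hx, h3⟩))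
      have h3 := Dec.join (I := I) (K := 6 * k) (A' ∪ (W ∪ (A' ∩ B'))) (B' ∪ (W ∪ (A' ∩ B')))
        (W ∪ (A' ∩ B')) (by
          intro x hx
          obtain ⟨hx1, hx2⟩ := Finset.mem_inter.mp hx
          rcases Finset.mem_union.mp hx1 with h4 | h4 <;> rcases Finset.mem_union.mp hx2 with h5 | h5
          · exact Finset.mem_union_right _ (Finset.mem_inter.mpr ⟨h4, h5⟩)
          · exact h5
          · exact h4
          · exact h4) (by
          intro s v hv hvi
          rw [hXu] at hvi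
          rcases hAB.2 s v hv with h4 | h4
          · exact Or.inl fun i => Finset.mem_union_left _ ((hA' _).mpr ⟨hvi i, h4 i⟩)
          · exact Or.inr fun i => Finset.mem_union_left _ ((hB' _).mpr ⟨hvi i, h4 i⟩)) h1 h2
      rw [hXu] at h3
      exact h3

theorem up [Fintype M] [DecidableEq M] (I : Interp S ar M) (k : ℕ) (hk : 1 ≤ k)
    (h : ∀ W : Set M, ¬ Linked I k W) : ∃ C : Finset M, Dec I (6 * k) Finset.univ C := by
  obtain ⟨C, -, hC⟩ := up_claim32 I k hk h _ Finset.univ ∅ rfl (Finset.empty_subset _) (by simp)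
  exact ⟨C, hC⟩

end Pool.Agent.Helper29.TW
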