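import Pool.Agent.Helper29.TW.Sizes
import Pool.Agent.Helper29.TW.TreeOf
import Pool.Agent.Helper29.TW.Up
import Pool.Agent.Helper29.TW.LowB
import Pool.Agent.Helper29.TW.RepMain
import Pool.Agent.Helper29.TW.SatTy

/-!
# Below all iterated logarithms the tree-width is bounded and the spectra are ultimately periodic
-/

set_option autoImplicit false

namespace Pool.Agent.Helper29.TW

open FirstOrder FirstOrder.Language Pool.Agent.Helper20.Spectra Pool.Agent.Helper20.OP
  Pool.Agent.Helper29.TD Filter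

variable {S : Type} {ar : S → ℕ}

/-- a generated structure on `Fin n` -/
lemma exists_fin {K : ℕ} {V : Type} [Finite V] (J : Interp S ar (Fin K ⊕ V))
    (φ : (RelLang S ar).Sentence) (h : Sat (inn J) φ) :
    Sat (fun s v => inn J s (fun i => (Finite.equivFin V).symm (v i)) :
      Interp S ar (Fin (Nat.card V))) φ :=
  (Sat.iso (inn J) (Finite.equivFin V) φ).1 h

theorem not_linked [Finite S] (w : ℕ → ℕ) (hw : ∀ d, ∀ᶠ n in atTop, E d (w n) ≤ n)
    (φ : (RelLang S ar).Sentence)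
    (hφ : ∀ (n : ℕ) (I : Interp S ar (Fin n)), 1 ≤ n → Sat I φ → TwLe I (w n)) :
    ∃ k, 1 ≤ k ∧ ∀ (n : ℕ) (I : Interp S ar (Fin n)), 1 ≤ n → Sat I φ →
      ∀ W : Set (Fin n), ¬ Linked I k W := by
  classical
  obtain ⟨q, hq⟩ := sat_ty φ
  obtain ⟨F, ⟨c, hF⟩, hdown⟩ := pump_down (S := S) (ar := ar) q
  obtain ⟨N0, hN0⟩ := eventually_atTop.1 (hw (c + 4))
  by_contra hcon
  push Not at hcon
  obtain ⟨n, I, hn, hI, W₀, hW₀⟩ := hcon (N0 + 1) (by omega)
  have hle : ∀ (k : ℕ) (W : Set (Fin n)), Linked I k W → 5 * k ≤ n := by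
    intro k W h
    rw [← h.1]
    have := Set.ncard_le_card W
    simpa using this
  let Q : ℕ → Prop := fun k => ∃ W : Set (Fin n), Linked I k W
  have h0 : Q (N0 + 1) := ⟨W₀, hW₀⟩
  have hb : N0 + 1 ≤ n := by
    have := hle _ _ hW₀
    omega
  obtain ⟨k, hk, hkQ, hmax⟩ : ∃ k, N0 + 1 ≤ k ∧ Q k ∧ ¬ Q (k + 1) := by
    refine ⟨Nat.findGreatest Q n, Nat.le_findGreatest hb h0, Nat.findGreatest_spec hb h0, ?_⟩
    intro h1
    obtain ⟨W, hW⟩ := h1
    have h2 := hle _ _ hW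
    have h3 : Nat.findGreatest Q n + 1 ≤ Nat.findGreatest Q n :=
      Nat.le_findGreatest (by omega) ⟨W, hW⟩
    omega
  obtain ⟨W, hW⟩ := hkQ
  obtain ⟨C, hC⟩ := up I (k + 1) (by omega) (fun W' h => hmax ⟨W', h⟩)
  obtain ⟨V, J, e, hG, hJ⟩ := gen_of_dec (by omega) hC
  have hinn : inn J = fun s v => I s (fun i => e.symm (v i)) := by
    funext s v
    apply propext
    unfold inn
    rw [hJ]
    constructor
    · rintro ⟨u, hu, h1⟩
      have h2 : (fun i => e.symm (v i)) = u := by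
        funext i
        have h3 := congrFun h1 i
        rw [Sum.inr.injEq] at h3
        rw [h3, Equiv.symm_apply_apply]
      rw [h2]
      exact hu
    · intro hu
      exact ⟨_, hu, by simp⟩
  have hL : Linked (inn J) k (e '' W) := by
    rw [hinn]
    exact hW.map e
  obtain ⟨V', J', W', hG', hty, hL', hcard⟩ := hdown k V J _ hG hL
  have := hG'.finite
  have hsat : Sat (inn J') φ := (hq _ _ _ _ _ hty).2 ((sat_inn φ e hJ).1 hI)
  have hfin := exists_fin J' φ hsat
  have hLfin := hL'.map (Finite.equivFin V')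
  have hn' : 5 * k ≤ Nat.card V' := by
    rw [← hL'.1]
    exact Set.ncard_le_card W'
  have htw := hφ _ _ (by omega) hfin
  have hkw : k ≤ w (Nat.card V') := by
    by_contra hlt
    push Not at hlt
    obtain ⟨D⟩ := TreeDec.mono (k' := k) (by omega) htw
    exact low (by omega) D _ hLfin
  have h1 := hN0 (Nat.card V') (by omega)
  have h2 : E (c + 4) k ≤ E (c + 4) (w (Nat.card V')) := E_mono _ hkw
  have h3 : E (c + 3) k < E (c + 4) k := E_succ_le _ _
  have h4 : E c (k + 2) ≤ E (c + 3) k := by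
    rw [← E_add]
    apply E_mono
    have a1 : k < E 1 k := E_succ_le 0 k
    have a2 : E 1 k < E 2 k := E_succ_le 1 k
    have a3 : E 2 k < E 3 k := E_succ_le 2 k
    omega
  have h5 := hF k
  omega

theorem tame (w : ℕ → ℕ) (hw : ∀ d, ∀ᶠ n in atTop, E d (w n) ≤ n) (A : Set ℕ)
    (hA : NarrowSpectrum w A) : UltPeriodic A ∧ ∃ L, NarrowSpectrum (fun _ => L) A := by
  classical
  obtain ⟨S, hS, ar, φ, h1, h2⟩ := hA
  obtain ⟨k, hk, hnl⟩ := not_linked w hw φ h1
  refine ⟨?_, 6 * k, S, hS, ar, φ, ?_, h2⟩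
  · obtain ⟨q, hq⟩ := sat_ty φ
    obtain ⟨p, N, hp, hup⟩ := pump_up (S := S) (ar := ar) q (6 * k)
    refine ultPeriodic_of_add hp (N := N) (fun n hn hA => ?_)
    obtain ⟨hn1, I, hI⟩ := (h2 n).1 hA
    obtain ⟨C, hC⟩ := up I k hk (hnl n I hn1 hI)
    obtain ⟨V, J, e, hG, hJ⟩ := gen_of_dec (by omega) hC
    have hcV : Nat.card V = n := by
      rw [← Nat.card_congr e, Nat.card_fin]
    obtain ⟨V', J', hG', hty, hc'⟩ := hup V J hG (by rw [hcV]; exact hn)
    have := hG'.finite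
    have hsat : Sat (inn J') φ := (hq _ _ _ _ _ hty).2 ((sat_inn φ e hJ).1 hI)
    have hfin := exists_fin J' φ hsat
    rw [hcV] at hc'
    refine (h2 _).2 ⟨by omega, ?_⟩
    rw [← hc']
    exact ⟨_, hfin⟩
  · intro n I hn hI
    obtain ⟨C, hC⟩ := up I k hk (hnl n I hn hI)
    exact TreeDec.mono (k' := 6 * k + 1) (by omega) hC.treeDec

end Pool.Agent.Helper29.TW
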