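import Pool.Agent.Helper29.TW.Defs
import Pool.Agent.Helper29.TD.BF

/-!
# Spectra of sentences whose models have small tree-width: auxiliary definitions
-/

set_option autoImplicit false

namespace Pool.Agent.Helper29.TW

open FirstOrder FirstOrder.Language Pool.Agent.Helper20.Spectra Pool.Agent.Helper29.TD

variable {S : Type} {ar : S → ℕ} {M : Type}

/-! ### Separations and highly connected sets -/

/-- every element is in `A` or in `B`, every tuple of a relation is contained in `A` or in `B` -/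
def Spn (I : Interp S ar M) (A B : Set M) : Prop :=
  (∀ x, x ∈ A ∨ x ∈ B) ∧
    ∀ (s : S) (v : Fin (ar s) → M), I s v → (∀ i, v i ∈ A) ∨ ∀ i, v i ∈ B

/-- `W` has `5 * k` elements and no separation of order at most `k` is balanced on `W` -/
def Linked (I : Interp S ar M) (k : ℕ) (W : Set M) : Prop :=
  W.ncard = 5 * k ∧ ∀ A B : Set M, Spn I A B → (A ∩ B).ncard ≤ k →
    4 * k < (A ∩ W).ncard ∨ 4 * k < (B ∩ W).ncard

/-! ### Decompositions, built step by step -/

/-- `Dec I K X C`: the substructure on `X` has a tree decomposition with root bag `C` and bags of at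
most `K` elements -/
inductive Dec [DecidableEq M] (I : Interp S ar M) (K : ℕ) : Finset M → Finset M → Prop
  | leaf (C : Finset M) : C.card ≤ K → Dec I K C C
  | join (X Y C : Finset M) : X ∩ Y ⊆ C →
      (∀ (s : S) (v : Fin (ar s) → M), I s v → (∀ i, v i ∈ X ∪ Y) →
        (∀ i, v i ∈ X) ∨ ∀ i, v i ∈ Y) →
      Dec I K X C → Dec I K Y C → Dec I K (X ∪ Y) C
  | move (X C C' : Finset M) : C'.card ≤ K → X ∩ C' ⊆ C →
      (∀ (s : S) (v : Fin (ar s) → M), I s v → (∀ i, v i ∈ X ∪ C') →
        (∀ i, v i ∈ X) ∨ ∀ i, v i ∈ C') →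
      Dec I K X C → Dec I K (X ∪ C') C'

/-! ### Structures with sources -/

/-- the image of an interpretation -/
def img {M N : Type} (f : M → N) (I : Interp S ar M) : Interp S ar N :=
  fun s v => ∃ u : Fin (ar s) → M, I s u ∧ v = fun i => f (u i)

variable {K : ℕ} {V V₁ V₂ : Type}

/-- gluing along the sources -/
def jn (J₁ : Interp S ar (Fin K ⊕ V₁)) (J₂ : Interp S ar (Fin K ⊕ V₂)) :
    Interp S ar (Fin K ⊕ (V₁ ⊕ V₂)) :=
  fun s v => img (Sum.map id Sum.inl) J₁ s v ∨ img (Sum.map id Sum.inr) J₂ s v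

/-- the source `a` becomes the new inner element `none` -/
def fg (a : Fin K) : Fin K ⊕ V → Fin K ⊕ Option V
  | Sum.inl b => if b = a then Sum.inr none else Sum.inl b
  | Sum.inr x => Sum.inr (some x)

/-- the structures with `K` sources generated by gluing and by turning sources to inner elements;
`B` is the set of the active sources -/
inductive Gen (S : Type) (ar : S → ℕ) (K : ℕ) :
    Finset (Fin K) → (V : Type) → Interp S ar (Fin K ⊕ V) → Prop
  | base (B : Finset (Fin K)) (J : Interp S ar (Fin K ⊕ Empty)) :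
      (∀ (s : S) (v : Fin (ar s) → Fin K ⊕ Empty), J s v → ∀ i a, v i = Sum.inl a → a ∈ B) →
      Gen S ar K B Empty J
  | join (B₁ B₂ : Finset (Fin K)) (V₁ V₂ : Type) (J₁ : Interp S ar (Fin K ⊕ V₁))
      (J₂ : Interp S ar (Fin K ⊕ V₂)) : Gen S ar K B₁ V₁ J₁ → Gen S ar K B₂ V₂ J₂ →
      Gen S ar K (B₁ ∪ B₂) (V₁ ⊕ V₂) (jn J₁ J₂)
  | forget (B : Finset (Fin K)) (V : Type) (J : Interp S ar (Fin K ⊕ V)) (a : Fin K) : a ∈ B →
      Gen S ar K B V J → Gen S ar K (B.erase a) (Option V) (img (fg a) J)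

/-- the structure on the inner elements -/
def inn (J : Interp S ar (Fin K ⊕ V)) : Interp S ar V := fun s v => J s (fun i => Sum.inr (v i))

/-- the type of rank `q` of the sources, moves are inner elements -/
def ty (q : ℕ) (J : Interp S ar (Fin K ⊕ V)) : Ty S ar q K :=
  tp J (Set.range Sum.inr) q (Sum.inl : Fin K → Fin K ⊕ V)

/-- the set of the sources in `α` and the inner elements in `A` -/
def mk (α : Set (Fin K)) (A : Set V) : Set (Fin K ⊕ V) := {x | Sum.elim (· ∈ α) (· ∈ A) x}

/-- there is a separation, with the sources in `α` on the first side and the sources in `β` on the second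
side, such that `c` inner elements are on both sides and `a`, `b` elements of `W` on the first, second
side -/
def Sm (J : Interp S ar (Fin K ⊕ V)) (W : Set V) (α β : Set (Fin K)) (c a b : ℕ) : Prop :=
  ∃ A B : Set V, Spn J (mk α A) (mk β B) ∧ (A ∩ B).ncard = c ∧ (A ∩ W).ncard = a ∧
    (B ∩ W).ncard = b

/-- the states -/
abbrev Stt (S : Type) (ar : S → ℕ) (q K k : ℕ) : Type :=
  Finset (Fin K) × Ty S ar q K × Fin (5 * k + 1) ×
    Set (Set (Fin K) × Set (Fin K) × Fin (k + 1) × Fin (5 * k + 1) × Fin (5 * k + 1))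

/-- `σ` is the state of `(B, J, W)` -/
def HasSt {q k : ℕ} (B : Finset (Fin K)) (J : Interp S ar (Fin K ⊕ V)) (W : Set V)
    (σ : Stt S ar q K k) : Prop :=
  σ.1 = B ∧ σ.2.1 = ty q J ∧ (σ.2.2.1 : ℕ) = W.ncard ∧
    ∀ κ : Set (Fin K) × Set (Fin K) × Fin (k + 1) × Fin (5 * k + 1) × Fin (5 * k + 1),
      κ ∈ σ.2.2.2 ↔ Sm J W κ.1 κ.2.1 κ.2.2.1 κ.2.2.2.1 κ.2.2.2.2

/-! ### Abstract derivations -/

/-- derivations with base states of size `0`, unary steps of size `1` and binary steps -/
inductive Der {T : Type} (B : T → Prop) (U : T → T → Prop) (J : T → T → T → Prop) : T → ℕ → Prop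
  | base (t : T) : B t → Der B U J t 0
  | unary (t t' : T) (n : ℕ) : U t t' → Der B U J t n → Der B U J t' (n + 1)
  | join (t₁ t₂ t : T) (n₁ n₂ : ℕ) : J t₁ t₂ t → Der B U J t₁ n₁ → Der B U J t₂ n₂ →
      Der B U J t (n₁ + n₂)

end Pool.Agent.Helper29.TW
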