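import Pool.Agent.Helper29.TW.BFMap
import Pool.Agent.Helper29.TD.Types

/-!
# Block TW-11: the type after a source becomes an inner element

By `tp_eq_iff` the hypothesis is `BF J J' (range inr) (range inr) q P0`, `P0 := prs inl inl`.  `BF.consts` with the set `{(inl a, inl a)} ⊆ P0`
gives the game with moves in `range inr ∪ {inl a}` on both sides.  Then `bf_map` with `g := fg a`, `g' := fg a` (injective maps, whose image
does not contain `inl a`) and `Z := {(inl a, inl a)}`.  The condition: for `P ⊇ P0` with `PIso J J' P`: equality: by injectivity, and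
`fg a x ≠ inl a`; relations: if one of the elements of the tuple is the pair `(inl a, inl a)` then both sides are false
(elements of tuples of `img (fg a) J` are in the image of `fg a`), otherwise all are images and `img (fg a) J s (fg a ∘ w) ↔ J s w`.
The moves: `fg a '' (range inr ∪ {inl a}) = range inr`.  The pairs contain `prs inl inl` (`(inl b, inl b)` is the image of itself for
`b ≠ a`), use `BF.anti`.
-/

set_option autoImplicit false

namespace Pool.Agent.Helper29.TW

open Pool.Agent.Helper20.Spectra Pool.Agent.Helper29.TD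

variable {S : Type} {ar : S → ℕ} {K : ℕ} {V V' : Type}

private theorem fg_inj1 (a : Fin K) :
    Function.Injective (fg a : Fin K ⊕ V → Fin K ⊕ Option V) := by
  have hl : ∀ b : Fin K, (fg a (Sum.inl b) : Fin K ⊕ Option V) =
      if b = a then Sum.inr none else Sum.inl b := fun _ => rfl
  have hr : ∀ x : V, (fg a (Sum.inr x) : Fin K ⊕ Option V) = Sum.inr (some x) := fun _ => rfl
  rintro (b | x) (c | y) h
  · rw [hl, hl] at h
    split_ifs at h with h1 h2 h2
    · rw [h1, h2]
    · rw [Sum.inl.inj h]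
  · rw [hl, hr] at h
    split_ifs at h
    exact absurd (Sum.inr.inj h) (by simp)
  · rw [hl, hr] at h
    split_ifs at h
    exact absurd (Sum.inr.inj h) (by simp)
  · rw [hr, hr] at h
    rw [Option.some.inj (Sum.inr.inj h)]

private theorem fg_ne1 (a : Fin K) (x : Fin K ⊕ V) :
    (fg a x : Fin K ⊕ Option V) ≠ Sum.inl a := by
  intro h
  rcases x with b | x
  · have hl : (fg a (Sum.inl b) : Fin K ⊕ Option V) =
      if b = a then Sum.inr none else Sum.inl b := rfl
    rw [hl] at h
    split_ifs at h with h1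
    exact h1 (Sum.inl.inj h)
  · have hr : (fg a (Sum.inr x) : Fin K ⊕ Option V) = Sum.inr (some x) := rfl
    rw [hr] at h
    exact absurd h (by simp)

private theorem img_fg1 (a : Fin K) (J : Interp S ar (Fin K ⊕ V)) (s : S)
    (w : Fin (ar s) → Fin K ⊕ V) : img (fg a) J s (fun i => fg a (w i)) ↔ J s w := by
  constructor
  · rintro ⟨u, hu, e⟩
    have e1 : w = u := funext fun i => fg_inj1 a (congrFun e i)
    rwa [e1]
  · exact fun h => ⟨w, h, rfl⟩

private theorem img_not1 (a : Fin K) (J : Interp S ar (Fin K ⊕ V)) (s : S)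
    (v : Fin (ar s) → Fin K ⊕ Option V) (i : Fin (ar s)) (hi : v i = Sum.inl a) :
    ¬ img (fg a) J s v := by
  rintro ⟨u, _, e⟩
  have e1 := congrFun e i
  rw [hi] at e1
  exact fg_ne1 a (u i) e1.symm

private theorem range_fg1 (a : Fin K) :
    (fg a : Fin K ⊕ V → Fin K ⊕ Option V) '' (Set.range Sum.inr ∪ {Sum.inl a}) =
      Set.range Sum.inr := by
  have hl : (fg a (Sum.inl a) : Fin K ⊕ Option V) = Sum.inr none := if_pos rfl
  ext x
  constructor
  · rintro ⟨y, ⟨z, rfl⟩ | hy, rfl⟩
    · exact ⟨some z, rfl⟩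
    · have hy' : y = Sum.inl a := hy
      rw [hy', hl]
      exact ⟨none, rfl⟩
  · rintro ⟨y, rfl⟩
    cases y with
    | none => exact ⟨Sum.inl a, Or.inr rfl, hl⟩
    | some z => exact ⟨Sum.inr z, Or.inl ⟨z, rfl⟩, rfl⟩

theorem ty_fg (q : ℕ) (a : Fin K) {J : Interp S ar (Fin K ⊕ V)} {J' : Interp S ar (Fin K ⊕ V')}
    (h : ty q J = ty q J') : ty q (img (fg a) J) = ty q (img (fg a) J') := by
  unfold ty at h ⊢
  rw [tp_eq_iff] at h ⊢
  have h0 : ({((Sum.inl a : Fin K ⊕ V), (Sum.inl a : Fin K ⊕ V'))} :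
      Set ((Fin K ⊕ V) × (Fin K ⊕ V'))) ⊆ prs Sum.inl Sum.inl :=
    Set.singleton_subset_iff.2 ⟨a, rfl⟩
  have h1 := BF.consts h0 h
  rw [Set.image_singleton, Set.image_singleton] at h1
  have h2 := bf_map (R := img (fg a) J) (R' := img (fg a) J') (fg a) (fg a)
    {((Sum.inl a : Fin K ⊕ Option V), (Sum.inl a : Fin K ⊕ Option V'))}
    (P0 := {((Sum.inl a : Fin K ⊕ V), (Sum.inl a : Fin K ⊕ V'))}) (fun P _ hP => ?_) q h0 h1
  · rw [range_fg1, range_fg1] at h2
    refine h2.anti ?_
    rintro _ ⟨b, rfl⟩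
    by_cases hb : b = a
    · subst hb
      exact Or.inr rfl
    · refine Or.inl ⟨(Sum.inl b, Sum.inl b), ⟨b, rfl⟩, ?_⟩
      have e1 : (fg a (Sum.inl b) : Fin K ⊕ Option V) = Sum.inl b := if_neg hb
      have e2 : (fg a (Sum.inl b) : Fin K ⊕ Option V') = Sum.inl b := if_neg hb
      rw [Prod.map_apply, e1, e2]
  · refine ⟨?_, ?_⟩
    · rintro p (⟨x, hx, rfl⟩ | hp) p' (⟨x', hx', rfl⟩ | hp')
      · rw [Prod.map_fst, Prod.map_fst, Prod.map_snd, Prod.map_snd, (fg_inj1 a).eq_iff,
          (fg_inj1 a).eq_iff]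
        exact hP.1 x hx x' hx'
      · rw [Set.mem_singleton_iff.1 hp']
        exact ⟨fun h => absurd h (fg_ne1 a _), fun h => absurd h (fg_ne1 a _)⟩
      · rw [Set.mem_singleton_iff.1 hp]
        exact ⟨fun h => absurd h.symm (fg_ne1 a _), fun h => absurd h.symm (fg_ne1 a _)⟩
      · rw [Set.mem_singleton_iff.1 hp, Set.mem_singleton_iff.1 hp']
        exact ⟨fun _ => rfl, fun _ => rfl⟩
    · intro s v hv
      by_cases hall : ∀ i, v i ∈ Prod.map (fg a) (fg a) '' P
      · choose w hw hwe using hall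
        have e1 : (fun i => (v i).1) = fun i => fg a (w i).1 := funext fun i => by
          rw [← hwe i, Prod.map_fst]
        have e2 : (fun i => (v i).2) = fun i => fg a (w i).2 := funext fun i => by
          rw [← hwe i, Prod.map_snd]
        rw [e1, e2, img_fg1, img_fg1]
        exact hP.2 s w hw
      · rw [not_forall] at hall
        obtain ⟨i, hi⟩ := hall
        have hi' : v i = (Sum.inl a, Sum.inl a) := (hv i).resolve_left hi
        refine ⟨fun h => absurd h (img_not1 a J s _ i ?_), fun h => absurd h (img_not1 a J' s _ i ?_)⟩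
        · rw [hi']
        · rw [hi']

end Pool.Agent.Helper29.TW
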