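import Pool.Agent.Helper29.TW.BFMap
import Pool.Agent.Helper29.TD.BFUnion
import Pool.Agent.Helper29.TD.Types

/-!
# Block TW-10: the type of a glued structure is determined by the types of the parts

`ty` is `tp`, so by `tp_eq_iff` the hypotheses are `BF J₁ J₁' (range inr) (range inr) q (prs inl inl)` and the same for `J₂`, `J₂'`.
Let `P0 := prs inl inl` (the pairs `(inl a, inl a)`), `e₁ := Sum.map id Sum.inl`, `e₂ := Sum.map id Sum.inr`.

Part 1: `BF (jn J₁ J₂) (jn J₁' J₂') (e₁ '' range inr) (e₁' '' range inr) q (Prod.map e₁ e₁' '' P0)` by `bf_map` with `Z = ∅`.  The condition: let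
`P ⊇ P0` with `PIso J₁ J₁' P`.  Equality: `e₁`, `e₁'` are injective.  Relations: for a tuple `p` in `P`,
`jn J₁ J₂ s (e₁ ∘ fst ∘ p) ↔ J₁ s (fst ∘ p) ∨ ∃ u, J₂ s u ∧ e₁ ∘ fst ∘ p = e₂ ∘ u`.  The second alternative means that there are sources `a i` with
`(p i).1 = inl (a i)` for all `i` and `J₂ s (inl ∘ a)`.  As `(inl a, inl a) ∈ P` and `PIso`, `(p i).1 = inl a ↔ (p i).2 = inl a`; and
`J₂ s (inl ∘ a) ↔ J₂' s (inl ∘ a)` because `PIso J₂ J₂' P0` (`BF.piso`).  `Prod.map e₁ e₁' '' P0` is the set `P0` for the new structures.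
The same for the second part.  Then `BF.union` with `A₁ := e₁ '' range inr = range (inr ∘ inl)`, `A₂ := range (inr ∘ inr)`, `P₁ = P₂ = P0`; `Sep`: no
tuple of `jn J₁ J₂` meets both.  `A₁ ∪ A₂ = range inr`.
-/

set_option autoImplicit false

namespace Pool.Agent.Helper29.TW

open Pool.Agent.Helper20.Spectra Pool.Agent.Helper29.TD

variable {S : Type} {ar : S → ℕ} {K : ℕ} {V₁ V₂ V₁' V₂' : Type}

private theorem img_self43 {M N : Type} {f : M → N} (hf : Function.Injective f) (I : Interp S ar M)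
    (s : S) (v : Fin (ar s) → M) : img f I s (fun i => f (v i)) ↔ I s v := by
  constructor
  · rintro ⟨u, hu, h⟩
    have e : v = u := funext fun i => hf (congrFun h i)
    rwa [e]
  · intro h
    exact ⟨v, h, rfl⟩

private theorem img_cross43 {V W X : Type} {f : V → X} {g : W → X} (hfg : ∀ x y, f x ≠ g y)
    (J : Interp S ar (Fin K ⊕ W)) (s : S) (v : Fin (ar s) → Fin K ⊕ V) :
    img (Sum.map id g) J s (fun i => Sum.map id f (v i)) ↔
      ∃ a : Fin (ar s) → Fin K, (∀ i, v i = Sum.inl (a i)) ∧ J s (fun i => Sum.inl (a i)) := by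
  constructor
  · rintro ⟨u, hu, h⟩
    have h1 : ∀ i, ∃ a : Fin K, v i = Sum.inl a ∧ u i = Sum.inl a := by
      intro i
      have h2 : Sum.map id f (v i) = Sum.map id g (u i) := congrFun h i
      rcases hv : v i with a | x <;> rcases hu' : u i with b | y <;> rw [hv, hu'] at h2
      · simp only [Sum.map_inl, id_eq, Sum.inl.injEq] at h2
        exact ⟨a, rfl, by rw [h2]⟩
      · simp only [Sum.map_inl, Sum.map_inr, reduceCtorEq] at h2
      · simp only [Sum.map_inl, Sum.map_inr, reduceCtorEq] at h2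
      · simp only [Sum.map_inr, Sum.inr.injEq] at h2
        exact absurd h2 (hfg x y)
    choose a ha using h1
    refine ⟨a, fun i => (ha i).1, ?_⟩
    have e : u = fun i => Sum.inl (a i) := funext fun i => (ha i).2
    rwa [e] at hu
  · rintro ⟨a, ha, hJ⟩
    refine ⟨_, hJ, funext fun i => ?_⟩
    rw [ha i]
    simp only [Sum.map_inl]

private theorem part43 {V V' W W' : Type} {J : Interp S ar (Fin K ⊕ V)}
    {J' : Interp S ar (Fin K ⊕ V')} {R : Interp S ar W} {R' : Interp S ar W'}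
    (e : Fin K ⊕ V → W) (e' : Fin K ⊕ V' → W') (he : Function.Injective e)
    (he' : Function.Injective e') (D D' : ∀ s : S, (Fin (ar s) → Fin K) → Prop)
    (hR : ∀ (s : S) (v : Fin (ar s) → Fin K ⊕ V), R s (fun i => e (v i)) ↔
      J s v ∨ ∃ a : Fin (ar s) → Fin K, (∀ i, v i = Sum.inl (a i)) ∧ D s a)
    (hR' : ∀ (s : S) (v : Fin (ar s) → Fin K ⊕ V'), R' s (fun i => e' (v i)) ↔
      J' s v ∨ ∃ a : Fin (ar s) → Fin K, (∀ i, v i = Sum.inl (a i)) ∧ D' s a)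
    (hD : ∀ s a, D s a ↔ D' s a)
    (P : Set ((Fin K ⊕ V) × (Fin K ⊕ V'))) (hP : prs Sum.inl Sum.inl ⊆ P) (h : PIso J J' P) :
    PIso R R' (Prod.map e e' '' P ∪ ∅) := by
  rw [Set.union_empty]
  constructor
  · rintro _ ⟨p, hp, rfl⟩ _ ⟨p', hp', rfl⟩
    have := h.1 p hp p' hp'
    simp only [Prod.map_fst, Prod.map_snd, he.eq_iff, he'.eq_iff]
    exact this
  · intro s v hv
    choose u hu huv using hv
    have e1 : (fun i => (v i).1) = fun i => e (u i).1 := funext fun i => by rw [← huv i]; rfl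
    have e2 : (fun i => (v i).2) = fun i => e' (u i).2 := funext fun i => by rw [← huv i]; rfl
    rw [e1, e2, hR s (fun i => (u i).1), hR' s (fun i => (u i).2), h.2 s u hu]
    refine or_congr Iff.rfl (exists_congr fun a => and_congr (forall_congr' fun i => ?_) (hD s a))
    exact h.1 (u i) (hu i) (Sum.inl (a i), Sum.inl (a i)) (hP ⟨a i, rfl⟩)

private theorem inj43 {V X : Type} {f : V → X} (hf : Function.Injective f) :
    Function.Injective (Sum.map id f : Fin K ⊕ V → Fin K ⊕ X) :=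
  Function.injective_id.sumMap hf

private theorem prsmap43 {V V' X X' : Type} (f : V → X) (f' : V' → X') :
    Prod.map (Sum.map id f : Fin K ⊕ V → Fin K ⊕ X) (Sum.map id f' : Fin K ⊕ V' → Fin K ⊕ X') ''
      prs Sum.inl Sum.inl ∪ ∅ = prs Sum.inl Sum.inl := by
  rw [Set.union_empty]
  ext p
  constructor
  · rintro ⟨_, ⟨i, rfl⟩, rfl⟩
    exact ⟨i, rfl⟩
  · rintro ⟨i, rfl⟩
    exact ⟨_, ⟨i, rfl⟩, rfl⟩

private theorem sep43 {V₁ V₂ : Type} (J₁ : Interp S ar (Fin K ⊕ V₁)) (J₂ : Interp S ar (Fin K ⊕ V₂)) :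
    Sep (jn J₁ J₂) ((Sum.map id Sum.inl : Fin K ⊕ V₁ → Fin K ⊕ (V₁ ⊕ V₂)) '' Set.range Sum.inr)
      ((Sum.map id Sum.inr : Fin K ⊕ V₂ → Fin K ⊕ (V₁ ⊕ V₂)) '' Set.range Sum.inr) := by
  constructor
  · rintro _ ⟨_, ⟨x, rfl⟩, rfl⟩ ⟨_, ⟨y, rfl⟩, h⟩
    simp at h
  · rintro s v hv ⟨i, _, ⟨x, rfl⟩, hi⟩ ⟨j, _, ⟨y, rfl⟩, hj⟩
    rcases hv with ⟨u, -, rfl⟩ | ⟨u, -, rfl⟩
    · dsimp only at hj
      rcases hu : u j with a | z <;> rw [hu] at hj <;> simp at hj
    · dsimp only at hi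
      rcases hu : u i with a | z <;> rw [hu] at hi <;> simp at hi

private theorem un43 {V₁ V₂ : Type} :
    ((Sum.map id Sum.inl : Fin K ⊕ V₁ → Fin K ⊕ (V₁ ⊕ V₂)) '' Set.range Sum.inr) ∪
      ((Sum.map id Sum.inr : Fin K ⊕ V₂ → Fin K ⊕ (V₁ ⊕ V₂)) '' Set.range Sum.inr) =
      Set.range Sum.inr := by
  ext x
  constructor
  · rintro (⟨_, ⟨y, rfl⟩, rfl⟩ | ⟨_, ⟨y, rfl⟩, rfl⟩)
    · exact ⟨Sum.inl y, rfl⟩
    · exact ⟨Sum.inr y, rfl⟩
  · rintro ⟨y | y, rfl⟩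
    · exact Or.inl ⟨_, ⟨y, rfl⟩, rfl⟩
    · exact Or.inr ⟨_, ⟨y, rfl⟩, rfl⟩

private theorem nmem43 {V X : Type} (f : V → X) (i : Fin K) :
    (Sum.inl i : Fin K ⊕ X) ∉ (Sum.map id f : Fin K ⊕ V → Fin K ⊕ X) '' Set.range Sum.inr := by
  rintro ⟨_, ⟨x, rfl⟩, h⟩
  simp at h

theorem ty_jn (q : ℕ) {J₁ : Interp S ar (Fin K ⊕ V₁)} {J₁' : Interp S ar (Fin K ⊕ V₁')}
    {J₂ : Interp S ar (Fin K ⊕ V₂)} {J₂' : Interp S ar (Fin K ⊕ V₂')}
    (h₁ : ty q J₁ = ty q J₁') (h₂ : ty q J₂ = ty q J₂') :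
    ty q (jn J₁ J₂) = ty q (jn J₁' J₂') := by
  have b₁ := (tp_eq_iff q _ _).1 h₁
  have b₂ := (tp_eq_iff q _ _).1 h₂
  have d₁ : ∀ (s : S) (a : Fin (ar s) → Fin K),
      J₁ s (fun i => Sum.inl (a i)) ↔ J₁' s (fun i => Sum.inl (a i)) := fun s a =>
    b₁.piso.2 s (fun i => (Sum.inl (a i), Sum.inl (a i))) fun i => ⟨a i, rfl⟩
  have d₂ : ∀ (s : S) (a : Fin (ar s) → Fin K),
      J₂ s (fun i => Sum.inl (a i)) ↔ J₂' s (fun i => Sum.inl (a i)) := fun s a =>
    b₂.piso.2 s (fun i => (Sum.inl (a i), Sum.inl (a i))) fun i => ⟨a i, rfl⟩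
  have c₁ := bf_map (R := jn J₁ J₂) (R' := jn J₁' J₂') (Sum.map id Sum.inl) (Sum.map id Sum.inl) ∅
    (P0 := prs Sum.inl Sum.inl)
    (part43 (J := J₁) (J' := J₁') (R := jn J₁ J₂) (R' := jn J₁' J₂') (Sum.map id Sum.inl)
      (Sum.map id Sum.inl) (inj43 Sum.inl_injective)
      (inj43 Sum.inl_injective) (fun s a => J₂ s (fun i => Sum.inl (a i)))
      (fun s a => J₂' s (fun i => Sum.inl (a i)))
      (fun s v => or_congr (img_self43 (inj43 Sum.inl_injective) J₁ s v)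
        (img_cross43 (fun x y => Sum.inl_ne_inr) J₂ s v))
      (fun s v => or_congr (img_self43 (inj43 Sum.inl_injective) J₁' s v)
        (img_cross43 (fun x y => Sum.inl_ne_inr) J₂' s v)) d₂) q (subset_refl _) b₁
  have c₂ := bf_map (R := jn J₁ J₂) (R' := jn J₁' J₂') (Sum.map id Sum.inr) (Sum.map id Sum.inr) ∅
    (P0 := prs Sum.inl Sum.inl)
    (part43 (J := J₂) (J' := J₂') (R := jn J₁ J₂) (R' := jn J₁' J₂') (Sum.map id Sum.inr)
      (Sum.map id Sum.inr) (inj43 Sum.inr_injective)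
      (inj43 Sum.inr_injective) (fun s a => J₁ s (fun i => Sum.inl (a i)))
      (fun s a => J₁' s (fun i => Sum.inl (a i)))
      (fun s v => Or.comm.trans (or_congr (img_self43 (inj43 Sum.inr_injective) J₂ s v)
        (img_cross43 (fun x y => Sum.inr_ne_inl) J₁ s v)))
      (fun s v => Or.comm.trans (or_congr (img_self43 (inj43 Sum.inr_injective) J₂' s v)
        (img_cross43 (fun x y => Sum.inr_ne_inl) J₁' s v))) d₁) q (subset_refl _) b₂
  rw [prsmap43] at c₁ c₂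
  refine (tp_eq_iff q _ _).2 ?_
  have c := BF.union (sep43 J₁ J₂) (sep43 J₁' J₂') (P0 := prs Sum.inl Sum.inl) ?_ q (subset_refl _)
    (subset_refl _) Set.subset_union_left Set.subset_union_left c₁ c₂
  · rwa [un43, un43, Set.union_self] at c
  · rintro _ ⟨i, rfl⟩
    exact ⟨nmem43 _ i, nmem43 _ i, nmem43 _ i, nmem43 _ i⟩

end Pool.Agent.Helper29.TW
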