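import Pool.Agent.Helper29.TW.Base

/-!
# Block TW-22: highly connected sets and separations of generated structures

`Gen.act`: induction on `Gen` (`join`: the element `Sum.map id Sum.inl (u i) = inl a` gives `u i = inl a`; `forget`: `fg b (u i) = inl a` gives
`u i = inl a` and `a ≠ b`).
`linked_iff`: if no source is active then `Spn J (mk univ A) (mk univ B) ↔ Spn (inn J) A B`: the sources are in both sets, and every
tuple of `J` has the form `fun i => Sum.inr (v i)`.
`Linked.map`: transport along a bijection: `Spn` for `A`, `B` ↔ `Spn` for the images; `Set.ncard_image_of_injective`.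
`TreeDec.mono`: the same decomposition.
`TreeDec.map`: transport a decomposition along a bijection (`Finset.map`).
-/

set_option autoImplicit false

namespace Pool.Agent.Helper29.TW

open Pool.Agent.Helper20.Spectra Pool.Agent.Helper29.TD

variable {S : Type} {ar : S → ℕ} {K : ℕ}

theorem Gen.act {B : Finset (Fin K)} {V : Type} {J : Interp S ar (Fin K ⊕ V)}
    (h : Gen S ar K B V J) (s : S) (v : Fin (ar s) → Fin K ⊕ V) (hv : J s v) (i : Fin (ar s))
    (a : Fin K) (ha : v i = Sum.inl a) : a ∈ B := by
  revert s v i a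
  induction h with
  | base B J hJ =>
    intro s v hv i a ha
    exact hJ s v hv i a ha
  | join B₁ B₂ V₁ V₂ J₁ J₂ _ _ ih₁ ih₂ =>
    intro s v hv i a ha
    rcases hv with ⟨u, hu, rfl⟩ | ⟨u, hu, rfl⟩
    · apply Finset.mem_union_left
      apply ih₁ s u hu i a
      change Sum.map id Sum.inl (u i) = Sum.inl a at ha
      cases hui : u i with
      | inl c =>
        rw [hui] at ha
        exact congrArg Sum.inl (Sum.inl.inj ha)
      | inr c =>
        rw [hui] at ha
        exact absurd ha Sum.inr_ne_inl
    · apply Finset.mem_union_right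
      apply ih₂ s u hu i a
      change Sum.map id Sum.inr (u i) = Sum.inl a at ha
      cases hui : u i with
      | inl c =>
        rw [hui] at ha
        exact congrArg Sum.inl (Sum.inl.inj ha)
      | inr c =>
        rw [hui] at ha
        exact absurd ha Sum.inr_ne_inl
  | forget B V J b _ _ ih =>
    intro s v hv i a ha
    obtain ⟨u, hu, rfl⟩ := hv
    change fg b (u i) = Sum.inl a at ha
    cases hui : u i with
    | inl c =>
      rw [hui] at ha
      change (if c = b then Sum.inr none else Sum.inl c) = Sum.inl a at ha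
      by_cases hcb : c = b
      · rw [if_pos hcb] at ha
        exact absurd ha Sum.inr_ne_inl
      · rw [if_neg hcb] at ha
        have hca : c = a := Sum.inl.inj ha
        rw [Finset.mem_erase]
        exact ⟨hca ▸ hcb, ih s u hu i a (hca ▸ hui)⟩
    | inr c =>
      rw [hui] at ha
      exact absurd ha Sum.inr_ne_inl

private theorem spn_iff32 {V : Type} {J : Interp S ar (Fin K ⊕ V)} (h : Gen S ar K ∅ V J)
    (A B : Set V) : Spn J (mk Set.univ A) (mk Set.univ B) ↔ Spn (inn J) A B := by
  constructor
  · intro h1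
    exact ⟨fun x => h1.1 (Sum.inr x), fun s v hv => h1.2 s (fun i => Sum.inr (v i)) hv⟩
  · intro h1
    refine ⟨fun x => ?_, fun s v hv => ?_⟩
    · cases x with
      | inl a => exact Or.inl (Set.mem_univ a)
      | inr x => exact h1.1 x
    · have h2 : ∀ i, ∃ x, v i = Sum.inr x := by
        intro i
        cases hvi : v i with
        | inl a => exact absurd (h.act s v hv i a hvi) (Finset.notMem_empty a)
        | inr x => exact ⟨x, rfl⟩
      choose v' hv' using h2
      have h3 : v = fun i => Sum.inr (v' i) := funext hv'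
      subst h3
      exact h1.2 s v' hv

theorem linked_iff {V : Type} {J : Interp S ar (Fin K ⊕ V)} (h : Gen S ar K ∅ V J) (k : ℕ)
    (W : Set V) : Linked (inn J) k W ↔ W.ncard = 5 * k ∧ ∀ c a b : ℕ, c ≤ k →
      Sm J W Set.univ Set.univ c a b → 4 * k < a ∨ 4 * k < b := by
  constructor
  · rintro ⟨hW, h1⟩
    refine ⟨hW, ?_⟩
    rintro c a b hc ⟨A, B, hS, hc', ha, hb⟩
    rw [← ha, ← hb]
    exact h1 A B ((spn_iff32 h A B).mp hS) (hc'.trans_le hc)
  · rintro ⟨hW, h1⟩
    refine ⟨hW, fun A B hS hc => ?_⟩
    exact h1 _ _ _ hc ⟨A, B, (spn_iff32 h A B).mpr hS, rfl, rfl, rfl⟩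

theorem Linked.map {M N : Type} {I : Interp S ar M} (e : M ≃ N) {k : ℕ} {W : Set M}
    (h : Linked I k W) :
    Linked (fun s v => I s (fun i => e.symm (v i)) : Interp S ar N) k (e '' W) := by
  obtain ⟨hW, h1⟩ := h
  refine ⟨by rw [Set.ncard_image_of_injective W e.injective, hW], fun A B hS hc => ?_⟩
  have h2 : Spn I (e ⁻¹' A) (e ⁻¹' B) := by
    refine ⟨fun x => hS.1 (e x), fun s v hv => ?_⟩
    apply hS.2 s (fun i => e (v i))
    simpa using hv
  have h3 : ∀ Z : Set N, (e ⁻¹' Z ∩ W).ncard = (Z ∩ e '' W).ncard := by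
    intro Z
    rw [← Set.image_preimage_inter, Set.ncard_image_of_injective _ e.injective]
  have h4 : (e ⁻¹' A ∩ e ⁻¹' B).ncard = (A ∩ B).ncard := by
    rw [← Set.preimage_inter, ← Set.ncard_image_of_injective (e ⁻¹' (A ∩ B)) e.injective,
      Set.image_preimage_eq _ e.surjective]
  have h5 := h1 _ _ h2 (h4.trans_le hc)
  rwa [h3, h3] at h5

theorem TreeDec.mono {M : Type} {I : Interp S ar M} {k k' : ℕ} (h : k ≤ k')
    (D : Nonempty (TreeDec I k)) : Nonempty (TreeDec I k') := by
  obtain ⟨D⟩ := D
  exact ⟨{ T := D.T, fin := D.fin, root := D.root, par := D.par, dep := D.dep,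
           dep_par := D.dep_par, bag := D.bag, card_bag := fun t => (D.card_bag t).trans h,
           top := D.top, mem_top := D.mem_top, conn := D.conn, tup := D.tup }⟩

end Pool.Agent.Helper29.TW
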