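import Pool.Agent.Helper29.TW.DerIff
import Pool.Agent.Helper29.TW.DerSmall
import Pool.Agent.Helper29.TW.DerPump
import Pool.Agent.Helper29.TW.Card
import Pool.Agent.Helper29.TW.LinkSm

/-!
# Small and large structures with the same state
-/

set_option autoImplicit false

namespace Pool.Agent.Helper29.TW

open Pool.Agent.Helper20.Spectra Pool.Agent.Helper29.TD

variable {S : Type} {ar : S → ℕ}

lemma Sm.le {K : ℕ} {V : Type} [Finite V] {J : Interp S ar (Fin K ⊕ V)} {W : Set V}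
    {α β : Set (Fin K)} {c a b : ℕ} (h : Sm J W α β c a b) : a ≤ W.ncard ∧ b ≤ W.ncard := by
  obtain ⟨A, B, -, -, rfl, rfl⟩ := h
  exact ⟨Set.ncard_le_ncard Set.inter_subset_right (Set.toFinite _),
    Set.ncard_le_ncard Set.inter_subset_right (Set.toFinite _)⟩

theorem pump_down [Finite S] (q : ℕ) : ∃ F : ℕ → ℕ, Tow F ∧ ∀ (k : ℕ) (V : Type)
    (J : Interp S ar (Fin (6 * (k + 1)) ⊕ V)) (W : Set V), Gen S ar (6 * (k + 1)) ∅ V J →
    Linked (inn J) k W → ∃ (V' : Type) (J' : Interp S ar (Fin (6 * (k + 1)) ⊕ V')) (W' : Set V'),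
      Gen S ar (6 * (k + 1)) ∅ V' J' ∧ ty q J' = ty q J ∧ Linked (inn J') k W' ∧
      Nat.card V' ≤ F k := by
  refine ⟨fun k => 2 ^ Nat.card (Stt S ar q (6 * (k + 1)) k), (card_Stt q).two_pow, ?_⟩
  intro k V J W hG hL
  obtain ⟨hW, hL'⟩ := (linked_iff hG k W).1 hL
  obtain ⟨σ, hσ⟩ := exists_st q (k := k) ∅ J W hW.le
  obtain ⟨m, hm, hder⟩ := (der_of_gen hG W σ hσ).small
  obtain ⟨B', V', J', W', hG', hσ', hc⟩ := gen_of_der hder
  have hB : B' = ∅ := hσ'.1.symm.trans hσ.1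
  subst hB
  have := hG'.finite
  have hW' : W'.ncard = 5 * k := by
    rw [← hσ'.2.2.1, hσ.2.2.1, hW]
  refine ⟨V', J', W', hG', hσ'.2.1.symm.trans hσ.2.1, ?_, ?_⟩
  · rw [linked_iff hG' k W']
    refine ⟨hW', fun c a b hc' hs => ?_⟩
    obtain ⟨ha, hb⟩ := hs.le
    rw [hW'] at ha hb
    have h1 := (hσ'.2.2.2 (Set.univ, Set.univ, ⟨c, by omega⟩, ⟨a, by omega⟩, ⟨b, by omega⟩)).2 hs
    have h2 := (hσ.2.2.2 (Set.univ, Set.univ, ⟨c, by omega⟩, ⟨a, by omega⟩, ⟨b, by omega⟩)).1 h1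
    exact hL' c a b hc' h2
  · rw [hc]
    exact hm.le

theorem pump_up [Finite S] (q K : ℕ) : ∃ p N : ℕ, 1 ≤ p ∧ ∀ (V : Type)
    (J : Interp S ar (Fin K ⊕ V)), Gen S ar K ∅ V J → N ≤ Nat.card V →
    ∃ (V' : Type) (J' : Interp S ar (Fin K ⊕ V')), Gen S ar K ∅ V' J' ∧ ty q J' = ty q J ∧
      Nat.card V' = Nat.card V + p := by
  obtain ⟨p, N, hp, h⟩ := Der.pump (BSt S ar q K 0) (USt S ar q K 0) (JSt S ar q K 0)
  refine ⟨p, N, hp, fun V J hG hN => ?_⟩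
  obtain ⟨σ, hσ⟩ := exists_st q (k := 0) ∅ J (∅ : Set V) (by simp)
  obtain ⟨B', V', J', W', hG', hσ', hc⟩ := gen_of_der (h σ _ hN (der_of_gen hG _ σ hσ))
  have hB : B' = ∅ := hσ'.1.symm.trans hσ.1
  subst hB
  exact ⟨V', J', hG', hσ'.2.1.symm.trans hσ.2.1, hc⟩

end Pool.Agent.Helper29.TW
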