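import Pool.Agent.Helper29.TW.Base
import Pool.Agent.Helper29.TD.BFBasic

/-!
# Block TW-9: transport of the game

Induction on `q` for all `P ⊇ P0`.  `PIso`: by `h`.  A move `g x`, `x ∈ X`, is answered by `g' y` where `y ∈ Y` is the answer to `x` in the given
game; `Prod.map g g' '' insert (x, y) P ∪ Z = insert (g x, g' y) (Prod.map g g' '' P ∪ Z)`.
-/

set_option autoImplicit false

namespace Pool.Agent.Helper29.TW

open Pool.Agent.Helper20.Spectra Pool.Agent.Helper29.TD

variable {S : Type} {ar : S → ℕ}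

theorem bf_map {M N M₁ N₁ : Type} {I : Interp S ar M} {J : Interp S ar N} {R : Interp S ar M₁}
    {R' : Interp S ar N₁} {X : Set M} {Y : Set N} (g : M → M₁) (g' : N → N₁)
    (Z : Set (M₁ × N₁)) {P0 : Set (M × N)}
    (h : ∀ P : Set (M × N), P0 ⊆ P → PIso I J P → PIso R R' (Prod.map g g' '' P ∪ Z)) (q : ℕ) :
    ∀ {P : Set (M × N)}, P0 ⊆ P → BF I J X Y q P →
      BF R R' (g '' X) (g' '' Y) q (Prod.map g g' '' P ∪ Z) := by
  have e : ∀ (P : Set (M × N)) (x : M) (y : N), Prod.map g g' '' insert (x, y) P ∪ Z =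
      insert (g x, g' y) (Prod.map g g' '' P ∪ Z) := by
    intro P x y
    rw [Set.image_insert_eq, Set.insert_union]
    rfl
  induction q with
  | zero =>
    intro P hP hB
    exact h P hP hB
  | succ q ih =>
    rintro P hP ⟨hp, h1, h2⟩
    refine ⟨h P hP hp, ?_, ?_⟩
    · rintro _ ⟨x, hx, rfl⟩
      obtain ⟨y, hy, h3⟩ := h1 x hx
      refine ⟨g' y, ⟨y, hy, rfl⟩, ?_⟩
      rw [← e]
      exact ih (hP.trans (Set.subset_insert _ _)) h3
    · rintro _ ⟨y, hy, rfl⟩
      obtain ⟨x, hx, h3⟩ := h2 y hy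
      refine ⟨g x, ⟨x, hx, rfl⟩, ?_⟩
      rw [← e]
      exact ih (hP.trans (Set.subset_insert _ _)) h3

end Pool.Agent.Helper29.TW
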