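import Pool.Agent.Helper29.TD.Defs

/-!
# Spectra of sentences whose models have small tree-width: definitions
-/

set_option autoImplicit false

namespace Pool.Agent.Helper29.TW

open FirstOrder FirstOrder.Language Pool.Agent.Helper20.Spectra Pool.Agent.Helper29.TD

variable {S : Type} {ar : S → ℕ} {M : Type}

/-- A tree decomposition of `(M, I)` whose bags have at most `k` elements. The nodes form a finite
rooted tree, given by the parent function `par` (`dep` decreases along it). The nodes whose bag
contains `x` form a subtree with highest node `top x`. Every tuple of a relation is contained in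
a bag. -/
structure TreeDec (I : Interp S ar M) (k : ℕ) where
  T : Type
  fin : Finite T
  root : T
  par : T → T
  dep : T → ℕ
  dep_par : ∀ t, t ≠ root → dep (par t) < dep t
  bag : T → Finset M
  card_bag : ∀ t, (bag t).card ≤ k
  top : M → T
  mem_top : ∀ x, x ∈ bag (top x)
  conn : ∀ x t, x ∈ bag t → t ≠ top x → t ≠ root ∧ x ∈ bag (par t)
  tup : ∀ (s : S) (v : Fin (ar s) → M), I s v → ∃ t, ∀ i, v i ∈ bag t

/-- the tree-width of `(M, I)` is at most `w` -/
def TwLe (I : Interp S ar M) (w : ℕ) : Prop := Nonempty (TreeDec I (w + 1))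

/-- `A` is the spectrum of a first-order sentence `φ` in a finite relational vocabulary such that all
models of `φ` with `n` elements have tree-width at most `w n` -/
def NarrowSpectrum (w : ℕ → ℕ) (A : Set ℕ) : Prop :=
  ∃ (S : Type) (_ : Finite S) (ar : S → ℕ) (φ : (RelLang S ar).Sentence),
    (∀ (n : ℕ) (I : Interp S ar (Fin n)), 1 ≤ n → Sat I φ → TwLe I (w n)) ∧
    ∀ n : ℕ, n ∈ A ↔ (1 ≤ n ∧ ∃ I : Interp S ar (Fin n), Sat I φ)

end Pool.Agent.Helper29.TW
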