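import Pool.Agent.Helper29.TW.StCong

/-!
# Block TW-15: derivable states are the states of generated structures

(⇐) Induction on `Gen`, for all `W` and `σ`.  `join`: given `W : Set (V₁ ⊕ V₂)` with the state `σ`; `(Sum.inl ⁻¹' W).ncard ≤ W.ncard ≤ 5 * k`
(`ncard_sum`, third component of the state), so `exists_st` gives `σ₁`, `σ₂`; `JSt σ₁ σ₂ σ` holds by definition.  `forget`: the
same with `ncard_option`.  `Nat.card (V₁ ⊕ V₂)`, `Nat.card (Option V)`.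
(⇒) Induction on `Der`.  `base`: clear.  `unary`: the induction hypothesis gives `(V', J', W', B')` with the state `σ`, and
`USt σ τ` gives `(V, J, W, B, a)`.  Take `W'' := some '' W' ∪ {y | y = none ∧ none ∈ W}`: `some ⁻¹' W'' = W'`, and `none ∈ W'' ↔ none ∈ W`.
`a ∈ B' = σ.1 = B`.  `HasSt.fg`.  `join`: `W'' := Sum.inl '' W₁' ∪ Sum.inr '' W₂'`, `HasSt.jn`.
-/

set_option autoImplicit false

namespace Pool.Agent.Helper29.TW

open Pool.Agent.Helper20.Spectra Pool.Agent.Helper29.TD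

variable (S : Type) (ar : S → ℕ) (q K k : ℕ)

/-- the states of the structures without inner elements -/
def BSt (σ : Stt S ar q K k) : Prop :=
  ∃ (B : Finset (Fin K)) (J : Interp S ar (Fin K ⊕ Empty)) (W : Set Empty),
    (∀ (s : S) (v : Fin (ar s) → Fin K ⊕ Empty), J s v → ∀ i a, v i = Sum.inl a → a ∈ B) ∧
    HasSt B J W σ

/-- the states before and after a source becomes an inner element -/
def USt (σ τ : Stt S ar q K k) : Prop :=
  ∃ (V : Type) (_ : Finite V) (B : Finset (Fin K)) (J : Interp S ar (Fin K ⊕ V)) (a : Fin K)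
    (W : Set (Option V)), a ∈ B ∧ HasSt B J (some ⁻¹' W) σ ∧
    HasSt (B.erase a) (img (fg a) J) W τ

/-- the states of two structures and of the glued structure -/
def JSt (σ₁ σ₂ σ : Stt S ar q K k) : Prop :=
  ∃ (V₁ V₂ : Type) (_ : Finite V₁) (_ : Finite V₂) (B₁ B₂ : Finset (Fin K))
    (J₁ : Interp S ar (Fin K ⊕ V₁)) (J₂ : Interp S ar (Fin K ⊕ V₂)) (W : Set (V₁ ⊕ V₂)),
    HasSt B₁ J₁ (Sum.inl ⁻¹' W) σ₁ ∧ HasSt B₂ J₂ (Sum.inr ⁻¹' W) σ₂ ∧
    HasSt (B₁ ∪ B₂) (jn J₁ J₂) W σ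

variable {S ar q K k}

theorem der_of_gen {B : Finset (Fin K)} {V : Type} {J : Interp S ar (Fin K ⊕ V)}
    (h : Gen S ar K B V J) (W : Set V) (σ : Stt S ar q K k) (hσ : HasSt B J W σ) :
    Der (BSt S ar q K k) (USt S ar q K k) (JSt S ar q K k) σ (Nat.card V) := by
  induction h generalizing σ with
  | base B J hJ =>
    have h0 : Nat.card Empty = 0 := by simp
    rw [h0]
    exact Der.base σ ⟨B, J, W, hJ, hσ⟩
  | join B₁ B₂ V₁ V₂ J₁ J₂ h₁ h₂ ih₁ ih₂ =>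
    haveI := h₁.finite
    haveI := h₂.finite
    have hW : W.ncard ≤ 5 * k := by
      have h3 := hσ.2.2.1
      have h4 := σ.2.2.1.2
      omega
    have hs := ncard_sum W
    obtain ⟨σ₁, hσ₁⟩ := exists_st q (k := k) B₁ J₁ (Sum.inl ⁻¹' W) (by omega)
    obtain ⟨σ₂, hσ₂⟩ := exists_st q (k := k) B₂ J₂ (Sum.inr ⁻¹' W) (by omega)
    rw [Nat.card_sum]
    exact Der.join σ₁ σ₂ σ _ _ ⟨V₁, V₂, inferInstance, inferInstance, B₁, B₂, J₁, J₂, W, hσ₁, hσ₂, hσ⟩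
      (ih₁ _ _ hσ₁) (ih₂ _ _ hσ₂)
  | forget B V J a ha h ih =>
    haveI := h.finite
    have hW : W.ncard ≤ 5 * k := by
      have h3 := hσ.2.2.1
      have h4 := σ.2.2.1.2
      omega
    have hs := ncard_option W
    obtain ⟨σ', hσ'⟩ := exists_st q (k := k) B J (some ⁻¹' W) (by omega)
    rw [Finite.card_option]
    exact Der.unary σ' σ _ ⟨V, inferInstance, B, J, a, W, ha, hσ', hσ⟩ (ih _ _ hσ')

theorem gen_of_der {σ : Stt S ar q K k} {n : ℕ}
    (h : Der (BSt S ar q K k) (USt S ar q K k) (JSt S ar q K k) σ n) :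
    ∃ (B : Finset (Fin K)) (V : Type) (J : Interp S ar (Fin K ⊕ V)) (W : Set V),
      Gen S ar K B V J ∧ HasSt B J W σ ∧ Nat.card V = n := by
  induction h with
  | base σ hb =>
    obtain ⟨B, J, W, hJ, hs⟩ := hb
    exact ⟨B, Empty, J, W, Gen.base B J hJ, hs, by simp⟩
  | unary σ τ n hU _ ih =>
    obtain ⟨B', V', J', W', hG', hs', hc'⟩ := ih
    obtain ⟨V, hfin, B, J, a, W, ha, hs, ht⟩ := hU
    haveI := hG'.finite
    have hB : B' = B := hs'.1.symm.trans hs.1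
    have e1 : (some ⁻¹' (some '' W' ∪ {y : Option V' | y = none ∧ none ∈ W})) = W' := by
      ext x
      simp
    have e2 : none ∈ W ↔ none ∈ (some '' W' ∪ {y : Option V' | y = none ∧ none ∈ W}) := by
      simp
    refine ⟨B'.erase a, Option V', img (fg a) J', some '' W' ∪ {y : Option V' | y = none ∧ none ∈ W},
      Gen.forget B' V' J' a (by rw [hB]; exact ha) hG', HasSt.fg a e2 hs (by rw [e1]; exact hs') ht, ?_⟩
    rw [Finite.card_option, hc']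
  | join σ₁ σ₂ σ n₁ n₂ hJ _ _ ih₁ ih₂ =>
    obtain ⟨B₁', V₁', J₁', W₁', hG₁, hs₁, hc₁⟩ := ih₁
    obtain ⟨B₂', V₂', J₂', W₂', hG₂, hs₂, hc₂⟩ := ih₂
    obtain ⟨V₁, V₂, hf₁, hf₂, B₁, B₂, J₁, J₂, W, ht₁, ht₂, ht⟩ := hJ
    haveI := hG₁.finite
    haveI := hG₂.finite
    have e1 : (Sum.inl ⁻¹' (Sum.inl '' W₁' ∪ Sum.inr '' W₂' : Set (V₁' ⊕ V₂'))) = W₁' := by
      ext x
      simp
    have e2 : (Sum.inr ⁻¹' (Sum.inl '' W₁' ∪ Sum.inr '' W₂' : Set (V₁' ⊕ V₂'))) = W₂' := by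
      ext x
      simp
    refine ⟨B₁' ∪ B₂', V₁' ⊕ V₂', jn J₁' J₂', Sum.inl '' W₁' ∪ Sum.inr '' W₂',
      Gen.join B₁' B₂' V₁' V₂' J₁' J₂' hG₁ hG₂,
      HasSt.jn ht₁ (by rw [e1]; exact hs₁) ht₂ (by rw [e2]; exact hs₂) ht, ?_⟩
    rw [Nat.card_sum, hc₁, hc₂]

end Pool.Agent.Helper29.TW
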