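import Pool.Agent.Helper29.TW.LDefs
import Pool.Agent.Helper29.M.LM
import Pool.Agent.Helper99.M.MU

/-!
# Project TW, block LVL: the automorphisms over `K0` permute the places of a level above `b₀`
-/

set_option autoImplicit false
set_option linter.unusedSectionVars false

namespace Pool.Agent.TW

open VC Filter Topology NumberField IsDedekindDomain IntermediateField Pool.Agent.SC Pool.Agent.L
open Pool.Agent.M (OverPl Moves BPl)
open Pool.Agent.HG (Pr nm IsOdd)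

noncomputable section

section perm

variable {E K0 U : Type} [Field E] [Field K0] [Field U] [Algebra E U] [Algebra K0 U]

theorem map_L0_29 {T : U ≃+* U} (hK : ∀ x : K0, T (algebraMap K0 U x) = algebraMap K0 U x)
    (hE : ∀ e : E, ∃ e' : E, T (algebraMap E U e) = algebraMap E U e') {x : U}
    (hx : x ∈ L0 E K0 (U := U)) : T x ∈ L0 E K0 (U := U) := by
  refine map_adjoin29 hE ?_ hx
  rintro y ⟨y, rfl⟩
  rw [hK]
  exact subset_adjoin _ _ ⟨y, rfl⟩

/-- the automorphisms over `K0` which map `E` to `E` and fix the place `b₀` of `L0` -/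
def Gb29 (b₀ : Place E (L0 E K0 (U := U))) : Subgroup (U ≃+* U) where
  carrier := {T | (∀ x : K0, T (algebraMap K0 U x) = algebraMap K0 U x) ∧
    (∀ e : E, ∃ e' : E, T (algebraMap E U e) = algebraMap E U e') ∧
    (∀ e : E, ∃ e' : E, T.symm (algebraMap E U e) = algebraMap E U e') ∧
    Moves T (L0 E K0 (U := U)) b₀ b₀}
  one_mem' := ⟨fun _ => rfl, fun e => ⟨e, rfl⟩, fun e => ⟨e, rfl⟩, fun _ _ _ => Iff.rfl⟩
  mul_mem' := by
    rintro S T ⟨h1, h2, h3, h4⟩ ⟨g1, g2, g3, g4⟩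
    refine ⟨fun x => ?_, fun e => ?_, fun e => ?_, fun x hx hx' => ?_⟩
    · change S (T _) = _
      rw [g1, h1]
    · obtain ⟨e1, he1⟩ := g2 e
      obtain ⟨e2, he2⟩ := h2 e1
      refine ⟨e2, ?_⟩
      change S (T _) = _
      rw [he1, he2]
    · obtain ⟨e1, he1⟩ := h3 e
      obtain ⟨e2, he2⟩ := g3 e1
      refine ⟨e2, ?_⟩
      change T.symm (S.symm _) = _
      rw [he1, he2]
    · exact (g4 x hx (map_L0_29 g1 g2 hx)).trans (h4 _ (map_L0_29 g1 g2 hx) hx')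
  inv_mem' := by
    rintro T ⟨g1, g2, g3, g4⟩
    have g1' : ∀ x : K0, T.symm (algebraMap K0 U x) = algebraMap K0 U x := by
      intro x
      rw [RingEquiv.symm_apply_eq, g1]
    refine ⟨g1', g3, g2, fun x hx hx' => ?_⟩
    have e1 : T (T⁻¹ x) = x := T.apply_symm_apply x
    have h1 := g4 _ hx' (by rw [e1]; exact hx)
    refine Iff.trans ?_ h1.symm
    have h2 : (⟨T (T⁻¹ x), by rw [e1]; exact hx⟩ : L0 E K0 (U := U)) = ⟨x, hx⟩ := Subtype.ext e1
    rw [h2]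

variable {b₀ : Place E (L0 E K0 (U := U))} {N : IntermediateField E U}

/-- the action on the level `N` -/
def rs29 (hN : Lvl E K0 N) (T : Gb29 b₀) : N →+* N where
  toFun z := ⟨(T : U ≃+* U) z, hN.stab T.1 T.2.1 T.2.2.1 z z.2⟩
  map_one' := Subtype.ext (map_one (T : U ≃+* U))
  map_mul' x y := Subtype.ext (map_mul (T : U ≃+* U) (x : U) y)
  map_zero' := Subtype.ext (map_zero (T : U ≃+* U))
  map_add' x y := Subtype.ext (map_add (T : U ≃+* U) (x : U) y)

theorem rs29_inv (hN : Lvl E K0 N) (T : Gb29 b₀) (y : N) : rs29 hN T (rs29 hN T⁻¹ y) = y :=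
  Subtype.ext ((T : U ≃+* U).apply_symm_apply y)

theorem rs29_inv' (hN : Lvl E K0 N) (T : Gb29 b₀) (y : N) : rs29 hN T⁻¹ (rs29 hN T y) = y :=
  Subtype.ext ((T : U ≃+* U).symm_apply_apply y)

theorem rs29_mul (hN : Lvl E K0 N) (S T : Gb29 b₀) (y : N) :
    rs29 hN (S * T) y = rs29 hN S (rs29 hN T y) := rfl

/-- the image of a place -/
def im29 (hN : Lvl E K0 N) (T : Gb29 b₀) (Q : Place E N) : Place E N where
  ring := Q.ring.comap (rs29 hN T⁻¹)
  algebraMap_mem a := by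
    obtain ⟨a', ha'⟩ := T.2.2.2.1 a
    rw [ValuationSubring.mem_comap]
    have h1 : rs29 hN T⁻¹ (algebraMap E N a) = algebraMap E N a' := Subtype.ext ha'
    rw [h1]
    exact Q.algebraMap_mem a'
  ne_top h := by
    apply Q.ne_top
    rw [eq_top_iff]
    intro y _
    have h1 : rs29 hN T y ∈ Q.ring.comap (rs29 hN T⁻¹) := by rw [h]; exact ValuationSubring.mem_top _
    rw [ValuationSubring.mem_comap, rs29_inv'] at h1
    exact h1

theorem mem_im29 (hN : Lvl E K0 N) (T : Gb29 b₀) (Q : Place E N) (y : N) :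
    y ∈ (im29 hN T Q).ring ↔ rs29 hN T⁻¹ y ∈ Q.ring := Iff.rfl

theorem moves_im29 (hN : Lvl E K0 N) (T : Gb29 b₀) (Q Q' : Place E N) :
    Moves (T : U ≃+* U) N Q Q' ↔ im29 hN T Q = Q' := by
  constructor
  · intro h
    ext y
    rw [mem_im29]
    have h1 := h (rs29 hN T⁻¹ y) (rs29 hN T⁻¹ y).2 (rs29 hN T (rs29 hN T⁻¹ y)).2
    have h2 : (⟨(T : U ≃+* U) (rs29 hN T⁻¹ y), (rs29 hN T (rs29 hN T⁻¹ y)).2⟩ : N) = y :=
      rs29_inv hN T y
    rw [h2] at h1
    exact h1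
  · rintro rfl x hx hx'
    rw [mem_im29]
    have h2 : rs29 hN T⁻¹ ⟨(T : U ≃+* U) x, hx'⟩ = ⟨x, hx⟩ := rs29_inv' hN T ⟨x, hx⟩
    rw [h2]

theorem L0_le29 (hN : Lvl E K0 N) : L0 E K0 (U := U) ≤ N := by
  unfold L0
  rw [IntermediateField.adjoin_le_iff]
  rintro _ ⟨x, rfl⟩
  exact hN.le x

theorem over_im29 (hN : Lvl E K0 N) (T : Gb29 b₀) {Q : Place E N} (hQ : OverPl b₀ Q) :
    OverPl b₀ (im29 hN T Q) := by
  intro x hx hx'
  have hx1 : (T⁻¹ : Gb29 b₀).1 x ∈ L0 E K0 (U := U) :=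
    map_L0_29 (T⁻¹ : Gb29 b₀).2.1 (T⁻¹ : Gb29 b₀).2.2.1 hx
  rw [mem_im29]
  refine ((T⁻¹ : Gb29 b₀).2.2.2.2 x hx hx1).trans ?_
  exact hQ _ hx1 (L0_le29 hN hx1)

/-- the places of the level `N` above `b₀` -/
def PP29 (b₀ : Place E (L0 E K0 (U := U))) (N : IntermediateField E U) : Type :=
  {Q : Place E N // OverPl b₀ Q}

/-- the action on the places above `b₀` -/
def act29 (hN : Lvl E K0 N) : MulAction (Gb29 b₀) (PP29 b₀ N) where
  smul T Q := ⟨im29 hN T Q.1, over_im29 hN T Q.2⟩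
  one_smul Q := by
    apply Subtype.ext
    refine (moves_im29 hN 1 Q.1 Q.1).1 ?_
    intro x hx hx'
    exact Iff.rfl
  mul_smul S T Q := by
    apply Subtype.ext
    change im29 hN (S * T) Q.1 = im29 hN S (im29 hN T Q.1)
    ext y
    rw [mem_im29, mem_im29, mem_im29, mul_inv_rev, rs29_mul]

/-- the permutation representation -/
def pi29 (hN : Lvl E K0 N) : Gb29 b₀ →* Equiv.Perm (PP29 b₀ N) :=
  letI := act29 (b₀ := b₀) hN
  MulAction.toPermHom _ _

theorem pi29_apply (hN : Lvl E K0 N) (T : Gb29 b₀) (Q : PP29 b₀ N) :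
    (pi29 hN T Q).1 = im29 hN T Q.1 := rfl

theorem moves_pi29 (hN : Lvl E K0 N) (T : Gb29 b₀) (Q Q' : PP29 b₀ N) :
    Moves (T : U ≃+* U) N Q.1 Q'.1 ↔ pi29 hN T Q = Q' := by
  rw [moves_im29 hN, ← pi29_apply]
  exact Subtype.ext_iff.symm

/-- finitely many elements of `N` determine the permutation -/
theorem exists_sep29 [IsAlgClosed E] (hN : Lvl E K0 N) [Finite (PP29 b₀ N)] :
    ∃ Z : Finset U, (∀ z ∈ Z, z ∈ N) ∧ ∀ S T : Gb29 b₀,
      (∀ z ∈ Z, (S : U ≃+* U) z = (T : U ≃+* U) z) → pi29 hN S = pi29 hN T := by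
  classical
  have h1 : ∀ q : PP29 b₀ N × PP29 b₀ N, ∃ z : N, q.1 ≠ q.2 → z ∈ q.1.1.ring ∧ z ∉ q.2.1.ring := by
    intro q
    by_cases hq : q.1 = q.2
    · exact ⟨0, fun h => absurd hq h⟩
    · obtain ⟨z, hz⟩ := FF.exists_mem_notMem hN.ff (fun h => hq (Subtype.ext h))
      exact ⟨z, fun _ => hz⟩
  choose z hz using h1
  have := Fintype.ofFinite (PP29 b₀ N)
  refine ⟨Finset.univ.image fun q => (z q : U), ?_, fun S T hST => ?_⟩
  · intro y hy
    obtain ⟨q, -, rfl⟩ := Finset.mem_image.1 hy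
    exact (z q).2
  · ext1 Q
    by_contra hne
    set R := (pi29 hN T)⁻¹ (pi29 hN S Q) with hR
    have hTR : pi29 hN T R = pi29 hN S Q := by
      rw [hR, ← Equiv.Perm.mul_apply, mul_inv_cancel]
      rfl
    have hQR : Q ≠ R := by
      intro h
      apply hne
      rw [← hTR, ← h]
    obtain ⟨h2, h3⟩ := hz (Q, R) hQR
    apply h3
    have h4 : rs29 hN S (z (Q, R)) ∈ (pi29 hN S Q).1.ring := by
      rw [pi29_apply, mem_im29, rs29_inv']
      exact h2
    rw [← hTR, pi29_apply, mem_im29] at h4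
    have h5 : rs29 hN S (z (Q, R)) = rs29 hN T (z (Q, R)) :=
      Subtype.ext (hST _ (Finset.mem_image_of_mem _ (Finset.mem_univ _)))
    rw [h5, rs29_inv'] at h4
    exact h4

end perm

end

end Pool.Agent.TW
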