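import Pool.Agent.Helper29.TW.Geo1

/-!
# Project TW, block LVL: finiteness, transitivity and the elementary abelian group
-/

set_option autoImplicit false
set_option linter.unusedSectionVars false

namespace Pool.Agent.TW

open VC Filter Topology NumberField IsDedekindDomain IntermediateField Pool.Agent.SC Pool.Agent.L
open Pool.Agent.M (OverPl Moves BPl conj99)
open Pool.Agent.HG (Pr nm IsOdd)

noncomputable section

section perm

variable {E K0 U : Type} [Field E] [Field K0] [Field U] [Algebra E U] [Algebra K0 U]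
  {b₀ : Place E (L0 E K0 (U := U))} {N : IntermediateField E U}

/-- finitely many places above `b₀` -/
theorem finite29 [IsAlgClosed E] [CharZero E] (ff : IsFunctionField E (L0 E K0 (U := U)))
    (hN : Lvl E K0 N) : Finite (PP29 b₀ N) := by
  obtain ⟨t, ht0, ht⟩ := FF.exists_uniformizer ff b₀
  have htn : t ∈ b₀.ring.nonunits := by
    by_contra hcon
    have h1 : ord b₀.ring t = 0 := by
      rw [ValuationSubring.mem_nonunits_iff_or, not_or, not_not] at hcon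
      have h2 : t ∈ b₀.ring := (FF.ord_nonneg_iff ff b₀ ht0).1 (by rw [ht]; norm_num)
      have h3 : 0 ≤ ord b₀.ring t⁻¹ := (FF.ord_nonneg_iff ff b₀ (inv_ne_zero ht0)).2 hcon.2
      rw [FF.ord_inv ff b₀ ht0, ht] at h3
      norm_num at h3
    rw [ht] at h1
    norm_num at h1
  set x : N := ⟨t, L0_le29 hN t.2⟩ with hx
  have hx0 : x ≠ 0 := fun h => ht0 (Subtype.ext (congrArg (fun z : N => (z : U)) h))
  have hmem : ∀ Q : PP29 b₀ N, x ∈ Q.1.ring.nonunits := by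
    intro Q
    rw [ValuationSubring.mem_nonunits_iff_or] at htn ⊢
    rcases htn with h1 | h1
    · exact absurd h1 ht0
    · right
      intro h2
      apply h1
      have h3 := Q.2 _ (t⁻¹).2 (L0_le29 hN (t⁻¹).2)
      refine h3.2 ?_
      exact h2
  rcases isEmpty_or_nonempty (PP29 b₀ N) with h | ⟨⟨Q₀⟩⟩
  · infer_instance
  · have htr : Transcendental E x := transcendental_of_mem_nonunits Q₀.1 hx0 (hmem Q₀)
    have h1 := finite_zeros hN.ff htr
    have h2 : Finite {P : Place E N | x ∈ P.ring.nonunits} := h1.to_subtype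
    exact Finite.of_injective (fun Q : PP29 b₀ N =>
      (⟨Q.1, hmem Q⟩ : {P : Place E N | x ∈ P.ring.nonunits})) fun Q Q' h =>
        Subtype.ext (congrArg (fun z : {P : Place E N | x ∈ P.ring.nonunits} => z.1) h)

/-- The automorphisms over `L0` act transitively. -/
theorem trans29 [IsAlgClosed E] [CharZero E] [IsGalois (L0 E K0 (U := U)) U]
    (hN : Lvl E K0 N) (P P' : PP29 b₀ N) :
    ∃ a : U ≃ₐ[E] U, (∀ x ∈ L0 E K0 (U := U), a x = x) ∧ Moves a.toRingEquiv N P.1 P'.1 := by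
  obtain ⟨W, hW⟩ := _root_.SC.exists_place_over (K := E) (M := N) (N := U) P.1
  obtain ⟨W', hW'⟩ := _root_.SC.exists_place_over (K := E) (M := N) (N := U) P'.1
  obtain ⟨a, ha, h1⟩ := conj99 (E := E) (K0 := K0) W.ring W'.ring (by
    intro x hx
    have h2 := hW ⟨x, L0_le29 hN hx⟩
    have h3 := hW' ⟨x, L0_le29 hN hx⟩
    have h4 := P.2 x hx (L0_le29 hN hx)
    have h5 := P'.2 x hx (L0_le29 hN hx)
    exact h2.trans (h4.symm.trans (h5.trans h3.symm)))
  refine ⟨a, ha, fun x hx hx' => ?_⟩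
  exact (hW ⟨x, hx⟩).symm.trans ((h1 x).symm.trans (hW' ⟨a x, hx'⟩))

/-- the automorphisms over `L0` -/
theorem mem_Gb29 {a : U ≃ₐ[E] U} (ha : ∀ x ∈ L0 E K0 (U := U), a x = x) :
    a.toRingEquiv ∈ Gb29 b₀ := by
  refine ⟨fun x => ha _ (subset_adjoin _ _ ⟨x, rfl⟩), fun e => ⟨e, a.commutes e⟩,
    fun e => ⟨e, a.symm.commutes e⟩, fun x hx hx' => ?_⟩
  have h1 : (⟨a.toRingEquiv x, hx'⟩ : L0 E K0 (U := U)) = ⟨x, hx⟩ := Subtype.ext (ha x hx)
  rw [h1]

/-- the automorphisms over `L0`, as a subgroup -/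
def H29 (b₀ : Place E (L0 E K0 (U := U))) : Subgroup (Gb29 b₀) where
  carrier := {T | ∀ x ∈ L0 E K0 (U := U), (T : U ≃+* U) x = x}
  one_mem' := fun _ _ => rfl
  mul_mem' := by
    intro S T hS hT x hx
    change (S : U ≃+* U) ((T : U ≃+* U) x) = x
    rw [hT x hx, hS x hx]
  inv_mem' := by
    intro T hT x hx
    change (T : U ≃+* U).symm x = x
    rw [RingEquiv.symm_apply_eq, hT x hx]

/-- its image in the group of permutations -/
def A29 (hN : Lvl E K0 N) : Subgroup (Equiv.Perm (PP29 b₀ N)) := (H29 b₀).map (pi29 hN)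

theorem exists_alg29 {T : Gb29 b₀} (hT : T ∈ H29 b₀) :
    ∃ a : U ≃ₐ[E] U, (∀ x ∈ L0 E K0 (U := U), a x = x) ∧ ∀ x, a x = (T : U ≃+* U) x :=
  ⟨AlgEquiv.ofRingEquiv (f := (T : U ≃+* U)) fun e => hT _ ((L0 E K0 (U := U)).algebraMap_mem e),
    hT, fun _ => rfl⟩

theorem A29_sq (hN : Lvl E K0 N)
    (hex : ∀ a : U ≃ₐ[E] U, (∀ x ∈ L0 E K0 (U := U), a x = x) → ∀ x ∈ N, a (a x) = x)
    {s : Equiv.Perm (PP29 b₀ N)} (hs : s ∈ A29 (b₀ := b₀) hN) : s * s = 1 := by
  obtain ⟨T, hT, rfl⟩ := hs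
  obtain ⟨a, ha, haT⟩ := exists_alg29 hT
  rw [← map_mul]
  ext1 Q
  refine (moves_pi29 hN (T * T) Q Q).1 fun x hx hx' => ?_
  have h1 : ((T * T : Gb29 b₀) : U ≃+* U) x = x := by
    change (T : U ≃+* U) ((T : U ≃+* U) x) = x
    rw [← haT, ← haT]
    exact hex a ha x hx
  have h2 : (⟨((T * T : Gb29 b₀) : U ≃+* U) x, hx'⟩ : N) = ⟨x, hx⟩ := Subtype.ext h1
  rw [h2]

/-- an element of the group with a fixed point is trivial -/
theorem A29_fix [IsAlgClosed E] [CharZero E] [IsGalois (L0 E K0 (U := U)) U] (hN : Lvl E K0 N)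
    (hex : ∀ a : U ≃ₐ[E] U, (∀ x ∈ L0 E K0 (U := U), a x = x) → ∀ x ∈ N, a (a x) = x)
    {s : Equiv.Perm (PP29 b₀ N)} (hs : s ∈ A29 (b₀ := b₀) hN) {Q : PP29 b₀ N} (hQ : s Q = Q) :
    s = 1 := by
  ext1 R
  obtain ⟨a, ha, hm⟩ := trans29 hN Q R
  set t := pi29 hN ⟨a.toRingEquiv, mem_Gb29 ha⟩ with ht
  have ha' : (⟨a.toRingEquiv, mem_Gb29 ha⟩ : Gb29 b₀) ∈ H29 b₀ := fun x hx => ha x hx
  have htA : t ∈ A29 (b₀ := b₀) hN := ⟨_, ha', rfl⟩
  have htQ : t Q = R := (moves_pi29 hN _ Q R).1 hm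
  have h1 := A29_sq hN hex (mul_mem hs htA)
  have h2 := A29_sq hN hex hs
  have h3 := A29_sq hN hex htA
  have h4 : s * t = t * s := by
    have h5 : s * t = (s * t)⁻¹ := eq_inv_of_mul_eq_one_left h1
    rw [h5, mul_inv_rev, ← eq_inv_of_mul_eq_one_left h2, ← eq_inv_of_mul_eq_one_left h3]
  calc s R = (s * t) Q := by rw [Equiv.Perm.mul_apply, htQ]
    _ = (t * s) Q := by rw [h4]
    _ = R := by rw [Equiv.Perm.mul_apply, hQ, htQ]

end perm

end

end Pool.Agent.TW
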