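import Pool.Agent.Helper29.TW.Geo2
import Pool.Agent.SC.Family

/-!
# Project TW, block LVL: the action of the absolute Galois group on the places above `b₀`
-/

set_option autoImplicit false
set_option linter.unusedSectionVars false

namespace Pool.Agent.TW

open VC Filter Topology NumberField IsDedekindDomain IntermediateField Pool.Agent.SC Pool.Agent.L
open Pool.Agent.M (OverPl Moves BPl conj99)
open Pool.Agent.HG (Pr nm IsOdd)

noncomputable section

section geo

variable {k K0 E U : Type} [Field k] [NumberField k] [Field K0] [Field E] [Field U] [Algebra k K0]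
  [Algebra k E] [Algebra E U] [Algebra K0 U] [Algebra k U] [IsScalarTower k E U]
  [IsScalarTower k K0 U] {h : K0} {r : U}

theorem gal29 (G : Geo k K0 E U h r) : IsGalois (L0 E K0 (U := U)) U := by
  have hcE : CharZero E := charZero_of_injective_algebraMap (algebraMap k E).injective
  have hn : Normal K0 U := G.normal
  have hKL : ∀ x : K0, algebraMap K0 U x ∈ L0 E K0 (U := U) :=
    fun x => IntermediateField.subset_adjoin _ _ ⟨x, rfl⟩
  have hcL : CharZero (L0 E K0 (U := U)) :=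
    charZero_of_injective_algebraMap (algebraMap E (L0 E K0 (U := U))).injective
  let aKL : Algebra K0 (L0 E K0 (U := U)) :=
    (RingHom.codRestrict (algebraMap K0 U) (L0 E K0 (U := U)) hKL).toAlgebra
  have sKL : IsScalarTower K0 (L0 E K0 (U := U)) U := IsScalarTower.of_algebraMap_eq fun x => rfl
  have hnL : Normal (L0 E K0 (U := U)) U := Normal.tower_top_of_normal K0 (L0 E K0 (U := U)) U
  exact ⟨⟩

/-- an automorphism of a level over `L0` extends to `U` -/
theorem exists_ext29 [IsGalois (L0 E K0 (U := U)) U] {N : IntermediateField E U}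
    (hLN : L0 E K0 (U := U) ≤ N) (b : N ≃ₐ[E] N)
    (hb : ∀ x : N, (x : U) ∈ L0 E K0 (U := U) → b x = x) :
    ∃ a : U ≃ₐ[E] U, (∀ x ∈ L0 E K0 (U := U), a x = x) ∧ ∀ x : N, a x = b x := by
  let _ : Algebra (L0 E K0 (U := U)) N := (IntermediateField.inclusion hLN).toRingHom.toAlgebra
  have : IsScalarTower (L0 E K0 (U := U)) N U := IsScalarTower.of_algebraMap_eq fun x => rfl
  let b' : N ≃ₐ[L0 E K0 (U := U)] N := AlgEquiv.ofRingEquiv (f := b.toRingEquiv) fun x =>
    hb (algebraMap (L0 E K0 (U := U)) N x) x.2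
  refine ⟨AlgEquiv.ofRingEquiv (f := (b'.liftNormal U).toRingEquiv) fun e => ?_, fun x hx => ?_,
    fun x => ?_⟩
  · exact (b'.liftNormal U).commutes (algebraMap E (L0 E K0 (U := U)) e)
  · exact (b'.liftNormal U).commutes ⟨x, hx⟩
  · exact b'.liftNormal_commutes U x

/-- an automorphism which fixes finitely many constants acts like one over `L0` -/
theorem k3_29 (hK3 : StmtK3) (G : Geo k K0 E U h r) {b₀ : Place E (L0 E K0 (U := U))}
    {N : IntermediateField E U} (hN : Lvl E K0 N) {Z : Finset U}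
    (hZ : ∀ S T : Gb29 b₀, (∀ z ∈ Z, (S : U ≃+* U) z = (T : U ≃+* U) z) →
      pi29 hN S = pi29 hN T) :
    ∃ C : Finset E, ∀ T : Gb29 b₀, (∀ e ∈ C, (T : U ≃+* U) (algebraMap E U e) = algebraMap E U e) →
      pi29 hN T ∈ A29 (b₀ := b₀) hN := by
  have hgal := gal29 G
  obtain ⟨Z', C, N3, hZZ, -, hN3, -, -, -, hex⟩ := hK3 k K0 E U h r G Z
  refine ⟨C, fun T hT => ?_⟩
  obtain ⟨b, hb, hbT⟩ := hex T T.2.1 T.2.2.1 hT
  have hLN : L0 E K0 (U := U) ≤ N3 := by
    rw [hN3]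
    exact adjoin.mono _ _ _ Set.subset_union_left
  have hZN : ∀ z ∈ Z', z ∈ N3 := by
    intro z hz
    rw [hN3]
    exact subset_adjoin _ _ (Or.inr hz)
  obtain ⟨a, ha, hab⟩ := exists_ext29 hLN b hb
  have ha' : (⟨a.toRingEquiv, mem_Gb29 ha⟩ : Gb29 b₀) ∈ H29 b₀ := fun x hx => ha x hx
  refine ⟨_, ha', hZ _ _ fun z hz => ?_⟩
  have h1 := hbT ⟨z, hZN z (hZZ hz)⟩ (hZZ hz)
  have h2 := hab ⟨z, hZN z (hZZ hz)⟩
  exact h2.trans h1.symm

/-- the action in the group `Gb29` -/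
def phi29 {b₀ : Place E (L0 E K0 (U := U))} {c : k} {Φ : (E ≃ₐ[k] E) →* (U ≃+* U)}
    (hΦ : Act (K0 := K0) r c Φ) (hfix : ∀ σ, Moves (Φ σ) _ b₀ b₀) : (E ≃ₐ[k] E) →* Gb29 b₀ :=
  Φ.codRestrict (Gb29 b₀) fun σ => ⟨hΦ.fixK σ, fun e => ⟨σ e, hΦ.const σ e⟩, fun e => ⟨σ.symm e, by
    rw [RingEquiv.symm_apply_eq, hΦ.const, AlgEquiv.apply_symm_apply]⟩, hfix σ⟩

theorem phi29_apply {b₀ : Place E (L0 E K0 (U := U))} {c : k} {Φ : (E ≃ₐ[k] E) →* (U ≃+* U)}
    (hΦ : Act (K0 := K0) r c Φ) (hfix : ∀ σ, Moves (Φ σ) _ b₀ b₀) (σ : E ≃ₐ[k] E) :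
    (phi29 hΦ hfix σ : U ≃+* U) = Φ σ := rfl

/-- restriction of a fixed place -/
theorem exists_down29 [IsAlgClosed E] [CharZero E] [IsGalois (L0 E K0 (U := U)) U]
    {b₀ : Place E (L0 E K0 (U := U))} {N N' : IntermediateField E U} (hN' : Lvl E K0 N')
    (hle : N' ≤ N) {Q : Place E N} (hQ : OverPl b₀ Q) :
    ∃ Q' : PP29 b₀ N', ∀ T : Gb29 b₀, Moves (T : U ≃+* U) N Q Q → pi29 hN' T Q' = Q' := by
  let _ : Algebra (L0 E K0 (U := U)) N' :=
    (IntermediateField.inclusion (L0_le29 hN')).toRingHom.toAlgebra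
  have : IsScalarTower (L0 E K0 (U := U)) N' U := IsScalarTower.of_algebraMap_eq fun x => rfl
  have halg : Algebra.IsAlgebraic N' U := Algebra.IsAlgebraic.tower_top (K := L0 E K0 (U := U)) N'
  obtain ⟨W, hW⟩ := _root_.SC.exists_place_over (K := E) (M := N) (N := U) Q
  have hWN : ∀ (x : U) (hx : x ∈ N), (⟨x, hx⟩ : N) ∈ Q.ring ↔ x ∈ W.ring := fun x hx =>
    (hW ⟨x, hx⟩).symm
  set Q' : Place E N' := resPlace W.ring W.algebraMap_mem N'
    (exists_notMem_of_algebraic W.ne_top) with hQ'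
  have h1 : ∀ (x : U) (hx' : x ∈ N') , (⟨x, hx'⟩ : N') ∈ Q'.ring ↔ (⟨x, hle hx'⟩ : N) ∈ Q.ring :=
    fun x hx' => (hWN x (hle hx')).symm
  refine ⟨⟨Q', fun x hx hx' => ?_⟩, fun T hT => (moves_pi29 hN' T _ _).1 fun x hx hx' => ?_⟩
  · rw [h1]
    exact hQ x hx (hle hx')
  · rw [h1, h1]
    exact hT x (hle hx) (hle hx')

end geo

section ram

/-- If an inertia element moves a square root of `c`, then `v(c)` is odd. -/
theorem ram29 {k E : Type} [Field k] [NumberField k] [Field E] [Algebra k E]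
    {v : Pr k} {O : ValuationSubring E} (hO : OverV v O)
    (h2 : O.valuation (2 : E) = 1) {τ : E ≃ₐ[k] E}
    (hτ : Inert O τ.toRingEquiv) {c : k} (hc : c ≠ 0) {d₀ : E} (hd₀ : d₀ ^ 2 = algebraMap k E c)
    (hτd₀ : τ d₀ ≠ d₀) : IsOdd v c := by
  intro d hd
  have hd₀0 : d₀ ≠ 0 := by
    intro h0
    rw [h0, map_zero] at hτd₀
    exact hτd₀ rfl
  have hd0 : d ≠ 0 := by
    intro h0
    rw [h0, map_zero, zero_pow two_ne_zero] at hd
    exact (Valuation.ne_zero_iff _).2 hc hd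
  have hdE : algebraMap k E d ≠ 0 := (_root_.map_ne_zero _).2 hd0
  have hu2 : v.valuation k (c / d ^ 2) = 1 := by
    rw [map_div₀, map_pow, hd]
    exact div_self (pow_ne_zero 2 ((Valuation.ne_zero_iff _).2 hd0))
  have h2' : O.valuation (algebraMap k E (c / d ^ 2)) = 1 := by
    apply le_antisymm
    · rw [O.valuation_le_one_iff]
      exact (hO _).2 hu2.le
    · have h3 : O.valuation (algebraMap k E (c / d ^ 2)⁻¹) ≤ 1 := by
        rw [O.valuation_le_one_iff]
        refine (hO _).2 ?_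
        rw [map_inv₀, hu2, inv_one]
      rw [map_inv₀, map_inv₀] at h3
      refine (inv_le_one₀ (zero_lt_iff.2 ?_)).1 h3
      rw [Valuation.ne_zero_iff, _root_.map_ne_zero]
      exact div_ne_zero hc (pow_ne_zero 2 hd0)
  have h3 : (d₀ / algebraMap k E d) ^ 2 = algebraMap k E (c / d ^ 2) := by
    rw [div_pow, hd₀, map_div₀, map_pow]
  have h4 : O.valuation (d₀ / algebraMap k E d) = 1 := by
    rw [← h3, map_pow] at h2'
    exact (pow_eq_one_iff_of_nonneg zero_le two_ne_zero).1 h2'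
  have h5 : d₀ / algebraMap k E d ∈ O := by
    rw [← O.valuation_le_one_iff, h4]
  have h6 := hτ.res _ h5
  have h7 : τ d₀ = -d₀ := by
    have h8 : τ d₀ ^ 2 = d₀ ^ 2 := by rw [← map_pow, hd₀, AlgEquiv.commutes]
    rcases sq_eq_sq_iff_eq_or_eq_neg.1 h8 with h9 | h9
    · exact absurd h9 hτd₀
    · exact h9
  have h9 : τ.toRingEquiv (d₀ / algebraMap k E d) - d₀ / algebraMap k E d =
      -(2 * (d₀ / algebraMap k E d)) := by
    have h8 : τ.toRingEquiv (d₀ / algebraMap k E d) = τ d₀ / algebraMap k E d := by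
      show τ (d₀ / algebraMap k E d) = _
      rw [map_div₀, AlgEquiv.commutes]
    rw [h8, h7]
    ring
  rw [h9, Valuation.map_neg, map_mul, h2, h4, mul_one] at h6
  exact lt_irrefl _ h6

end ram

end

end Pool.Agent.TW
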