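import Pool.Agent.Helper97.TW.Defs

/-!
# Project TW, block LVL: the arithmetic half (statements)
-/

set_option autoImplicit false

namespace Pool.Agent.TW

open VC Filter Topology NumberField IsDedekindDomain IntermediateField Pool.Agent.SC Pool.Agent.L
open Pool.Agent.HG (Pr nm IsOdd)

/-- The action of the absolute Galois group on a finite set `P` (the places of a level above `b₀`) for a twist by
`c`: on an open subgroup it is given by elements of the elementary abelian group `A`, it is unramified outside `Bad`,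
and a Frobenius element at `v ∉ Bad` with `v(c)` odd has a fixed point. -/
structure Rep {k E : Type} [Field k] [NumberField k] [Field E] [Algebra k E] {P : Type}
    (A : Subgroup (Equiv.Perm P)) (L : IntermediateField k E) (Bad : Set (Pr k)) (c : k)
    (ρ : (E ≃ₐ[k] E) →* Equiv.Perm P) : Prop where
  cont : ∃ L' : IntermediateField k E, FiniteDimensional k L' ∧
    ∀ g : E ≃ₐ[k] E, (∀ x ∈ L', g x = x) → ρ g = 1
  mem : ∀ g : E ≃ₐ[k] E, (∀ x ∈ L, g x = x) → ρ g ∈ A
  unr : ∀ v ∉ Bad, ∀ O : ValuationSubring E, OverV v O → ∀ τ : E ≃ₐ[k] E,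
    Inert O τ.toRingEquiv → ρ τ = 1
  odd : ∀ v ∉ Bad, IsOdd v c → ∃ (O : ValuationSubring E) (F : E ≃ₐ[k] E) (p f : ℕ),
    DecPt v O F p f ∧ ∃ x : P, ρ F x = x

/-- BLOCK LVF (from `StmtHF`): there are finitely many such actions. -/
def StmtLVF : Prop :=
  ∀ (k E : Type) [Field k] [NumberField k] [Field E] [IsAlgClosed E] [Algebra k E]
    [Algebra.IsAlgebraic k E] (P : Type) [Finite P] (A : Subgroup (Equiv.Perm P)),
    (∀ a ∈ A, a * a = 1) → ∀ L : IntermediateField k E, FiniteDimensional k L →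
    ∀ Bad : Set (Pr k), Bad.Finite →
    {ρ : (E ≃ₐ[k] E) →* Equiv.Perm P | ∃ c : k, Rep A L Bad c ρ}.Finite

/-- BLOCK LVA (from `StmtLVF`, `StmtW3`, `StmtCT`): for almost no `c` there is such an action with an element without
fixed point. -/
def StmtLVA : Prop :=
  ∀ (k E : Type) [Field k] [NumberField k] [Field E] [IsAlgClosed E] [Algebra k E]
    [Algebra.IsAlgebraic k E] (P : Type) [Finite P] (A : Subgroup (Equiv.Perm P)),
    (∀ a ∈ A, a * a = 1) → ∀ L : IntermediateField k E, FiniteDimensional k L →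
    ∀ Bad : Set (Pr k), Bad.Finite →
    Rare fun c : k => ∃ ρ : (E ≃ₐ[k] E) →* Equiv.Perm P, Rep A L Bad c ρ ∧
      ∃ σ : E ≃ₐ[k] E, ∀ x : P, ρ σ x ≠ x

end Pool.Agent.TW
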