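import Pool.Agent.Helper29.TW.Geo3
import Pool.Agent.Helper22.M.W4

/-!
# Project TW, block LVL
-/

set_option autoImplicit false
set_option linter.unusedSectionVars false

namespace Pool.Agent.TW

open VC Filter Topology NumberField IsDedekindDomain IntermediateField Pool.Agent.SC Pool.Agent.L
open Pool.Agent.M (OverPl Moves BPl)
open Pool.Agent.HG (Pr nm IsOdd)

noncomputable section

section rep

variable {k K0 E U : Type} [Field k] [NumberField k] [Field K0] [Field E] [Field U] [Algebra k K0]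
  [Algebra k E] [Algebra E U] [Algebra K0 U] [Algebra k U] [IsScalarTower k E U]
  [IsScalarTower k K0 U] {h : K0} {r : U}

/-- conjugation of inertia elements -/
theorem inert_conj29 {O O' : ValuationSubring E} {g τ : E ≃ₐ[k] E} (hg : ∀ z : E, g z ∈ O' ↔ z ∈ O)
    (hτ : Inert O τ.toRingEquiv) : Inert O' (g * τ * g⁻¹).toRingEquiv := by
  have hg' : ∀ z : E, g⁻¹ z ∈ O ↔ z ∈ O' := by
    intro z
    rw [← hg, ← AlgEquiv.mul_apply, mul_inv_cancel, AlgEquiv.one_apply]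
  have hst : ∀ z, τ z ∈ O ↔ z ∈ O := hτ.stab
  have hnu : ∀ z : E, O.valuation z < 1 → O'.valuation (g z) < 1 := by
    intro z hz
    rw [← ValuationSubring.mem_nonunits_iff, ValuationSubring.mem_nonunits_iff_or] at hz ⊢
    rcases hz with rfl | hz
    · left
      exact map_zero g
    · right
      rw [← map_inv₀, hg]
      exact hz
  refine ⟨fun z => ?_, fun z hz => ?_⟩
  · change (g * τ * g⁻¹) z ∈ O' ↔ z ∈ O'
    rw [AlgEquiv.mul_apply, AlgEquiv.mul_apply, hg, hst, hg']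
  · change O'.valuation ((g * τ * g⁻¹) z - z) < 1
    have e : (g * τ * g⁻¹) z - z = g (τ (g⁻¹ z) - g⁻¹ z) := by
      rw [map_sub, AlgEquiv.mul_apply, AlgEquiv.mul_apply, ← AlgEquiv.mul_apply g g⁻¹,
        mul_inv_cancel, AlgEquiv.one_apply]
    rw [e]
    exact hnu _ (hτ.res _ ((hg' z).2 hz))

theorem rep29 [IsAlgClosed E] [Algebra.IsAlgebraic k E] (hFR : StmtFR) (hTRV : StmtTRV)
    (G : Geo k K0 E U h r) {b₀ : Place E (L0 E K0 (U := U))} {N N' : IntermediateField E U}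
    (hN' : Lvl E K0 N') (hle : N' ≤ N)
    (hex : ∀ a : U ≃ₐ[E] U, (∀ x ∈ L0 E K0 (U := U), a x = x) → ∀ x ∈ N', a (a x) = x)
    {Z : Finset U} (hZ : ∀ S T : Gb29 b₀, (∀ z ∈ Z, (S : U ≃+* U) z = (T : U ≃+* U) z) →
      pi29 hN' S = pi29 hN' T)
    {C : Finset E} (hC : ∀ T : Gb29 b₀,
      (∀ e ∈ C, (T : U ≃+* U) (algebraMap E U e) = algebraMap E U e) →
      pi29 hN' T ∈ A29 (b₀ := b₀) hN') {Bad : Set (Pr k)}
    (hAR : ∀ v ∉ Bad, ∀ O : ValuationSubring E, OverV v O → O.valuation (2 : E) = 1 ∧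
      ∀ τ : E ≃ₐ[k] E, Inert O τ.toRingEquiv → ∀ e ∈ C, τ e = e)
    {c : k} (hc : c ≠ 0) {Φ : (E ≃ₐ[k] E) →* (U ≃+* U)} (hΦ : Act (K0 := K0) r c Φ)
    (hfix : ∀ σ, Moves (Φ σ) _ b₀ b₀)
    (hLM : ∀ v ∉ Bad, ∀ (O : ValuationSubring E) (F : E ≃ₐ[k] E) (p f : ℕ), DecPt v O F p f →
      ∀ τ : E ≃ₐ[k] E, Inert O τ.toRingEquiv → (∀ d : E, d ^ 2 = algebraMap k E c → τ d = d) →
      ∀ z ∈ Z, Φ τ z = z)
    (hO : ∀ v ∉ Bad, IsOdd v c → OptAt c Φ N b₀ v) :
    Rep (A29 (b₀ := b₀) hN') (adjoin k (C : Set E)) Bad c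
      ((pi29 hN').comp (phi29 hΦ hfix)) := by
  have hgal := gal29 G
  have hcE : CharZero E := charZero_of_injective_algebraMap (algebraMap k E).injective
  have hone : ∀ g : E ≃ₐ[k] E, (∀ z ∈ Z, Φ g z = z) → pi29 hN' (phi29 hΦ hfix g) = 1 := by
    intro g hg
    rw [← map_one (pi29 (b₀ := b₀) hN')]
    exact hZ _ _ fun z hz => hg z hz
  have hmem : ∀ g : E ≃ₐ[k] E, (∀ e ∈ C, g e = e) →
      pi29 hN' (phi29 hΦ hfix g) ∈ A29 (b₀ := b₀) hN' := by
    intro g hg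
    refine hC _ fun e he => ?_
    rw [phi29_apply, hΦ.const, hg e he]
  refine ⟨?_, fun g hg => hmem g fun e he => hg e (subset_adjoin _ _ he), ?_, ?_⟩
  · obtain ⟨L', h1, h2⟩ := exists_cont29 hΦ.cont Z
    exact ⟨L', h1, fun g hg => hone g (h2 g hg)⟩
  · intro v hv O hOv τ hτ
    obtain ⟨d₀, hd₀⟩ : ∃ d₀ : E, d₀ ^ 2 = algebraMap k E c := IsAlgClosed.exists_pow_nat_eq _ two_pos
    -- reduction to a ring `O'` with a Frobenius element
    have hred : ∀ (O' : ValuationSubring E) (F : E ≃ₐ[k] E) (p f : ℕ), DecPt v O' F p f →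
        (∀ τ' : E ≃ₐ[k] E, Inert O' τ'.toRingEquiv →
          (∀ d : E, d ^ 2 = algebraMap k E c → τ' d = -d) →
          pi29 hN' (phi29 hΦ hfix τ') = 1) →
        pi29 hN' (phi29 hΦ hfix τ) = 1 := by
      intro O' F p f hD hodd
      obtain ⟨g, hg⟩ := hTRV k E v O O' hOv hD.above
      have hτ' := inert_conj29 hg hτ
      have h1 : pi29 hN' (phi29 hΦ hfix (g * τ * g⁻¹)) = 1 := by
        by_cases hd : (g * τ * g⁻¹) d₀ = d₀
        · refine hone _ (hLM v hv O' F p f hD _ hτ' fun d hdc => ?_)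
          rcases sq_eq_sq_iff_eq_or_eq_neg.1 (hdc.trans hd₀.symm) with h2 | h2
          · rw [h2, hd]
          · rw [h2, map_neg, hd]
        · have hd' : (g * τ * g⁻¹) d₀ = -d₀ := by
            have h8 : (g * τ * g⁻¹) d₀ ^ 2 = d₀ ^ 2 := by rw [← map_pow, hd₀, AlgEquiv.commutes]
            rcases sq_eq_sq_iff_eq_or_eq_neg.1 h8 with h9 | h9
            · exact absurd h9 hd
            · exact h9
          refine hodd _ hτ' fun d hdc => ?_
          rcases sq_eq_sq_iff_eq_or_eq_neg.1 (hdc.trans hd₀.symm) with h2 | h2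
          · rw [h2, hd']
          · rw [h2, map_neg, hd']
      rw [map_mul, map_mul, map_mul, map_mul, map_inv, map_inv] at h1
      have h2 := mul_inv_eq_one.1 h1
      exact mul_eq_left.1 h2
    by_cases hodd : IsOdd v c
    · obtain ⟨O', F, p, f, hD, Q, hQ, hFQ, hτQ⟩ := hO v hv hodd
      obtain ⟨Q', hQ'⟩ := exists_down29 (E := E) (K0 := K0) hN' hle hQ
      refine hred O' F p f hD fun τ' hτ' hd => ?_
      have h1 : pi29 hN' (phi29 hΦ hfix τ') Q' = Q' := hQ' _ (hτQ τ' hτ' hd)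
      exact A29_fix hN' hex (hmem τ' ((hAR v hv O' hD.above).2 τ' hτ')) h1
    · obtain ⟨O', F, p, f, hD⟩ := hFR k E v
      refine hred O' F p f hD fun τ' hτ' hd => ?_
      exfalso
      apply hodd
      refine ram29 hD.above (hAR v hv O' hD.above).1 hτ' hc hd₀ ?_
      rw [hd d₀ hd₀]
      intro h3
      have h4 : d₀ = 0 := by
        have h5 : (2 : E) * d₀ = 0 := by linear_combination -h3
        exact (mul_eq_zero.1 h5).resolve_left two_ne_zero
      rw [h4, zero_pow two_ne_zero] at hd₀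
      exact hc ((_root_.map_eq_zero _).1 hd₀.symm)
  · intro v hv hodd
    obtain ⟨O', F, p, f, hD, Q, hQ, hFQ, hτQ⟩ := hO v hv hodd
    obtain ⟨Q', hQ'⟩ := exists_down29 (E := E) (K0 := K0) hN' hle hQ
    exact ⟨O', F, p, f, hD, Q', hQ' _ hFQ⟩

end rep

open scoped Classical in
theorem lvl (hAN : StmtAN) (hLM : Pool.Agent.M.StmtLM) (hK3 : StmtK3) (hAR : StmtAR)
    (hLVA : StmtLVA) (hTRV : StmtTRV) (hFR : StmtFR) : StmtLVL := by
  intro k K0 E U _ _ _ _ _ _ _ _ _ _ _ _ h r G b₀ hb₀ N' hN' hMN' hex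
  have hclE : IsAlgClosed E := G.clE
  have halgE : Algebra.IsAlgebraic k E := G.algE
  have hcE : CharZero E := charZero_of_injective_algebraMap (algebraMap k E).injective
  have hfin : Finite (PP29 b₀ N') := finite29 G.ff hN'
  obtain ⟨Zg, hZg⟩ := exists_generators N' hN'.ff
  obtain ⟨Z, hZN, hZ⟩ := exists_sep29 (b₀ := b₀) hN'
  obtain ⟨C, hC⟩ := k3_29 hK3 G hN' hZ
  obtain ⟨N, BadN, hN, -, hZgN, hBadN, hAN1⟩ := hAN k K0 E U h r G b₀ hb₀ Zg
  have hle : N' ≤ N := by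
    intro x hx
    have h1 : x ∈ N'.toSubfield := hx
    rw [hZg] at h1
    have h2 : Subfield.closure (Set.range (algebraMap E U) ∪ (Zg : Set U)) ≤ N.toSubfield := by
      rw [Subfield.closure_le]
      rintro y (⟨e, rfl⟩ | hy)
      · exact N.algebraMap_mem e
      · exact hZgN y hy
    exact h2 h1
  obtain ⟨_, -, -, -, -, BadM, hBadM, hLM1⟩ := hLM k K0 E U h r G Z
  obtain ⟨BadA, hBadA, hAR1⟩ := hAR k E {2} C (by
    intro s hs
    rw [Finset.mem_singleton.1 hs]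
    exact two_ne_zero)
  intro ε hε
  obtain ⟨B, hB⟩ := hAN1 (ε / 2) (half_pos hε)
  obtain ⟨BB, hBB⟩ := Pool.Agent.Helper22.M.exists_B22 k
  set Bad : Set (Pr k) := BadN ∪ BadM ∪ BadA ∪ (BB B : Set (Pr k)) with hBad
  have hBadfin : Bad.Finite := ((hBadN.union hBadM).union hBadA).union (BB B).finite_toSet
  have hCfin : FiniteDimensional k (adjoin k (C : Set E)) := by
    have : Finite (C : Set E) := C.finite_toSet.to_subtype
    exact finiteDimensional_adjoin fun x _ => (Algebra.IsAlgebraic.isAlgebraic x).isIntegral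
  have hA2 : ∀ a ∈ A29 (b₀ := b₀) hN', a * a = 1 := fun a ha => A29_sq hN' hex ha
  have h2 := hLVA k E (PP29 b₀ N') (A29 (b₀ := b₀) hN') hA2 (adjoin k (C : Set E)) hCfin Bad hBadfin
    (ε / 2) (half_pos hε)
  filter_upwards [hB, h2] with X hX1 hX2
  intro T hT hP
  set Q : k → Prop := fun c => ∃ Φ : (E ≃ₐ[k] E) →* (U ≃+* U), Act (K0 := K0) r c Φ ∧
    ∃ v : Pr k, v ∉ BadN ∧ B < nm v ∧ IsOdd v c ∧ ¬ OptAt c Φ N b₀ v with hQ
  have h3 := hX1 (T.filter Q) (fun c hc c' hc' => hT c (Finset.mem_filter.1 hc).1 c'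
    (Finset.mem_filter.1 hc').1) (fun c hc => ⟨(hP c (Finset.mem_filter.1 hc).1).1,
      (hP c (Finset.mem_filter.1 hc).1).2.1, (Finset.mem_filter.1 hc).2⟩)
  have h4 := hX2 (T.filter (¬ Q ·)) (fun c hc c' hc' => hT c (Finset.mem_filter.1 hc).1 c'
    (Finset.mem_filter.1 hc').1) (fun c hc => by
      obtain ⟨hcT, hcQ⟩ := Finset.mem_filter.1 hc
      obtain ⟨hc0, hcX, Φ, hΦ, σ, hσ⟩ := hP c hcT
      refine ⟨hc0, hcX, (pi29 hN').comp (phi29 hΦ (hb₀.fix c Φ hc0 hΦ)), ?_, σ, fun x hx => ?_⟩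
      · refine rep29 hFR hTRV G (N := N) hN' hle hex hZ hC ?_ hc0 hΦ _ ?_ ?_
        · intro v hv O hO
          obtain ⟨h5, h6⟩ := hAR1 v (fun h7 => hv (Or.inl (Or.inr h7))) O hO
          exact ⟨h5 2 (Finset.mem_singleton_self _), h6⟩
        · intro v hv O F p f hD
          exact (hLM1 v (fun h7 => hv (Or.inl (Or.inl (Or.inr h7)))) c hc0 Φ hΦ O F p f hD).1
        · intro v hv hodd
          by_contra hno
          apply hcQ
          refine ⟨Φ, hΦ, v, fun h7 => hv (Or.inl (Or.inl (Or.inl h7))), ?_, hodd, hno⟩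
          by_contra hle'
          exact hv (Or.inr ((hBB B v).2 (not_lt.1 hle')))
      · exact hσ ⟨x.1, x.2, (moves_pi29 hN' _ x x).2 hx⟩)
  have h5 : (T.card : ℝ) = ((T.filter Q).card : ℝ) + ((T.filter (¬ Q ·)).card : ℝ) := by
    rw [← Finset.card_filter_add_card_filter_not Q]
    push_cast
    rfl
  rw [h5]
  linarith

end

end Pool.Agent.TW
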