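import Pool.Agent.Helper29.TW.Base

/-!
# Block TW-3: subtrees of a tree decomposition

`Below D t t'`: `t'` is `t` or a descendant of `t`.
`below_root`: every node `t` is below the root: strong induction on `D.dep t`; if `t ≠ root` then the parent is below the
root and `t` is a child.
`below_mem`: a node below `t` is `t` or below a child of `t` (`Relation.ReflTransGen.cases_head`).
`below_out`: let `t' ` be a node below `c` with `x ∈ bag t'`.  Case 1: `D.top x` is below `c`.  Claim: every node `t` with `x ∈ bag t` is
below `D.top x` (strong induction on `D.dep t`: if `t ≠ top x` then by `conn` the parent contains `x`, it is below `top x` by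
induction, so `t` is); so `t''` is below `D.top x`, so below `c`: contradiction.  Case 2: `D.top x` is not below `c`.  Claim: every node
`t` below `c` with `x ∈ bag t` gives `x ∈ bag (par c)`: induction on `Below D c t` (from `c`): `t ≠ top x` (as `top x` is not below
`c`), so by `conn` `x ∈ bag (par t)`; if `t = c` this is the claim, otherwise `par t` is below `c` and one uses the
induction hypothesis.
`dep_lt`: `D.dep_par`.
-/

set_option autoImplicit false

namespace Pool.Agent.Helper29.TW

open Pool.Agent.Helper20.Spectra Pool.Agent.Helper29.TD

variable {S : Type} {ar : S → ℕ} {M : Type} {I : Interp S ar M} {k : ℕ}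

/-- `t'` is `t` or a descendant of `t` -/
def Below (D : TreeDec I k) (t t' : D.T) : Prop :=
  Relation.ReflTransGen (fun a b => b ≠ D.root ∧ D.par b = a) t t'

/-- the union of the bags of `t` and its descendants -/
def below (D : TreeDec I k) (t : D.T) : Set M := {x | ∃ t', Below D t t' ∧ x ∈ D.bag t'}

/-- every node is below the root -/
private lemma root_below67 (D : TreeDec I k) (n : ℕ) : ∀ t, D.dep t ≤ n → Below D D.root t := by
  induction n with
  | zero =>
    intro t ht
    by_cases h : t = D.root
    · rw [h]
      exact Relation.ReflTransGen.refl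
    · have := D.dep_par t h
      omega
  | succ n ih =>
    intro t ht
    by_cases h : t = D.root
    · rw [h]
      exact Relation.ReflTransGen.refl
    · exact Relation.ReflTransGen.tail (ih (D.par t) (by have := D.dep_par t h; omega)) ⟨h, rfl⟩

/-- every node whose bag contains `x` is below `top x` -/
private lemma top_below67 (D : TreeDec I k) (x : M) (n : ℕ) :
    ∀ t, D.dep t ≤ n → x ∈ D.bag t → Below D (D.top x) t := by
  induction n with
  | zero =>
    intro t ht hx
    by_cases h : t = D.top x
    · rw [h]
      exact Relation.ReflTransGen.refl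
    · have := D.dep_par t (D.conn x t hx h).1
      omega
  | succ n ih =>
    intro t ht hx
    by_cases h : t = D.top x
    · rw [h]
      exact Relation.ReflTransGen.refl
    · obtain ⟨h1, h2⟩ := D.conn x t hx h
      exact Relation.ReflTransGen.tail (ih (D.par t) (by have := D.dep_par t h1; omega) h2)
        ⟨h1, rfl⟩

lemma below_root (D : TreeDec I k) (x : M) : x ∈ below D D.root := by
  exact ⟨D.top x, root_below67 D _ _ le_rfl, D.mem_top x⟩

lemma below_mem (D : TreeDec I k) (t : D.T) (x : M) :
    x ∈ below D t ↔ x ∈ D.bag t ∨ ∃ c, c ≠ D.root ∧ D.par c = t ∧ x ∈ below D c := by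
  constructor
  · rintro ⟨t', h, hx⟩
    rcases Relation.ReflTransGen.cases_head h with h1 | ⟨c, ⟨h1, h2⟩, h3⟩
    · exact Or.inl (h1 ▸ hx)
    · exact Or.inr ⟨c, h1, h2, t', h3, hx⟩
  · rintro (hx | ⟨c, h1, h2, t', h3, hx⟩)
    · exact ⟨t, Relation.ReflTransGen.refl, hx⟩
    · exact ⟨t', Relation.ReflTransGen.head ⟨h1, h2⟩ h3, hx⟩

lemma below_out (D : TreeDec I k) {c t'' : D.T} {x : M} (hx : x ∈ below D c)
    (ht : ¬ Below D c t'') (hx' : x ∈ D.bag t'') : x ∈ D.bag (D.par c) := by
  obtain ⟨t', h1, h2⟩ := hx
  by_cases hc : Below D c (D.top x)
  · exact absurd (hc.trans (top_below67 D x _ _ le_rfl hx')) ht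
  · have key : ∀ t, Below D c t → x ∈ D.bag t → x ∈ D.bag (D.par c) := by
      intro t h
      induction h with
      | refl =>
        intro h3
        have h4 : c ≠ D.top x := by
          intro h5
          apply hc
          rw [← h5]
          exact Relation.ReflTransGen.refl
        exact (D.conn x c h3 h4).2
      | @tail b t hb hr ih =>
        intro h3
        have h4 : t ≠ D.top x := by
          intro h5
          apply hc
          rw [← h5]
          exact Relation.ReflTransGen.tail hb hr
        apply ih
        rw [← hr.2]
        exact (D.conn x t h3 h4).2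
    exact key t' h1 h2

end Pool.Agent.Helper29.TW
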