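import Pool.Agent.Helper29.TW.Base

/-!
# Block TW-5: representation of decompositions by generated structures, basic facts

`Rep I X C ℓ`: the substructure on `X` with the set `C` of sources (the source of `x ∈ C` is `ℓ x`) is isomorphic to a generated
structure; `code` is the isomorphism.  `Rep.congr`: `C.image ℓ = C.image ℓ'`.  `Rep.leaf`: `V := Empty`, `code x := Sum.inl (ℓ x)`,
`J s u := ∃ v, I s v ∧ (∀ i, v i ∈ C) ∧ u = fun i => Sum.inl (ℓ (v i))`, `Gen.base`.
`exists_lab`: extend an injective function on `D` to an injective function on `C ⊇ D` with values in `Fin K` (induction on the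
number of elements of `C \ D`: as long as `D ≠ C` there is a free label because `D.card < C.card ≤ K`; or `Finset.exists_subset_card_eq`
and a bijection of `C \ D` with a subset of the free labels).
-/

set_option autoImplicit false

namespace Pool.Agent.Helper29.TW

open Pool.Agent.Helper20.Spectra Pool.Agent.Helper29.TD

variable {S : Type} {ar : S → ℕ} {M : Type} [DecidableEq M] {K : ℕ}

/-- the substructure on `X` with the sources `C`, labelled by `ℓ`, is represented by a generated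
structure -/
def Rep (I : Interp S ar M) (X C : Finset M) (ℓ : M → Fin K) : Prop :=
  ∃ (V : Type) (J : Interp S ar (Fin K ⊕ V)) (code : M → Fin K ⊕ V),
    Gen S ar K (C.image ℓ) V J ∧ (∀ x ∈ C, code x = Sum.inl (ℓ x)) ∧
    (∀ x ∈ X, x ∉ C → ∃ y, code x = Sum.inr y) ∧
    (∀ y : V, ∃ x ∈ X, x ∉ C ∧ code x = Sum.inr y) ∧ Set.InjOn code X ∧
    ∀ (s : S) (u : Fin (ar s) → Fin K ⊕ V), J s u ↔
      ∃ v : Fin (ar s) → M, I s v ∧ (∀ i, v i ∈ X) ∧ u = fun i => code (v i)

variable {I : Interp S ar M} {X C : Finset M} {ℓ ℓ' : M → Fin K}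

theorem Rep.congr (h : Rep I X C ℓ) (hℓ : ∀ x ∈ C, ℓ x = ℓ' x) : Rep I X C ℓ' := by
  obtain ⟨V, J, code, hg, h1, h2, h3, h4, h5⟩ := h
  have e : C.image ℓ' = C.image ℓ := Finset.image_congr fun x hx => (hℓ x hx).symm
  refine ⟨V, J, code, ?_, fun x hx => ?_, h2, h3, h4, h5⟩
  · rw [e]
    exact hg
  · rw [h1 x hx, hℓ x hx]

theorem Rep.leaf (hℓ : Set.InjOn ℓ C) : Rep I C C ℓ := by
  refine ⟨Empty, fun s u => ∃ v : Fin (ar s) → M, I s v ∧ (∀ i, v i ∈ C) ∧ u = fun i => Sum.inl (ℓ (v i)),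
    fun x => Sum.inl (ℓ x), ?_, fun _ _ => rfl, fun x hx hx' => absurd hx hx', fun y => y.elim, ?_,
    fun _ _ => Iff.rfl⟩
  · refine Gen.base _ _ ?_
    rintro s u ⟨v, -, hv, rfl⟩ i a ha
    rw [← Sum.inl_injective ha]
    exact Finset.mem_image_of_mem _ (hv i)
  · intro x hx y hy hxy
    exact hℓ hx hy (Sum.inl_injective hxy)

theorem exists_lab {D C : Finset M} (hDC : D ⊆ C) (hC : C.card ≤ K) (ℓ : M → Fin K)
    (hℓ : Set.InjOn ℓ D) : ∃ ℓ' : M → Fin K, Set.InjOn ℓ' C ∧ ∀ x ∈ D, ℓ' x = ℓ x := by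
  obtain ⟨t, h1, -, h2⟩ := Finset.exists_subsuperset_card_eq (s := D.image ℓ) (t := Finset.univ)
    (n := C.card) (Finset.subset_univ _) (Finset.card_image_le.trans (Finset.card_le_card hDC))
    (by rw [Finset.card_univ, Fintype.card_fin]; exact hC)
  have hs1 : Finset.image (fun x : C => ℓ x) (Finset.univ.filter fun x : C => (x : M) ∈ D) ⊆ t := by
    intro y hy
    obtain ⟨x, hx, rfl⟩ := Finset.mem_image.1 hy
    exact h1 (Finset.mem_image_of_mem _ (Finset.mem_filter.1 hx).2)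
  have hs2 : Set.InjOn (fun x : C => ℓ x) (Finset.univ.filter fun x : C => (x : M) ∈ D : Finset C) := by
    intro x hx y hy hxy
    rw [Finset.mem_coe, Finset.mem_filter] at hx hy
    exact Subtype.ext (hℓ hx.2 hy.2 hxy)
  obtain ⟨g, hg⟩ := Finset.exists_equiv_extend_of_card_eq (α := C) (t := t)
    (by rw [Fintype.card_coe, h2]) hs1 hs2
  refine ⟨fun x => if h : x ∈ C then (g ⟨x, h⟩ : Fin K) else ℓ x, ?_, ?_⟩
  · intro x hx y hy hxy
    have hx' : x ∈ C := hx
    have hy' : y ∈ C := hy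
    dsimp only at hxy
    rw [dif_pos hx', dif_pos hy'] at hxy
    exact congrArg Subtype.val (g.injective (Subtype.ext hxy))
  · intro x hx
    dsimp only
    rw [dif_pos (hDC hx)]
    exact hg ⟨x, hDC hx⟩ (Finset.mem_filter.2 ⟨Finset.mem_univ _, hx⟩)

end Pool.Agent.Helper29.TW
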