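import Pool.Agent.Helper29.TW.Rep

/-!
# Block TW-6: a source becomes an inner element

`V' := Option V`, `J' := img (fg (ℓ a)) J`, `code' := fg (ℓ a) ∘ code`; `(C.erase a).image ℓ = (C.image ℓ).erase (ℓ a)` by injectivity.
`fg` is injective.  `code a = inl (ℓ a)`, so `code' a = inr none`; for `x ∈ C`, `x ≠ a`: `ℓ x ≠ ℓ a`, `code' x = inl (ℓ x)`; for
`x ∉ C`: `code' x = inr (some y)`.  (`Rep.forget_set`: `Finset.induction` on `D`.)
-/

set_option autoImplicit false

namespace Pool.Agent.Helper29.TW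

open Pool.Agent.Helper20.Spectra Pool.Agent.Helper29.TD

variable {S : Type} {ar : S → ℕ} {M : Type} [DecidableEq M] {K : ℕ}
  {I : Interp S ar M} {X C : Finset M} {ℓ : M → Fin K}

private theorem fg_inj56 {V : Type} (a : Fin K) :
    Function.Injective (fg (V := V) a) := by
  rintro (b | x) (b' | x') h
  · unfold fg at h
    dsimp only at h
    split_ifs at h with h1 h2 h2
    · rw [h1, h2]
    · exact congrArg Sum.inl (Sum.inl.inj h)
  · unfold fg at h
    dsimp only at h
    split_ifs at h with h1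
    · exact absurd (Sum.inr.inj h) (by simp)
  · unfold fg at h
    dsimp only at h
    split_ifs at h with h1
    · exact absurd (Sum.inr.inj h) (by simp)
  · unfold fg at h
    dsimp only at h
    rw [Option.some.inj (Sum.inr.inj h)]

theorem Rep.forget {a : M} (hC : C ⊆ X) (hℓ : Set.InjOn ℓ C) (ha : a ∈ C) (h : Rep I X C ℓ) :
    Rep I X (C.erase a) ℓ := by
  obtain ⟨V, J, code, hG, hc, hi, hs, hinj, hJ⟩ := h
  have hima : ℓ a ∈ C.image ℓ := Finset.mem_image_of_mem ℓ ha
  have himg : (C.erase a).image ℓ = (C.image ℓ).erase (ℓ a) := by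
    ext b
    rw [Finset.mem_image, Finset.mem_erase, Finset.mem_image]
    constructor
    · rintro ⟨x, hx, rfl⟩
      rw [Finset.mem_erase] at hx
      exact ⟨fun h => hx.1 (hℓ hx.2 ha h), x, hx.2, rfl⟩
    · rintro ⟨hb, x, hx, rfl⟩
      exact ⟨x, Finset.mem_erase.2 ⟨fun h => hb (by rw [h]), hx⟩, rfl⟩
  refine ⟨Option V, img (fg (ℓ a)) J, fun x => fg (ℓ a) (code x), ?_, ?_, ?_, ?_, ?_, ?_⟩
  · rw [himg]
    exact Gen.forget _ V J (ℓ a) hima hG
  · intro x hx
    rw [Finset.mem_erase] at hx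
    show fg (ℓ a) (code x) = Sum.inl (ℓ x)
    rw [hc x hx.2]
    exact if_neg (fun h => hx.1 (hℓ hx.2 ha h))
  · intro x hx hxC
    by_cases hxa : x = a
    · refine ⟨none, ?_⟩
      show fg (ℓ a) (code x) = Sum.inr none
      rw [hxa, hc a ha]
      exact if_pos rfl
    · have hxC' : x ∉ C := fun h => hxC (Finset.mem_erase.2 ⟨hxa, h⟩)
      obtain ⟨y, hy⟩ := hi x hx hxC'
      refine ⟨some y, ?_⟩
      show fg (ℓ a) (code x) = Sum.inr (some y)
      rw [hy]
      rfl
  · rintro (_ | y)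
    · refine ⟨a, hC ha, Finset.notMem_erase a C, ?_⟩
      show fg (ℓ a) (code a) = Sum.inr none
      rw [hc a ha]
      exact if_pos rfl
    · obtain ⟨x, hx, hxC, hy⟩ := hs y
      refine ⟨x, hx, fun h => hxC (Finset.mem_of_mem_erase h), ?_⟩
      show fg (ℓ a) (code x) = Sum.inr (some y)
      rw [hy]
      rfl
  · exact (fg_inj56 (ℓ a)).comp_injOn hinj
  · intro s u
    constructor
    · rintro ⟨w, hw, rfl⟩
      obtain ⟨v, hv, hvX, rfl⟩ := (hJ s w).1 hw
      exact ⟨v, hv, hvX, rfl⟩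
    · rintro ⟨v, hv, hvX, rfl⟩
      exact ⟨fun i => code (v i), (hJ s _).2 ⟨v, hv, hvX, rfl⟩, rfl⟩

/-- all sources in `D` become inner elements -/
theorem Rep.forget_set (hC : C ⊆ X) (hℓ : Set.InjOn ℓ C) (h : Rep I X C ℓ) (D : Finset M) :
    Rep I X (C \ D) ℓ := by
  induction D using Finset.induction_on with
  | empty =>
    rw [Finset.sdiff_empty]
    exact h
  | insert a D _ ih =>
    have e : C \ insert a D = (C \ D).erase a := by
      ext x
      simp only [Finset.mem_sdiff, Finset.mem_insert, Finset.mem_erase]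
      tauto
    rw [e]
    by_cases ha : a ∈ C \ D
    · refine Rep.forget (Finset.sdiff_subset.trans hC) (hℓ.mono ?_) ha ih
      intro x hx
      exact Finset.mem_coe.2 (Finset.sdiff_subset (Finset.mem_coe.1 hx))
    · rw [Finset.erase_eq_of_notMem ha]
      exact ih

end Pool.Agent.Helper29.TW
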