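import Pool.Agent.Helper29.TW.Base

/-!
# Block TW-19: gluing many decompositions

Show `Dec I K (F'.biUnion Y ∪ C) C` for all `F' ⊆ F` by `Finset.induction`.  `F' = ∅`: `Dec.leaf`.  Step `insert a F'`: `Dec.join` for
`Y a ∪ C` and `F'.biUnion Y ∪ C`: the intersection is in `C` by `hd`.  A tuple in the union is in `F.biUnion Y ∪ C`, so by `ht` it is in `C`
(fine) or in `Y j ∪ C` for some `j ∈ F`; if `j = a` it is in the first set; if `j ≠ a`: each `v i` is in `C`, or in `Y j` and in
`Y a ∪ F'.biUnion Y`; elements of `Y j ∩ Y a` are in `C`, so it is in `F'.biUnion Y ∪ C`.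
-/

set_option autoImplicit false

namespace Pool.Agent.Helper29.TW

open Pool.Agent.Helper20.Spectra Pool.Agent.Helper29.TD

variable {S : Type} {ar : S → ℕ} {M : Type} [DecidableEq M] {I : Interp S ar M} {K : ℕ}

theorem Dec.family {ι : Type} [DecidableEq ι] (Y : ι → Finset M) (C : Finset M) (F : Finset ι)
    (hC : C.card ≤ K) (hd : ∀ i ∈ F, ∀ j ∈ F, i ≠ j → Y i ∩ Y j ⊆ C)
    (ht : ∀ (s : S) (v : Fin (ar s) → M), I s v → (∀ i, v i ∈ F.biUnion Y ∪ C) →
      (∀ i, v i ∈ C) ∨ ∃ j ∈ F, ∀ i, v i ∈ Y j ∪ C)
    (h : ∀ j ∈ F, Dec I K (Y j ∪ C) C) : Dec I K (F.biUnion Y ∪ C) C := by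
  have key : ∀ F' : Finset ι, F' ⊆ F → Dec I K (F'.biUnion Y ∪ C) C := by
    intro F'
    induction F' using Finset.induction_on with
    | empty =>
      intro _
      rw [Finset.biUnion_empty, Finset.empty_union]
      exact Dec.leaf C hC
    | insert a F' ha ih =>
      intro hsub
      have haF : a ∈ F := hsub (Finset.mem_insert_self a F')
      have hF' : F' ⊆ F := fun x hx => hsub (Finset.mem_insert_of_mem hx)
      have e : (insert a F').biUnion Y ∪ C = (Y a ∪ C) ∪ (F'.biUnion Y ∪ C) := by
        rw [Finset.biUnion_insert]
        ext x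
        simp only [Finset.mem_union]
        tauto
      rw [e]
      refine Dec.join _ _ _ ?_ ?_ (h a haF) (ih hF')
      · intro x hx
        rw [Finset.mem_inter, Finset.mem_union, Finset.mem_union, Finset.mem_biUnion] at hx
        obtain ⟨h1 | h1, h2⟩ := hx
        · obtain ⟨j, hj, hxj⟩ | h2 := h2
          · exact hd a haF j (hF' hj) (fun e => ha (e ▸ hj)) (Finset.mem_inter.2 ⟨h1, hxj⟩)
          · exact h2
        · exact h1
      · intro s v hv hall
        have hall' : ∀ i, v i ∈ F.biUnion Y ∪ C := by
          intro i
          have h1 := hall i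
          rw [← e, Finset.mem_union, Finset.mem_biUnion] at h1
          rw [Finset.mem_union, Finset.mem_biUnion]
          rcases h1 with ⟨j, hj, hij⟩ | h1
          · exact Or.inl ⟨j, hsub hj, hij⟩
          · exact Or.inr h1
        rcases ht s v hv hall' with h1 | ⟨j, hj, h1⟩
        · left
          intro i
          exact Finset.mem_union_right _ (h1 i)
        · by_cases hja : j = a
          · left
            subst hja
            exact h1
          · right
            intro i
            rcases Finset.mem_union.1 (h1 i) with h2 | h2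
            · rcases Finset.mem_union.1 (hall i) with h3 | h3
              · rcases Finset.mem_union.1 h3 with h4 | h4
                · exact Finset.mem_union_right _ (hd j hj a haF hja (Finset.mem_inter.2 ⟨h2, h4⟩))
                · exact Finset.mem_union_right _ h4
              · exact h3
            · exact Finset.mem_union_right _ h2
  exact key F (Finset.Subset.refl F)

end Pool.Agent.Helper29.TW
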