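import Pool.Agent.Helper29.TW.Base

/-!
# Block TW-13: separations after a source becomes an inner element

A separation `(mk α A, mk β B)` of `img (fg x) J` corresponds to the separation `(mk α' A', mk β' B')` of `J`, where `A' = some ⁻¹' A`,
`α' = upd α x (none ∈ A)`, and similarly for `B`, `β`: `fg x y ∈ mk α A ↔ y ∈ mk α' A'` for all `y : Fin K ⊕ V`; all elements of
`Fin K ⊕ Option V` except `inl x` are in the image of `fg x`, which gives the extra condition `x ∈ α ∨ x ∈ β`.
The numbers: for `Q : Set (Option V)`: `Q.ncard = (some ⁻¹' Q).ncard + ind (none ∈ Q)`.  Given the right side with `p`, `r`, `A'`, `B'` take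
`A := some '' A' ∪ {y | y = none ∧ p}`.
-/

set_option autoImplicit false

namespace Pool.Agent.Helper29.TW

open Pool.Agent.Helper20.Spectra Pool.Agent.Helper29.TD

variable {S : Type} {ar : S → ℕ} {K : ℕ} {V : Type}

open Classical in
/-- one if `p` holds, else zero -/
noncomputable def ind (p : Prop) : ℕ := if p then 1 else 0

/-- the set `α` with the membership of `x` changed to `p` -/
def upd (α : Set (Fin K)) (x : Fin K) (p : Prop) : Set (Fin K) :=
  {y | (y = x ∧ p) ∨ (y ≠ x ∧ y ∈ α)}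

lemma ncard_option [Finite V] (Q : Set (Option V)) :
    Q.ncard = (some ⁻¹' Q).ncard + ind (none ∈ Q) := by
  have hinj : Function.Injective (some : V → Option V) := Option.some_injective V
  by_cases h : none ∈ Q
  · have e : Q = insert none (some '' (some ⁻¹' Q)) := by
      ext y
      rcases y with _ | v
      · simp [h]
      · simp
    have h1 : (none : Option V) ∉ some '' (some ⁻¹' Q) := by simp
    have h2 : ind (none ∈ Q) = 1 := if_pos h
    rw [h2]
    conv_lhs => rw [e]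
    rw [Set.ncard_insert_of_notMem h1, Set.ncard_image_of_injective _ hinj]
  · have e : Q = some '' (some ⁻¹' Q) := by
      ext y
      rcases y with _ | v
      · simp [h]
      · simp
    have h2 : ind (none ∈ Q) = 0 := if_neg h
    rw [h2]
    conv_lhs => rw [e]
    rw [Set.ncard_image_of_injective _ hinj, add_zero]

private lemma mem_fg26 (x : Fin K) (α : Set (Fin K)) (A : Set (Option V)) (y : Fin K ⊕ V) :
    fg x y ∈ mk α A ↔ y ∈ mk (upd α x (none ∈ A)) (some ⁻¹' A) := by
  rcases y with b | v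
  · by_cases h : b = x
    · subst h
      have e : fg b (Sum.inl b : Fin K ⊕ V) = Sum.inr none := if_pos rfl
      rw [e]
      show none ∈ A ↔ (b = b ∧ none ∈ A) ∨ (b ≠ b ∧ b ∈ α)
      simp
    · have e : fg x (Sum.inl b : Fin K ⊕ V) = Sum.inl b := if_neg h
      rw [e]
      show b ∈ α ↔ (b = x ∧ none ∈ A) ∨ (b ≠ x ∧ b ∈ α)
      simp [h]
  · exact Iff.rfl

private lemma spn_fg26 (J : Interp S ar (Fin K ⊕ V)) (x : Fin K) (α β : Set (Fin K))
    (A B : Set (Option V)) : Spn (img (fg x) J) (mk α A) (mk β B) ↔ (x ∈ α ∨ x ∈ β) ∧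
      (none ∈ A ∨ none ∈ B) ∧
      Spn J (mk (upd α x (none ∈ A)) (some ⁻¹' A)) (mk (upd β x (none ∈ B)) (some ⁻¹' B)) := by
  constructor
  · rintro ⟨h1, h2⟩
    refine ⟨h1 (Sum.inl x), h1 (Sum.inr none), fun y => ?_, fun s u hu => ?_⟩
    · rw [← mem_fg26, ← mem_fg26]
      exact h1 _
    · have h3 := h2 s (fun i => fg x (u i)) ⟨u, hu, rfl⟩
      simp only [mem_fg26] at h3
      exact h3
  · rintro ⟨h1, h2, h3, h4⟩
    refine ⟨fun z => ?_, ?_⟩
    · rcases z with b | y
      · by_cases h : b = x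
        · subst h
          exact h1
        · have h5 := h3 (Sum.inl b)
          rw [← mem_fg26, ← mem_fg26] at h5
          have e : fg x (Sum.inl b : Fin K ⊕ V) = Sum.inl b := if_neg h
          rw [e] at h5
          exact h5
      · rcases y with _ | v
        · exact h2
        · exact h3 (Sum.inr v)
    · rintro s _ ⟨u, hu, rfl⟩
      simp only [mem_fg26]
      exact h4 s u hu

private lemma exists_set26 (A' : Set V) (p : Prop) :
    ∃ A : Set (Option V), some ⁻¹' A = A' ∧ (none ∈ A ↔ p) := by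
  refine ⟨some '' A' ∪ {y | y = none ∧ p}, ?_, ?_⟩
  · ext v
    simp
  · simp

theorem sm_fg [Finite V] (J : Interp S ar (Fin K ⊕ V)) (x : Fin K) (W : Set (Option V))
    (α β : Set (Fin K)) (c a b : ℕ) : Sm (img (fg x) J) W α β c a b ↔ (x ∈ α ∨ x ∈ β) ∧
      ∃ p r : Prop, (p ∨ r) ∧ ∃ c' a' b' : ℕ, c = c' + ind (p ∧ r) ∧ a = a' + ind (p ∧ none ∈ W) ∧
        b = b' + ind (r ∧ none ∈ W) ∧ Sm J (some ⁻¹' W) (upd α x p) (upd β x r) c' a' b' := by
  have hcnt : ∀ (A B : Set (Option V)), (A ∩ B).ncard =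
      ((some ⁻¹' A) ∩ (some ⁻¹' B)).ncard + ind (none ∈ A ∧ none ∈ B) := by
    intro A B
    rw [ncard_option]
    rfl
  constructor
  · rintro ⟨A, B, hS, hc, ha, hb⟩
    obtain ⟨h1, h2, h3⟩ := (spn_fg26 J x α β A B).1 hS
    refine ⟨h1, none ∈ A, none ∈ B, h2, _, _, _, ?_, ?_, ?_, some ⁻¹' A, some ⁻¹' B, h3, rfl, rfl, rfl⟩
    · rw [← hc, hcnt]
    · rw [← ha, hcnt]
    · rw [← hb, hcnt]
  · rintro ⟨h1, p, r, h2, c', a', b', hc, ha, hb, A', B', h3, hc', ha', hb'⟩
    obtain ⟨A, rfl, hp⟩ := exists_set26 A' p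
    obtain ⟨B, rfl, hr⟩ := exists_set26 B' r
    obtain rfl : (none ∈ A) = p := propext hp
    obtain rfl : (none ∈ B) = r := propext hr
    refine ⟨A, B, (spn_fg26 J x α β A B).2 ⟨h1, h2, h3⟩, ?_, ?_, ?_⟩
    · rw [hc, hcnt, hc']
    · rw [ha, hcnt, ha']
    · rw [hb, hcnt, hb']

end Pool.Agent.Helper29.TW
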