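import Pool.Agent.Helper29.TW.Base

/-!
# Block TW-12: separations of a glued structure

A separation `(mk α A, mk β B)` of `jn J₁ J₂` is the same as a separation `(mk α A₁, mk β B₁)` of `J₁` and a separation `(mk α A₂, mk β B₂)` of
`J₂`, where `A₁ = Sum.inl ⁻¹' A` etc. (a tuple of `jn J₁ J₂` is the image of a tuple `u` of `J₁` or `J₂`, and `Sum.map id Sum.inl (u i) ∈ mk α A`
iff `u i ∈ mk α A₁`).  The numbers add up: for `Q : Set (V₁ ⊕ V₂)`: `Q.ncard = (Sum.inl ⁻¹' Q).ncard + (Sum.inr ⁻¹' Q).ncard` (finite).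
-/

set_option autoImplicit false

namespace Pool.Agent.Helper29.TW

open Pool.Agent.Helper20.Spectra Pool.Agent.Helper29.TD

variable {S : Type} {ar : S → ℕ} {K : ℕ} {V₁ V₂ : Type}

lemma ncard_sum [Finite V₁] [Finite V₂] (Q : Set (V₁ ⊕ V₂)) :
    Q.ncard = (Sum.inl ⁻¹' Q).ncard + (Sum.inr ⁻¹' Q).ncard := by
  have h1 : Q = Sum.inl '' (Sum.inl ⁻¹' Q) ∪ Sum.inr '' (Sum.inr ⁻¹' Q) :=
    (Set.image_preimage_inl_union_image_preimage_inr Q).symm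
  have h2 : Disjoint (Sum.inl '' (Sum.inl ⁻¹' Q) : Set (V₁ ⊕ V₂)) (Sum.inr '' (Sum.inr ⁻¹' Q)) := by
    rw [Set.disjoint_left]
    rintro _ ⟨x, _, rfl⟩ ⟨y, _, hy⟩
    exact Sum.inr_ne_inl hy
  calc Q.ncard = (Sum.inl '' (Sum.inl ⁻¹' Q) ∪ Sum.inr '' (Sum.inr ⁻¹' Q)).ncard := by rw [← h1]
    _ = (Sum.inl '' (Sum.inl ⁻¹' Q) : Set (V₁ ⊕ V₂)).ncard +
        (Sum.inr '' (Sum.inr ⁻¹' Q) : Set (V₁ ⊕ V₂)).ncard := Set.ncard_union_eq h2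
    _ = _ := by
      rw [Set.ncard_image_of_injective _ Sum.inl_injective,
        Set.ncard_image_of_injective _ Sum.inr_injective]

private lemma mem_l62 (α : Set (Fin K)) (A : Set (V₁ ⊕ V₂)) (u : Fin K ⊕ V₁) :
    (Sum.map id Sum.inl u : Fin K ⊕ (V₁ ⊕ V₂)) ∈ mk α A ↔ u ∈ mk α (Sum.inl ⁻¹' A) := by
  cases u <;> exact Iff.rfl

private lemma mem_r62 (α : Set (Fin K)) (A : Set (V₁ ⊕ V₂)) (u : Fin K ⊕ V₂) :
    (Sum.map id Sum.inr u : Fin K ⊕ (V₁ ⊕ V₂)) ∈ mk α A ↔ u ∈ mk α (Sum.inr ⁻¹' A) := by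
  cases u <;> exact Iff.rfl

private lemma spn62 (J₁ : Interp S ar (Fin K ⊕ V₁)) (J₂ : Interp S ar (Fin K ⊕ V₂))
    (α β : Set (Fin K)) (A B : Set (V₁ ⊕ V₂)) :
    Spn (jn J₁ J₂) (mk α A) (mk β B) ↔
      Spn J₁ (mk α (Sum.inl ⁻¹' A)) (mk β (Sum.inl ⁻¹' B)) ∧
      Spn J₂ (mk α (Sum.inr ⁻¹' A)) (mk β (Sum.inr ⁻¹' B)) := by
  constructor
  · rintro ⟨h1, h2⟩
    refine ⟨⟨fun x => ?_, fun s v hv => ?_⟩, fun x => ?_, fun s v hv => ?_⟩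
    · exact (h1 (Sum.map id Sum.inl x)).imp (mem_l62 α A x).1 (mem_l62 β B x).1
    · exact (h2 s _ (Or.inl ⟨v, hv, rfl⟩)).imp (fun h i => (mem_l62 α A _).1 (h i))
        (fun h i => (mem_l62 β B _).1 (h i))
    · exact (h1 (Sum.map id Sum.inr x)).imp (mem_r62 α A x).1 (mem_r62 β B x).1
    · exact (h2 s _ (Or.inr ⟨v, hv, rfl⟩)).imp (fun h i => (mem_r62 α A _).1 (h i))
        (fun h i => (mem_r62 β B _).1 (h i))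
  · rintro ⟨⟨h1, h2⟩, h3, h4⟩
    refine ⟨fun x => ?_, fun s v hv => ?_⟩
    · rcases x with a | x | x
      · exact (h1 (Sum.inl a)).imp (fun h => h) (fun h => h)
      · exact (h1 (Sum.inr x)).imp (fun h => h) (fun h => h)
      · exact (h3 (Sum.inr x)).imp (fun h => h) (fun h => h)
    · rcases hv with ⟨u, hu, rfl⟩ | ⟨u, hu, rfl⟩
      · exact (h2 s u hu).imp (fun h i => (mem_l62 α A _).2 (h i))
          (fun h i => (mem_l62 β B _).2 (h i))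
      · exact (h4 s u hu).imp (fun h i => (mem_r62 α A _).2 (h i))
          (fun h i => (mem_r62 β B _).2 (h i))

theorem sm_jn [Finite V₁] [Finite V₂] (J₁ : Interp S ar (Fin K ⊕ V₁))
    (J₂ : Interp S ar (Fin K ⊕ V₂)) (W : Set (V₁ ⊕ V₂)) (α β : Set (Fin K)) (c a b : ℕ) :
    Sm (jn J₁ J₂) W α β c a b ↔ ∃ c₁ c₂ a₁ a₂ b₁ b₂ : ℕ, c₁ + c₂ = c ∧ a₁ + a₂ = a ∧
      b₁ + b₂ = b ∧ Sm J₁ (Sum.inl ⁻¹' W) α β c₁ a₁ b₁ ∧ Sm J₂ (Sum.inr ⁻¹' W) α β c₂ a₂ b₂ := by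
  constructor
  · rintro ⟨A, B, hs, hc, ha, hb⟩
    obtain ⟨h1, h2⟩ := (spn62 J₁ J₂ α β A B).1 hs
    refine ⟨_, _, _, _, _, _, ?_, ?_, ?_, ⟨_, _, h1, rfl, rfl, rfl⟩, _, _, h2, rfl, rfl, rfl⟩
    · rw [← hc, ncard_sum (A ∩ B)]; rfl
    · rw [← ha, ncard_sum (A ∩ W)]; rfl
    · rw [← hb, ncard_sum (B ∩ W)]; rfl
  · rintro ⟨c₁, c₂, a₁, a₂, b₁, b₂, hc, ha, hb, ⟨A₁, B₁, h1, hc1, ha1, hb1⟩, A₂, B₂, h2, hc2,
      ha2, hb2⟩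
    refine ⟨{x | Sum.elim (· ∈ A₁) (· ∈ A₂) x}, {x | Sum.elim (· ∈ B₁) (· ∈ B₂) x},
      (spn62 J₁ J₂ α β _ _).2 ⟨h1, h2⟩, ?_, ?_, ?_⟩
    · rw [ncard_sum, ← hc, ← hc1, ← hc2]; rfl
    · rw [ncard_sum, ← ha, ← ha1, ← ha2]; rfl
    · rw [ncard_sum, ← hb, ← hb1, ← hb2]; rfl

end Pool.Agent.Helper29.TW
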