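import Pool.Agent.Helper29.TW.TyJoin
import Pool.Agent.Helper29.TW.TyForget
import Pool.Agent.Helper29.TW.SmJoin
import Pool.Agent.Helper29.TW.SmForget

/-!
# Block TW-14: the state is compatible with the operations

`Gen.finite`: induction.  `exists_st`: take `σ := (B, ty q J, ⟨W.ncard, _⟩, {κ | Sm ...})`.
`HasSt.jn`: the first component is `B₁ ∪ B₂ = B₁' ∪ B₂'`, the second `ty_jn`, the third `ncard_sum`; the fourth: let `κ = (α, β, c, a, b)`,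
`c ≤ k`, `a, b ≤ 5 * k`.  By `sm_jn`, `Sm (jn J₁ J₂) W α β c a b` holds iff there are `c₁ + c₂ = c` etc. with `Sm J₁ ..`, `Sm J₂ ..`; then
`c₁, c₂ ≤ k` and `a₁, a₂, b₁, b₂ ≤ 5 * k`, so these statements are equivalent to statements on `σ₁`, `σ₂` and to the same for `J₁'`, `J₂'`.
`HasSt.fg`: in the same way with `ty_fg`, `ncard_option`, `sm_fg` (`c' ≤ c` etc.).
-/

set_option autoImplicit false

namespace Pool.Agent.Helper29.TW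

open Pool.Agent.Helper20.Spectra Pool.Agent.Helper29.TD

variable {S : Type} {ar : S → ℕ} {K : ℕ}

theorem Gen.finite {B : Finset (Fin K)} {V : Type} {J : Interp S ar (Fin K ⊕ V)}
    (h : Gen S ar K B V J) : Finite V := by
  induction h with
  | base => infer_instance
  | join _ _ _ _ _ _ _ _ ih1 ih2 =>
    have := ih1
    have := ih2
    infer_instance
  | forget _ _ _ _ _ _ ih =>
    have := ih
    infer_instance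

variable {V V' V₁ V₂ V₁' V₂' : Type} {q k : ℕ}

theorem exists_st (q : ℕ) {k : ℕ} (B : Finset (Fin K)) (J : Interp S ar (Fin K ⊕ V)) (W : Set V)
    (hW : W.ncard ≤ 5 * k) : ∃ σ : Stt S ar q K k, HasSt B J W σ :=
  ⟨(B, ty q J, ⟨W.ncard, Nat.lt_succ_of_le hW⟩,
    {κ | Sm J W κ.1 κ.2.1 κ.2.2.1 κ.2.2.2.1 κ.2.2.2.2}), rfl, rfl, rfl, fun _ => Iff.rfl⟩

private lemma sm_iff_h12 {B B' : Finset (Fin K)} {J : Interp S ar (Fin K ⊕ V)}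
    {J' : Interp S ar (Fin K ⊕ V')} {W : Set V} {W' : Set V'} {σ : Stt S ar q K k}
    (h : HasSt B J W σ) (h' : HasSt B' J' W' σ) {α β : Set (Fin K)} {c a b : ℕ} (hc : c ≤ k)
    (ha : a ≤ 5 * k) (hb : b ≤ 5 * k) : Sm J W α β c a b ↔ Sm J' W' α β c a b :=
  (h.2.2.2 (α, β, ⟨c, Nat.lt_succ_of_le hc⟩, ⟨a, Nat.lt_succ_of_le ha⟩,
    ⟨b, Nat.lt_succ_of_le hb⟩)).symm.trans (h'.2.2.2 _)

private lemma jn_iff_h12 {B₁ B₂ B₁' B₂' : Finset (Fin K)}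
    {J₁ : Interp S ar (Fin K ⊕ V₁)} {J₁' : Interp S ar (Fin K ⊕ V₁')}
    {J₂ : Interp S ar (Fin K ⊕ V₂)} {J₂' : Interp S ar (Fin K ⊕ V₂')} {W₁ : Set V₁} {W₂ : Set V₂}
    {W₁' : Set V₁'} {W₂' : Set V₂'} {σ₁ σ₂ : Stt S ar q K k} (h1 : HasSt B₁ J₁ W₁ σ₁)
    (h1' : HasSt B₁' J₁' W₁' σ₁) (h2 : HasSt B₂ J₂ W₂ σ₂)
    (h2' : HasSt B₂' J₂' W₂' σ₂) {α β : Set (Fin K)} {c a b : ℕ} (hc : c ≤ k)
    (ha : a ≤ 5 * k) (hb : b ≤ 5 * k)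
    (h : ∃ c₁ c₂ a₁ a₂ b₁ b₂ : ℕ, c₁ + c₂ = c ∧ a₁ + a₂ = a ∧
      b₁ + b₂ = b ∧ Sm J₁ W₁ α β c₁ a₁ b₁ ∧ Sm J₂ W₂ α β c₂ a₂ b₂) :
    ∃ c₁ c₂ a₁ a₂ b₁ b₂ : ℕ, c₁ + c₂ = c ∧ a₁ + a₂ = a ∧
      b₁ + b₂ = b ∧ Sm J₁' W₁' α β c₁ a₁ b₁ ∧ Sm J₂' W₂' α β c₂ a₂ b₂ := by
  obtain ⟨c₁, c₂, a₁, a₂, b₁, b₂, e1, e2, e3, s1, s2⟩ := h
  exact ⟨c₁, c₂, a₁, a₂, b₁, b₂, e1, e2, e3,
    (sm_iff_h12 h1 h1' (by omega) (by omega) (by omega)).1 s1,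
    (sm_iff_h12 h2 h2' (by omega) (by omega) (by omega)).1 s2⟩

theorem HasSt.jn [Finite V₁] [Finite V₂] [Finite V₁'] [Finite V₂'] {B₁ B₂ B₁' B₂' : Finset (Fin K)}
    {J₁ : Interp S ar (Fin K ⊕ V₁)} {J₁' : Interp S ar (Fin K ⊕ V₁')}
    {J₂ : Interp S ar (Fin K ⊕ V₂)} {J₂' : Interp S ar (Fin K ⊕ V₂')} {W : Set (V₁ ⊕ V₂)}
    {W' : Set (V₁' ⊕ V₂')} {σ₁ σ₂ σ : Stt S ar q K k} (h1 : HasSt B₁ J₁ (Sum.inl ⁻¹' W) σ₁)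
    (h1' : HasSt B₁' J₁' (Sum.inl ⁻¹' W') σ₁) (h2 : HasSt B₂ J₂ (Sum.inr ⁻¹' W) σ₂)
    (h2' : HasSt B₂' J₂' (Sum.inr ⁻¹' W') σ₂) (h : HasSt (B₁ ∪ B₂) (jn J₁ J₂) W σ) :
    HasSt (B₁' ∪ B₂') (TW.jn J₁' J₂') W' σ := by
  refine ⟨?_, ?_, ?_, fun κ => ?_⟩
  · rw [h.1, ← h1.1, ← h2.1, ← h1'.1, ← h2'.1]
  · rw [h.2.1]
    exact ty_jn q (h1.2.1.symm.trans h1'.2.1) (h2.2.1.symm.trans h2'.2.1)
  · rw [h.2.2.1, ncard_sum W, ncard_sum W', ← h1.2.2.1, ← h2.2.2.1, ← h1'.2.2.1, ← h2'.2.2.1]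
  · have hc : (κ.2.2.1 : ℕ) ≤ k := Nat.le_of_lt_succ κ.2.2.1.2
    have ha : (κ.2.2.2.1 : ℕ) ≤ 5 * k := Nat.le_of_lt_succ κ.2.2.2.1.2
    have hb : (κ.2.2.2.2 : ℕ) ≤ 5 * k := Nat.le_of_lt_succ κ.2.2.2.2.2
    refine (h.2.2.2 κ).trans ((sm_jn _ _ _ _ _ _ _ _).trans (Iff.trans ?_
      (sm_jn _ _ _ _ _ _ _ _).symm))
    exact ⟨jn_iff_h12 h1 h1' h2 h2' hc ha hb, jn_iff_h12 h1' h1 h2' h2 hc ha hb⟩

theorem HasSt.fg [Finite V] [Finite V'] {B B' : Finset (Fin K)} {J : Interp S ar (Fin K ⊕ V)}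
    {J' : Interp S ar (Fin K ⊕ V')} (a : Fin K) {W : Set (Option V)} {W' : Set (Option V')}
    (hW : none ∈ W ↔ none ∈ W') {σ τ : Stt S ar q K k} (h1 : HasSt B J (some ⁻¹' W) σ)
    (h1' : HasSt B' J' (some ⁻¹' W') σ) (h : HasSt (B.erase a) (img (fg a) J) W τ) :
    HasSt (B'.erase a) (img (TW.fg a) J') W' τ := by
  have hW' : (none ∈ W) = (none ∈ W') := propext hW
  refine ⟨?_, ?_, ?_, fun κ => ?_⟩
  · rw [h.1, ← h1.1, ← h1'.1]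
  · rw [h.2.1]
    exact ty_fg q a (h1.2.1.symm.trans h1'.2.1)
  · rw [h.2.2.1, ncard_option W, ncard_option W', ← h1.2.2.1, ← h1'.2.2.1, hW']
  · have hc : (κ.2.2.1 : ℕ) ≤ k := Nat.le_of_lt_succ κ.2.2.1.2
    have ha : (κ.2.2.2.1 : ℕ) ≤ 5 * k := Nat.le_of_lt_succ κ.2.2.2.1.2
    have hb : (κ.2.2.2.2 : ℕ) ≤ 5 * k := Nat.le_of_lt_succ κ.2.2.2.2.2
    refine (h.2.2.2 κ).trans ((sm_fg _ _ _ _ _ _ _ _).trans (Iff.trans ?_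
      (sm_fg _ _ _ _ _ _ _ _).symm))
    rw [hW']
    constructor
    · rintro ⟨hx, p, r, hpr, c', a', b', e1, e2, e3, s⟩
      exact ⟨hx, p, r, hpr, c', a', b', e1, e2, e3,
        (sm_iff_h12 h1 h1' (by omega) (by omega) (by omega)).1 s⟩
    · rintro ⟨hx, p, r, hpr, c', a', b', e1, e2, e3, s⟩
      exact ⟨hx, p, r, hpr, c', a', b', e1, e2, e3,
        (sm_iff_h12 h1' h1 (by omega) (by omega) (by omega)).1 s⟩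

end Pool.Agent.Helper29.TW
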